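import Pool.Graph.R_seed8.H741R4.DH19

/-!
Derrida-Hilhorst amplitude, part A: the perpetuity `X = Σ_n Z_0 ⋯ Z_n`.
-/

open MeasureTheory ProbabilityTheory Filter Topology Asymptotics
open Pool.Agent.H741R4.DH

namespace Pool.Agent.DH97

noncomputable section

variable {Ω : Type*} [mΩ : MeasurableSpace Ω] {P : Measure Ω} {Z : ℕ → Ω → ℝ} {α : ℝ}

/-- Partial sums of the perpetuity. -/
def PS (z : ℕ → ℝ) (n : ℕ) : ℝ := ∑ j ∈ Finset.range n, ∏ k ∈ Finset.range (j + 1), z k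

/-- The perpetuity `Z_0 + Z_0 Z_1 + Z_0 Z_1 Z_2 + ⋯`. -/
def Xinf (Z : ℕ → Ω → ℝ) (ω : Ω) : ℝ := ∑' j : ℕ, ∏ k ∈ Finset.range (j + 1), Z k ω

lemma PS_succ' (z : ℕ → ℝ) (n : ℕ) : PS z (n + 1) = z 0 * (1 + PS (fun k => z (k + 1)) n) := by
  unfold PS
  rw [Finset.sum_range_succ', mul_add, mul_one, Finset.mul_sum, add_comm]
  congr 1
  · simp
  · apply Finset.sum_congr rfl
    intro j _
    rw [Finset.prod_range_succ', mul_comm]

lemma PS_congr {z z' : ℕ → ℝ} (n : ℕ) (h : ∀ k, k < n → z k = z' k) : PS z n = PS z' n := by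
  unfold PS
  apply Finset.sum_congr rfl
  intro j hj
  apply Finset.prod_congr rfl
  intro k hk
  have h1 := Finset.mem_range.1 hj
  have h2 := Finset.mem_range.1 hk
  exact h k (by omega)

/-- Reversal of the first `n` indices. -/
def rv (n k : ℕ) : ℕ := if k < n then n - 1 - k else k

lemma rv_inj (n : ℕ) : Function.Injective (rv n) := by
  intro a b h
  unfold rv at h
  split_ifs at h <;> omega

omit mΩ in
lemma X0_eq (Z : ℕ → Ω → ℝ) (n : ℕ) (ω : Ω) :
    X Z 0 n ω = PS (fun k => Z (rv n k) ω) n := by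
  induction n with
  | zero => simp [X, PS]
  | succ n ih =>
    change Z n ω * W 0 (X Z 0 n ω) = _
    rw [PS_succ', ih]
    have h1 : rv (n + 1) 0 = n := by unfold rv; simp
    have h2 : PS (fun k => Z (rv (n + 1) (k + 1)) ω) n = PS (fun k => Z (rv n k) ω) n := by
      apply PS_congr
      intro k hk
      have : rv (n + 1) (k + 1) = rv n k := by
        unfold rv
        rw [if_pos (by omega), if_pos hk]
        omega
      rw [this]
    rw [h1, h2]
    unfold W
    simp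

lemma ident_inj (S : Setup P Z α) {g : ℕ → ℕ} (hg : Function.Injective g) :
    IdentDistrib (fun ω => fun k => Z (g k) ω) (fun ω => fun k => Z k ω) P P := by
  refine ⟨(measurable_pi_lambda _ fun k => S.meas _).aemeasurable,
    (measurable_pi_lambda _ fun k => S.meas _).aemeasurable, ?_⟩
  have h1 := (S.indep.precomp (g := g) hg).map_fun_eq_infinitePi_map (fun i => S.meas (g i))
  have h2 := S.indep.map_fun_eq_infinitePi_map S.meas
  rw [h1, h2]
  congr 1
  funext i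
  rw [(S.ident (g i)).map_eq, (S.ident i).map_eq]

lemma measurable_PS (n : ℕ) : Measurable (fun z : ℕ → ℝ => PS z n) := by
  unfold PS
  apply Finset.measurable_sum
  intro j _
  apply Finset.measurable_prod
  intro k _
  exact measurable_pi_apply k

lemma X0_ident (S : Setup P Z α) (n : ℕ) :
    IdentDistrib (X Z 0 n) (fun ω => PS (fun k => Z k ω) n) P P := by
  have h := (ident_inj S (rv_inj n)).comp (measurable_PS n)
  have e : (fun z : ℕ → ℝ => PS z n) ∘ (fun ω => fun k => Z (rv n k) ω) = X Z 0 n := by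
    funext ω
    exact (X0_eq Z n ω).symm
  rw [e] at h
  exact h

lemma E0_eq (S : Setup P Z α) {f : ℝ → ℝ} (hf : Measurable f) (n : ℕ) :
    E P Z 0 f n = ∫ ω, f (PS (fun k => Z k ω) n) ∂P := ((X0_ident S n).comp hf).integral_eq

lemma W0 (x : ℝ) : W 0 x = 1 + x := by unfold W; simp

lemma X0_nonneg (S : Setup P Z α) : ∀ᵐ ω ∂P, ∀ n, 0 ≤ X Z 0 n ω := by
  filter_upwards [S.pos_all] with ω hω n
  induction n with
  | zero => exact le_rfl
  | succ n ih =>
    change 0 ≤ Z n ω * W 0 (X Z 0 n ω)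
    rw [W0]
    have := hω n
    positivity

lemma int_w0 (S : Setup P Z α) (n : ℕ) : Integrable (fun ω => w α (X Z 0 n ω)) P := by
  have hP := S.prob
  have hα := S.α_pos
  induction n with
  | zero =>
    have : (fun ω => w α (X Z 0 0 ω)) = fun _ => w α 0 := rfl
    rw [this]
    exact integrable_const (μ := P) (w α 0)
  | succ n ih =>
    have hind : IndepFun (fun ω => w α (Z n ω)) (fun ω => w α (X Z 0 n ω)) P :=
      (S.indep_ZX 0 n).comp (measurable_w α) (measurable_w α)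
    refine Integrable.mono' (hind.integrable_mul (S.int_w_all n) ih)
      ((measurable_w α).comp (S.measurable_X 0 (n + 1))).aestronglyMeasurable ?_
    filter_upwards [S.pos_all, X0_nonneg S] with ω h1 h2
    have hz := h1 n
    have hx := h2 n
    rw [Real.norm_eq_abs, abs_of_nonneg (w_nonneg (h2 (n + 1)))]
    change w α (Z n ω * W 0 (X Z 0 n ω)) ≤ w α (Z n ω) * w α (X Z 0 n ω)
    rw [W0]
    unfold w
    rw [← Real.mul_rpow (by linarith) (by linarith)]
    apply Real.rpow_le_rpow (by positivity) _ hα.le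
    nlinarith

lemma int_f0 (S : Setup P Z α) {f : ℝ → ℝ} (hf : Cl α f) (n : ℕ) :
    Integrable (fun ω => f (X Z 0 n ω)) P := by
  obtain ⟨C, hC0, hC⟩ := hf.nonneg_bd S.α_pos.le
  refine Integrable.mono' ((int_w0 S n).const_mul C)
    (hf.meas.comp (S.measurable_X 0 n)).aestronglyMeasurable ?_
  filter_upwards [X0_nonneg S] with ω hω
  exact hC _ (hω n)

lemma cl_Av1 (S : Setup P Z α) {f : ℝ → ℝ} (hf : Cl α f) :
    Cl α (fun x => Av P Z f (1 + x)) := by
  obtain ⟨C, hC0, hC⟩ := hf.nonneg_bd S.α_pos.le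
  have hw0 : 0 ≤ ∫ ω, w α (Z 0 ω) ∂P := by
    apply integral_nonneg_of_ae
    filter_upwards [S.pos] with ω hω using w_nonneg hω.le
  refine ⟨(S.measurable_Av hf.meas).comp (measurable_const.add measurable_id),
    C * (∫ ω, w α (Z 0 ω) ∂P) * 2 ^ α, fun x hx => ?_⟩
  have h1 := S.Av_bd hC hC0 (v := 1 + x) (by linarith)
  have hle : w α (1 + x) ≤ 2 ^ α * w α x := by
    unfold w
    rw [← Real.mul_rpow (by norm_num) (by linarith)]
    exact Real.rpow_le_rpow (by linarith) (by linarith) S.α_pos.le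
  refine h1.trans ?_
  have := mul_le_mul_of_nonneg_left hle (mul_nonneg hC0 hw0)
  linarith

lemma E0_succ (S : Setup P Z α) {f : ℝ → ℝ} (hf : Cl α f) (j : ℕ) :
    E P Z 0 f (j + 1) = E P Z 0 (fun x => Av P Z f (1 + x)) j := by
  have hprob := S.prob
  have hXm := S.measurable_X 0 j
  have hind := (S.indep_ZX 0 j).symm
  have hlaw := (indepFun_iff_map_prod_eq_prod_map_map hXm.aemeasurable
    (S.meas j).aemeasurable).1 hind
  have hFm : Measurable (fun q : ℝ × ℝ => f (q.2 * W 0 q.1)) :=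
    hf.meas.comp (measurable_snd.mul ((measurable_W 0).comp measurable_fst))
  have hpair : Measurable (fun ω => (X Z 0 j ω, Z j ω)) := hXm.prodMk (S.meas j)
  have hintF : Integrable (fun q : ℝ × ℝ => f (q.2 * W 0 q.1))
      ((P.map (X Z 0 j)).prod (P.map (Z j))) := by
    rw [← hlaw]
    exact (integrable_map_measure hFm.aestronglyMeasurable hpair.aemeasurable).2
      (int_f0 S hf (j + 1))
  have : IsProbabilityMeasure (P.map (X Z 0 j)) := Measure.isProbabilityMeasure_map hXm.aemeasurable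
  have : IsProbabilityMeasure (P.map (Z j)) :=
    Measure.isProbabilityMeasure_map (S.meas j).aemeasurable
  unfold E
  have e1 : ∫ ω, f (X Z 0 (j + 1) ω) ∂P
      = ∫ q, f (q.2 * W 0 q.1) ∂((P.map (X Z 0 j)).prod (P.map (Z j))) := by
    rw [← hlaw, integral_map hpair.aemeasurable hFm.aestronglyMeasurable]
    rfl
  rw [e1, integral_prod _ hintF]
  have e2 : ∀ x : ℝ, ∫ z, f (z * W 0 x) ∂(P.map (Z j)) = Av P Z f (1 + x) := by
    intro x
    have hm : Measurable (fun z : ℝ => f (z * W 0 x)) := hf.meas.comp (measurable_id.mul_const _)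
    rw [integral_map (S.meas j).aemeasurable hm.aestronglyMeasurable, ← W0]
    exact ((S.ident j).comp hm).integral_eq
  simp only [e2]
  exact integral_map hXm.aemeasurable
    ((S.measurable_Av hf.meas).comp (measurable_const.add measurable_id)).aestronglyMeasurable

/-- Nice test functions. -/
structure Mo (α : ℝ) (f : ℝ → ℝ) : Prop where
  cl : Cl α f
  cont : ContinuousOn f (Set.Ici 0)
  mono : ∀ x y, 0 ≤ x → x ≤ y → f x ≤ f y
  nonneg : ∀ x, 0 ≤ x → 0 ≤ f x

omit mΩ in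
lemma X_tendsto {ω : Ω} (n : ℕ) :
    Tendsto (fun a : ℝ => X Z a n ω) (𝓝[>] 0) (𝓝 (X Z 0 n ω)) := by
  induction n with
  | zero => exact tendsto_const_nhds
  | succ n ih =>
    have ha : Tendsto (fun a : ℝ => a) (𝓝[>] 0) (𝓝 0) := tendsto_id.mono_left nhdsWithin_le_nhds
    have h1 : Tendsto (fun a : ℝ => (1 + X Z a n ω) / (1 + a * X Z a n ω)) (𝓝[>] 0)
        (𝓝 ((1 + X Z 0 n ω) / (1 + 0 * X Z 0 n ω))) := by
      apply Tendsto.div (ih.const_add 1) ((ha.mul ih).const_add 1)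
      simp
    exact h1.const_mul (Z n ω)

lemma X_le_X0 (S : Setup P Z α) : ∀ᵐ ω ∂P, ∀ a, 0 < a → ∀ n,
    0 ≤ X Z a n ω ∧ X Z a n ω ≤ X Z 0 n ω := by
  filter_upwards [S.pos_all] with ω h1 a ha n
  induction n with
  | zero => exact ⟨le_rfl, le_rfl⟩
  | succ n ih =>
    have hz := h1 n
    constructor
    · exact mul_nonneg hz.le (W_pos ha ih.1).le
    · change Z n ω * W a (X Z a n ω) ≤ Z n ω * W 0 (X Z 0 n ω)
      apply mul_le_mul_of_nonneg_left _ hz.le
      rw [W0]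
      exact (W_le ha ih.1).trans (by linarith [ih.2])

lemma E_tendsto (S : Setup P Z α) {f : ℝ → ℝ} (hf : Mo α f) (n : ℕ) :
    Tendsto (fun a => E P Z a f n) (𝓝[>] 0) (𝓝 (E P Z 0 f n)) := by
  unfold E
  refine tendsto_integral_filter_of_dominated_convergence (fun ω => f (X Z 0 n ω))
    (Eventually.of_forall fun a => (hf.cl.meas.comp (S.measurable_X a n)).aestronglyMeasurable)
    ?_ (int_f0 S hf.cl n) ?_
  · filter_upwards [self_mem_nhdsWithin] with a ha
    filter_upwards [X_le_X0 S] with ω hω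
    obtain ⟨h1, h2⟩ := hω a ha n
    rw [Real.norm_eq_abs, abs_of_nonneg (hf.nonneg _ h1)]
    exact hf.mono _ _ h1 h2
  · filter_upwards [X0_nonneg S, X_le_X0 S] with ω h2 h3
    have h4 := X_tendsto (Z := Z) (ω := ω) n
    have h5 := (hf.cont (X Z 0 n ω) (h2 n)).tendsto
    refine h5.comp (tendsto_nhdsWithin_iff.2 ⟨h4, ?_⟩)
    filter_upwards [self_mem_nhdsWithin] with a ha using (h3 a ha n).1

/-! ### monotonicity in `n` -/

lemma mono_T (S : Setup P Z α) {a : ℝ} (ha : 0 < a) (ha1 : a ≤ 1) {f : ℝ → ℝ} (hf : Cl α f)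
    (hm : ∀ x y, 0 ≤ x → x ≤ y → f x ≤ f y) :
    ∀ x y, 0 ≤ x → x ≤ y → Av P Z f (W a x) ≤ Av P Z f (W a y) := by
  intro x y hx hxy
  have h1 := (W_pos ha hx).le
  have h2 := (W_pos ha (hx.trans hxy)).le
  exact S.Av_mono_v h1 (Setup.W_mono_x ha ha1 hx hxy) (S.int_Av hf h1) (S.int_Av hf h2) hm

lemma E_mono_n (S : Setup P Z α) {a : ℝ} (ha : 0 < a) (ha1 : a ≤ 1) (n : ℕ) :
    ∀ {f : ℝ → ℝ}, Cl α f → (∀ x y, 0 ≤ x → x ≤ y → f x ≤ f y) →
      E P Z a f n ≤ E P Z a f (n + 1) := by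
  have hP := S.prob
  induction n with
  | zero =>
    intro f hf hm
    refine integral_mono_ae (S.int_f ha ha1 hf 0) (S.int_f ha ha1 hf 1) ?_
    filter_upwards [S.X_nonneg ha] with ω hω
    exact hm _ _ le_rfl (hω 1)
  | succ n ih =>
    intro f hf hm
    rw [S.E_succ ha ha1 hf, S.E_succ ha ha1 hf]
    exact ih (S.cl_AvW ha hf) (mono_T S ha ha1 hf hm)

lemma E_lim (S : Setup P Z α) {a : ℝ} (ha : 0 < a) (ha1 : a ≤ 1) {f : ℝ → ℝ} (hf : Cl α f)
    (hm : ∀ x y, 0 ≤ x → x ≤ y → f x ≤ f y) :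
    Tendsto (E P Z a f) atTop (𝓝 (Lam P Z a f)) := by
  have hmono : Monotone (E P Z a f) := monotone_nat_of_le_succ fun n => E_mono_n S ha ha1 n hf hm
  obtain ⟨C, hC⟩ := S.bdd_E ha ha1 hf
  have hb : BddAbove (Set.range (E P Z a f)) := ⟨C, by
    rintro _ ⟨n, rfl⟩
    exact (le_abs_self _).trans (hC n)⟩
  have h := tendsto_atTop_ciSup hmono hb
  have h2 : Lam P Z a f = ⨆ n, E P Z a f n := Lm_of_tendsto h
  rw [h2]
  exact h

lemma E_le_Lam (S : Setup P Z α) {a : ℝ} (ha : 0 < a) (ha1 : a ≤ 1) {f : ℝ → ℝ} (hf : Cl α f)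
    (hm : ∀ x y, 0 ≤ x → x ≤ y → f x ≤ f y) (n : ℕ) : E P Z a f n ≤ Lam P Z a f :=
  (monotone_nat_of_le_succ fun n => E_mono_n S ha ha1 n hf hm).ge_of_tendsto
    (E_lim S ha ha1 hf hm) n

/-- Uniform bound at `a = 0`. -/
lemma E0_le (S : Setup P Z α) {f : ℝ → ℝ} (hf : Mo α f) {C : ℝ}
    (hC : ∀ a, 0 < a → a ≤ 1 → Lam P Z a f ≤ C) (n : ℕ) : E P Z 0 f n ≤ C := by
  refine le_of_tendsto (E_tendsto S hf n) ?_
  filter_upwards [Setup.ev_Ioc] with a ha
  exact (E_le_Lam S ha.1 ha.2 hf.cl hf.mono n).trans (hC a ha.1 ha.2)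

lemma PS_nonneg {z : ℕ → ℝ} (hz : ∀ k, 0 < z k) (n : ℕ) : 0 ≤ PS z n :=
  Finset.sum_nonneg fun _ _ => Finset.prod_nonneg fun k _ => (hz k).le

lemma PS_mono {z : ℕ → ℝ} (hz : ∀ k, 0 < z k) : Monotone (PS z) := by
  refine monotone_nat_of_le_succ fun n => ?_
  unfold PS
  rw [Finset.sum_range_succ]
  have : 0 ≤ ∏ k ∈ Finset.range (n + 1), z k := Finset.prod_nonneg fun k _ => (hz k).le
  linarith

/-- Monotone convergence. -/
lemma mcv {g : ℕ → Ω → ℝ} {G : Ω → ℝ} {C : ℝ} (h0 : ∀ᵐ ω ∂P, ∀ n, 0 ≤ g n ω)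
    (hi : ∀ n, Integrable (g n) P) (hmono : ∀ᵐ ω ∂P, Monotone fun n => g n ω)
    (hlim : ∀ᵐ ω ∂P, Tendsto (fun n => g n ω) atTop (𝓝 (G ω))) (hC : ∀ n, ∫ ω, g n ω ∂P ≤ C) :
    Integrable G P ∧ Tendsto (fun n => ∫ ω, g n ω ∂P) atTop (𝓝 (∫ ω, G ω ∂P)) := by
  have hGm : AEStronglyMeasurable G P :=
    aestronglyMeasurable_of_tendsto_ae atTop (fun n => (hi n).aestronglyMeasurable) hlim
  have hG0 : ∀ᵐ ω ∂P, 0 ≤ G ω := by
    filter_upwards [h0, hlim] with ω h1 h2
    exact ge_of_tendsto' h2 h1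
  have hl : Tendsto (fun n => ∫⁻ ω, ENNReal.ofReal (g n ω) ∂P) atTop
      (𝓝 (∫⁻ ω, ENNReal.ofReal (G ω) ∂P)) := by
    apply lintegral_tendsto_of_tendsto_of_monotone
    · intro n
      exact (hi n).aestronglyMeasurable.aemeasurable.ennreal_ofReal
    · filter_upwards [hmono] with ω hω n m hnm
      exact ENNReal.ofReal_le_ofReal (hω hnm)
    · filter_upwards [hlim] with ω hω
      exact (ENNReal.continuous_ofReal.tendsto _).comp hω
  have hfin : ∫⁻ ω, ENNReal.ofReal (G ω) ∂P ≤ ENNReal.ofReal C := by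
    refine le_of_tendsto' hl fun n => ?_
    rw [← ofReal_integral_eq_lintegral_ofReal (hi n) (by
      filter_upwards [h0] with ω hω using hω n)]
    exact ENNReal.ofReal_le_ofReal (hC n)
  have hGi : Integrable G P := by
    refine ⟨hGm, ?_⟩
    rw [hasFiniteIntegral_iff_ofReal hG0]
    exact lt_of_le_of_lt hfin ENNReal.ofReal_lt_top
  refine ⟨hGi, ?_⟩
  exact integral_tendsto_of_tendsto_of_monotone hi hGi hmono hlim

lemma measurable_seq0 (S : Setup P Z α) : Measurable (fun ω => fun k => Z k ω) :=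
  measurable_pi_lambda _ fun k => S.meas _

lemma mo_V {s : ℝ} (hs0 : 0 ≤ s) (hs : s ≤ α) : Mo α (fun x => (1 + x) ^ s) := by
  refine ⟨cl_V hs, ?_, fun x y hx hxy => Real.rpow_le_rpow (by linarith) (by linarith) hs0,
    fun x hx => Real.rpow_nonneg (by linarith) _⟩
  apply ContinuousOn.rpow_const (by fun_prop)
  intro x hx
  left
  have : (0 : ℝ) ≤ x := hx
  linarith

/-- Almost sure convergence of the perpetuity. -/
lemma PS_tendsto (S : Setup P Z α) :
    ∀ᵐ ω ∂P, Tendsto (PS (fun k => Z k ω)) atTop (𝓝 (Xinf Z ω)) := by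
  have hP := S.prob
  have hα := S.α_pos
  have hα1 := S.hα
  obtain ⟨C, hC0, hC⟩ := S.V_bound (s := 1 / 2) (by norm_num) (by linarith)
  have hmo : Mo α (fun x => (1 + x) ^ (1 / 2 : ℝ)) := mo_V (by norm_num) (by linarith)
  have hE : ∀ n, ∫ ω, (1 + PS (fun k => Z k ω) n) ^ (1 / 2 : ℝ) ∂P ≤ C := by
    intro n
    rw [← E0_eq S hmo.cl.meas n]
    exact E0_le S hmo hC n
  have hi : ∀ n, Integrable (fun ω => (1 + PS (fun k => Z k ω) n) ^ (1 / 2 : ℝ)) P := by
    intro n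
    exact ((X0_ident S n).comp hmo.cl.meas).integrable_iff.1 (int_f0 S hmo.cl n)
  have hsup : ∫⁻ ω, ⨆ n, ENNReal.ofReal ((1 + PS (fun k => Z k ω) n) ^ (1 / 2 : ℝ)) ∂P < ⊤ := by
    rw [lintegral_iSup' (fun n => (hi n).aestronglyMeasurable.aemeasurable.ennreal_ofReal)]
    · refine lt_of_le_of_lt (iSup_le fun n => ?_) (ENNReal.ofReal_lt_top (r := C))
      rw [← ofReal_integral_eq_lintegral_ofReal (hi n) (by
        filter_upwards [S.pos_all] with ω hω
        have := PS_nonneg hω n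
        exact Real.rpow_nonneg (by linarith) _)]
      exact ENNReal.ofReal_le_ofReal (hE n)
    · filter_upwards [S.pos_all] with ω hω n m hnm
      apply ENNReal.ofReal_le_ofReal
      have h1 := PS_mono hω hnm
      have h2 := PS_nonneg hω n
      exact Real.rpow_le_rpow (by linarith) (by linarith) (by norm_num)
  have hae := ae_lt_top' (by
    exact AEMeasurable.iSup fun n => (hi n).aestronglyMeasurable.aemeasurable.ennreal_ofReal)
    hsup.ne
  filter_upwards [hae, S.pos_all] with ω h1 hω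
  have hterm : ∀ j, 0 ≤ ∏ k ∈ Finset.range (j + 1), Z k ω := fun j =>
    Finset.prod_nonneg fun k _ => (hω k).le
  set M := (⨆ n, ENNReal.ofReal ((1 + PS (fun k => Z k ω) n) ^ (1 / 2 : ℝ))).toReal with hM
  have hM0 : 0 ≤ M := ENNReal.toReal_nonneg
  have hbd : ∀ n, PS (fun k => Z k ω) n ≤ M ^ 2 := by
    intro n
    have h2 : ENNReal.ofReal ((1 + PS (fun k => Z k ω) n) ^ (1 / 2 : ℝ))
        ≤ ⨆ n, ENNReal.ofReal ((1 + PS (fun k => Z k ω) n) ^ (1 / 2 : ℝ)) :=
      le_iSup (fun n => ENNReal.ofReal ((1 + PS (fun k => Z k ω) n) ^ (1 / 2 : ℝ))) n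
    have h3 : (1 + PS (fun k => Z k ω) n) ^ (1 / 2 : ℝ) ≤ M := by
      rw [hM]
      exact (ENNReal.ofReal_le_iff_le_toReal h1.ne).1 h2
    have h4 := PS_nonneg hω n
    rw [← Real.sqrt_eq_rpow] at h3
    have h5 : 1 + PS (fun k => Z k ω) n ≤ M ^ 2 := by
      rw [← Real.sqrt_le_left hM0]
      exact h3
    linarith
  have hsum : Summable fun j => ∏ k ∈ Finset.range (j + 1), Z k ω :=
    summable_of_sum_range_le hterm hbd
  exact hsum.hasSum.tendsto_sum_nat

end

end Pool.Agent.DH97
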