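import Pool.Agent.DH97.A

/-!
Derrida-Hilhorst amplitude, part A2: expectations of functions of the perpetuity.
-/

open MeasureTheory ProbabilityTheory Filter Topology Asymptotics
open Pool.Agent.H741R4.DH

namespace Pool.Agent.DH97

noncomputable section

variable {Ω : Type*} [mΩ : MeasurableSpace Ω] {P : Measure Ω} {Z : ℕ → Ω → ℝ} {α : ℝ}

lemma PS_le_Xinf (S : Setup P Z α) : ∀ᵐ ω ∂P, ∀ n,
    0 ≤ PS (fun k => Z k ω) n ∧ PS (fun k => Z k ω) n ≤ Xinf Z ω := by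
  filter_upwards [S.pos_all, PS_tendsto S] with ω h1 h2 n
  exact ⟨PS_nonneg h1 n, (PS_mono h1).ge_of_tendsto h2 n⟩

lemma Xinf_nonneg (S : Setup P Z α) : ∀ᵐ ω ∂P, 0 ≤ Xinf Z ω := by
  filter_upwards [PS_le_Xinf S] with ω h
  exact (h 0).1.trans (h 0).2

lemma measurable_Xinf (S : Setup P Z α) : Measurable (Xinf Z) := by
  unfold Xinf
  apply Measurable.tsum
  intro j
  exact Finset.measurable_prod _ fun k _ => S.meas k

lemma f_PS_tendsto (S : Setup P Z α) {f : ℝ → ℝ} (hf : ContinuousOn f (Set.Ici 0)) :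
    ∀ᵐ ω ∂P, Tendsto (fun n => f (PS (fun k => Z k ω) n)) atTop (𝓝 (f (Xinf Z ω))) := by
  filter_upwards [PS_tendsto S, PS_le_Xinf S, Xinf_nonneg S] with ω h1 h2 h3
  refine (hf (Xinf Z ω) h3).tendsto.comp (tendsto_nhdsWithin_iff.2 ⟨h1, ?_⟩)
  exact Eventually.of_forall fun n => (h2 n).1

lemma int_PS (S : Setup P Z α) {f : ℝ → ℝ} (hf : Cl α f) (n : ℕ) :
    Integrable (fun ω => f (PS (fun k => Z k ω) n)) P :=
  ((X0_ident S n).comp hf.meas).integrable_iff.1 (int_f0 S hf n)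

/-- Limit of expectations of nice functions. -/
lemma mo_lim (S : Setup P Z α) {f : ℝ → ℝ} (hf : Mo α f) {C : ℝ}
    (hC : ∀ a, 0 < a → a ≤ 1 → Lam P Z a f ≤ C) :
    Integrable (fun ω => f (Xinf Z ω)) P ∧
      Tendsto (fun n => E P Z 0 f n) atTop (𝓝 (∫ ω, f (Xinf Z ω) ∂P)) := by
  have h := mcv (P := P) (g := fun n ω => f (PS (fun k => Z k ω) n)) (G := fun ω => f (Xinf Z ω))
    (C := C) (by
      filter_upwards [PS_le_Xinf S] with ω hω n
      exact hf.nonneg _ (hω n).1)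
    (fun n => int_PS S hf.cl n) (by
      filter_upwards [S.pos_all] with ω hω n m hnm
      exact hf.mono _ _ (PS_nonneg hω n) (PS_mono hω hnm))
    (f_PS_tendsto S hf.cont) (fun n => by
      rw [← E0_eq S hf.cl.meas n]
      exact E0_le S hf hC n)
  refine ⟨h.1, ?_⟩
  refine h.2.congr fun n => ?_
  rw [E0_eq S hf.cl.meas n]

lemma E0_le_inf (S : Setup P Z α) {f : ℝ → ℝ} (hf : Mo α f) {C : ℝ}
    (hC : ∀ a, 0 < a → a ≤ 1 → Lam P Z a f ≤ C) (n : ℕ) :
    E P Z 0 f n ≤ ∫ ω, f (Xinf Z ω) ∂P := by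
  rw [E0_eq S hf.cl.meas n]
  refine integral_mono_ae (int_PS S hf.cl n) (mo_lim S hf hC).1 ?_
  filter_upwards [PS_le_Xinf S] with ω hω
  exact hf.mono _ _ (hω n).1 (hω n).2

lemma E_le_E0 (S : Setup P Z α) {a : ℝ} (ha : 0 < a) (ha1 : a ≤ 1) {f : ℝ → ℝ} (hf : Mo α f)
    (n : ℕ) : E P Z a f n ≤ E P Z 0 f n := by
  refine integral_mono_ae (S.int_f ha ha1 hf.cl n) (int_f0 S hf.cl n) ?_
  filter_upwards [X_le_X0 S] with ω hω
  exact hf.mono _ _ (hω a ha n).1 (hω a ha n).2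

/-- `Λ_a f → E f(X)` as `a → 0`. -/
lemma Lam_lim (S : Setup P Z α) {f : ℝ → ℝ} (hf : Mo α f) {C : ℝ}
    (hC : ∀ a, 0 < a → a ≤ 1 → Lam P Z a f ≤ C) :
    Tendsto (fun a => Lam P Z a f) (𝓝[>] 0) (𝓝 (∫ ω, f (Xinf Z ω) ∂P)) := by
  have hup : ∀ a, 0 < a → a ≤ 1 → Lam P Z a f ≤ ∫ ω, f (Xinf Z ω) ∂P := by
    intro a ha ha1
    refine le_of_tendsto' (E_lim S ha ha1 hf.cl hf.mono) fun n => ?_
    exact (E_le_E0 S ha ha1 hf n).trans (E0_le_inf S hf hC n)
  rw [tendsto_order]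
  constructor
  · intro L hL
    obtain ⟨n, hn⟩ := ((mo_lim S hf hC).2.eventually_const_lt hL).exists
    filter_upwards [(E_tendsto S hf n).eventually_const_lt hn, Setup.ev_Ioc] with a h1 h2
    exact lt_of_lt_of_le h1 (E_le_Lam S h2.1 h2.2 hf.cl hf.mono n)
  · intro L hL
    filter_upwards [Setup.ev_Ioc] with a ha
    exact lt_of_le_of_lt (hup a ha.1 ha.2) hL

/-- The distributional identity `X = Z (1 + X)`. -/
lemma perp_eq (S : Setup P Z α) {f : ℝ → ℝ} (hf : Mo α f) {C : ℝ}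
    (hC : ∀ a, 0 < a → a ≤ 1 → Lam P Z a f ≤ C) :
    Integrable (fun ω => Av P Z f (1 + Xinf Z ω)) P ∧
      ∫ ω, f (Xinf Z ω) ∂P = ∫ ω, Av P Z f (1 + Xinf Z ω) ∂P := by
  have hcl := cl_Av1 S hf.cl
  have hint : ∀ v, 0 ≤ v → Integrable (fun ω => f (Z 0 ω * v)) P := fun v hv => S.int_Av hf.cl hv
  have h := mcv (P := P) (g := fun n ω => Av P Z f (1 + PS (fun k => Z k ω) n))
    (G := fun ω => Av P Z f (1 + Xinf Z ω)) (C := C) (by
      filter_upwards [PS_le_Xinf S] with ω hω n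
      exact S.Av_nonneg (by linarith [(hω n).1]) hf.nonneg)
    (fun n => int_PS S hcl n) (by
      filter_upwards [S.pos_all] with ω hω n m hnm
      have h1 := PS_nonneg hω n
      have h2 := PS_mono hω hnm
      exact S.Av_mono_v (by linarith) (by linarith) (hint _ (by linarith))
        (hint _ (by linarith)) hf.mono) (by
      filter_upwards [PS_tendsto S, PS_le_Xinf S, Xinf_nonneg S] with ω h1 h2 h3
      refine tendsto_integral_filter_of_dominated_convergence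
        (fun ω' => f (Z 0 ω' * (1 + Xinf Z ω)))
        (Eventually.of_forall fun n => (hint _ (by linarith [(h2 n).1])).aestronglyMeasurable)
        (Eventually.of_forall fun n => ?_) (hint _ (by linarith)) ?_
      · filter_upwards [S.pos] with ω' hω'
        have h4 := (h2 n).1
        have h5 : 0 ≤ Z 0 ω' * (1 + PS (fun k => Z k ω) n) := by positivity
        rw [Real.norm_eq_abs, abs_of_nonneg (hf.nonneg _ h5)]
        apply hf.mono _ _ h5
        apply mul_le_mul_of_nonneg_left _ hω'.le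
        linarith [(h2 n).2]
      · filter_upwards [S.pos] with ω' hω'
        have h5 : 0 ≤ Z 0 ω' * (1 + Xinf Z ω) := by positivity
        refine (hf.cont _ h5).tendsto.comp (tendsto_nhdsWithin_iff.2 ⟨?_, ?_⟩)
        · exact (h1.const_add 1).const_mul _
        · refine Eventually.of_forall fun n => ?_
          have h4 := (h2 n).1
          change 0 ≤ Z 0 ω' * (1 + PS (fun k => Z k ω) n)
          positivity) (fun n => by
      rw [← E0_eq S hcl.meas n, ← E0_succ S hf.cl n]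
      exact E0_le S hf hC (n + 1))
  refine ⟨h.1, ?_⟩
  have h1 := (mo_lim S hf hC).2.comp (tendsto_add_atTop_nat 1)
  have h2 : Tendsto (fun n => E P Z 0 f (n + 1)) atTop
      (𝓝 (∫ ω, Av P Z f (1 + Xinf Z ω) ∂P)) := by
    refine h.2.congr fun n => ?_
    rw [E0_succ S hf.cl n, E0_eq S hcl.meas n]
  exact tendsto_nhds_unique h1 h2

/-- Moments of order `< α`. -/
lemma int_V (S : Setup P Z α) {s : ℝ} (hs0 : 0 ≤ s) (hs : s < α) :
    Integrable (fun ω => (1 + Xinf Z ω) ^ s) P := by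
  have hP := S.prob
  rcases hs0.eq_or_lt with rfl | h
  · simp only [Real.rpow_zero]
    exact integrable_const _
  · obtain ⟨C, hC0, hC⟩ := S.V_bound h hs
    exact (mo_lim S (mo_V hs0 hs.le) hC).1

lemma int_Vn (S : Setup P Z α) {k : ℕ} (hk : (k : ℝ) < α) :
    Integrable (fun ω => (1 + Xinf Z ω) ^ k) P := by
  have := int_V S (s := k) (Nat.cast_nonneg k) hk
  simpa only [Real.rpow_natCast] using this

lemma int_of_le (S : Setup P Z α) {f : ℝ → ℝ} (hf : Measurable f) {k : ℕ} (hk : (k : ℝ) < α)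
    {C : ℝ} (h : ∀ x, 0 ≤ x → |f x| ≤ C * (1 + x) ^ k) :
    Integrable (fun ω => f (Xinf Z ω)) P := by
  refine Integrable.mono' ((int_Vn S hk).const_mul C)
    (hf.comp (measurable_Xinf S)).aestronglyMeasurable ?_
  filter_upwards [Xinf_nonneg S] with ω hω using h _ hω

lemma int_Xk (S : Setup P Z α) {k : ℕ} (hk : (k : ℝ) < α) :
    Integrable (fun ω => (Xinf Z ω) ^ k) P :=
  int_of_le S (f := fun x => x ^ k) (measurable_id.pow_const k) hk (C := 1) fun x hx => by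
    rw [one_mul, abs_of_nonneg (pow_nonneg hx _)]
    exact pow_le_pow_left₀ hx (by linarith) k

lemma mo_G (hα : 1 ≤ α) : Mo α (fun x => (1 + x) ^ α - x ^ α) := by
  have hα0 : 0 ≤ α := by linarith
  refine ⟨(cl_V le_rfl).sub (cl_pow hα0 le_rfl), ?_,
    fun x y hx hxy => Setup.V_sub_x_mono hα hx hxy,
    fun x hx => by have := one_le_V_sub_x hα hx; linarith⟩
  apply ContinuousOn.sub
  · apply ContinuousOn.rpow_const (by fun_prop)
    intro x hx
    left
    have : (0 : ℝ) ≤ x := hx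
    linarith
  · exact (continuous_id.rpow_const fun x => Or.inr hα0).continuousOn

/-- The constant `G_0`. -/
def G0 (P : Measure Ω) (Z : ℕ → Ω → ℝ) (α : ℝ) : ℝ :=
  ∫ ω, ((1 + Xinf Z ω) ^ α - (Xinf Z ω) ^ α) ∂P

lemma G_lim (S : Setup P Z α) : Tendsto (Setup.G P Z α) (𝓝[>] 0) (𝓝 (G0 P Z α)) := by
  obtain ⟨C, hC0, hC⟩ := S.G_bound
  exact Lam_lim S (mo_G S.hα) hC

lemma int_G (S : Setup P Z α) :
    Integrable (fun ω => (1 + Xinf Z ω) ^ α - (Xinf Z ω) ^ α) P := by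
  obtain ⟨C, hC0, hC⟩ := S.G_bound
  exact (mo_lim S (mo_G S.hα) hC).1

lemma one_le_G0 (S : Setup P Z α) : 1 ≤ G0 P Z α := by
  apply ge_of_tendsto (G_lim S)
  filter_upwards [Setup.ev_Ioc] with a ha using S.one_le_G ha.1 ha.2

/-- Perpetuity moments: `E X^s = E Z^s E (1 + X)^s`. -/
lemma mom_eq (S : Setup P Z α) {s : ℝ} (hs0 : 0 < s) (hs : s < α) :
    Integrable (fun ω => (Xinf Z ω) ^ s) P ∧
    ∫ ω, (Xinf Z ω) ^ s ∂P = (∫ ω, (Z 0 ω) ^ s ∂P) * ∫ ω, (1 + Xinf Z ω) ^ s ∂P := by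
  obtain ⟨C, hC0, hC⟩ := S.V_bound hs0 hs
  have hmo : Mo α (fun x => x ^ s) := by
    refine ⟨cl_pow hs0.le hs.le, (continuous_id.rpow_const fun x => Or.inr hs0.le).continuousOn,
      fun x y hx hxy => Real.rpow_le_rpow hx hxy hs0.le, fun x hx => Real.rpow_nonneg hx _⟩
  have hC' : ∀ a, 0 < a → a ≤ 1 → Lam P Z a (fun x => x ^ s) ≤ C := by
    intro a ha ha1
    refine (S.Lam_mono ha ha1 (cl_pow hs0.le hs.le) (cl_V hs.le) fun x hx => ?_).trans (hC a ha ha1)
    exact Real.rpow_le_rpow hx (by linarith) hs0.le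
  obtain ⟨h1, h2⟩ := perp_eq S hmo hC'
  refine ⟨(mo_lim S hmo hC').1, ?_⟩
  rw [h2, ← integral_const_mul]
  apply integral_congr_ae
  filter_upwards [Xinf_nonneg S] with ω hω
  unfold Av
  rw [← integral_mul_const]
  apply integral_congr_ae
  filter_upwards [S.pos] with ω' hω'
  exact Real.mul_rpow hω'.le (by linarith)

/-- `μ_k = q_k ν_k` for natural exponents. -/
lemma mom_eq_nat (S : Setup P Z α) {k : ℕ} (hk : (k : ℝ) < α) :
    ∫ ω, (Xinf Z ω) ^ k ∂P = qk P Z k * ∫ ω, (1 + Xinf Z ω) ^ k ∂P := by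
  have hP := S.prob
  rcases Nat.eq_zero_or_pos k with rfl | h
  · simp [qk]
  · have := (mom_eq S (s := k) (by exact_mod_cast h) hk).2
    simpa only [Real.rpow_natCast, qk] using this

end

end Pool.Agent.DH97
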