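import Pool.Graph.R_seed8.H741R4.DH19

/-!
Derrida-Hilhorst amplitude, part F: the function `E_m(y (1 + Y)) - E_m(y Y / (1 + y))`.
-/

open MeasureTheory ProbabilityTheory Filter Topology Asymptotics
open Pool.Agent.H741R4.DH

namespace Pool.Agent.DH97

noncomputable section

/-- The difference. -/
def FF (m : ℕ) (Y y : ℝ) : ℝ := ee m (y * (1 + Y)) - ee m (y * Y / (1 + y))

/-- The density factor. -/
def gg (m : ℕ) (Y y : ℝ) : ℝ :=
  (∑ i ∈ Finset.range (m + 1), (1 + Y) ^ i * (Y / (1 + y)) ^ (m - i)) / (1 + y)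

/-- The value at zero. -/
def g0 (m : ℕ) (Y : ℝ) : ℝ := (1 + Y) ^ (m + 1) - Y ^ (m + 1)

variable {m : ℕ} {Y y : ℝ}

lemma gg_eq (hY : 0 ≤ Y) (hy : 0 ≤ y) :
    gg m Y y = ((1 + Y) ^ (m + 1) - (Y / (1 + y)) ^ (m + 1)) / (1 + y * (1 + Y)) := by
  have h1 : 0 < 1 + y := by linarith
  have h2 : 0 < 1 + y * (1 + Y) := by positivity
  have h := geom_sum₂_mul (1 + Y) (Y / (1 + y)) (m + 1)
  have e : (1 + Y) - Y / (1 + y) = (1 + y * (1 + Y)) / (1 + y) := by
    field_simp
    ring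
  rw [e] at h
  have h3 : ∑ i ∈ Finset.range (m + 1), (1 + Y) ^ i * (Y / (1 + y)) ^ (m + 1 - 1 - i)
      = ∑ i ∈ Finset.range (m + 1), (1 + Y) ^ i * (Y / (1 + y)) ^ (m - i) := rfl
  rw [h3] at h
  unfold gg
  rw [← h]
  field_simp

lemma gg_nonneg (hY : 0 ≤ Y) (hy : 0 ≤ y) : 0 ≤ gg m Y y := by
  unfold gg
  apply div_nonneg _ (by linarith)
  exact Finset.sum_nonneg fun i _ => by positivity

lemma gg_zero : gg m Y 0 = g0 m Y := by
  have h := geom_sum₂_mul (1 + Y) Y (m + 1)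
  have h3 : ∑ i ∈ Finset.range (m + 1), (1 + Y) ^ i * Y ^ (m + 1 - 1 - i)
      = ∑ i ∈ Finset.range (m + 1), (1 + Y) ^ i * Y ^ (m - i) := rfl
  rw [h3] at h
  unfold gg g0
  rw [add_zero, div_one, ← h]
  simp

lemma gg_anti (hY : 0 ≤ Y) {x y : ℝ} (hx : 0 ≤ x) (hxy : x ≤ y) : gg m Y y ≤ gg m Y x := by
  unfold gg
  have hy := hx.trans hxy
  have h1 : ∑ i ∈ Finset.range (m + 1), (1 + Y) ^ i * (Y / (1 + y)) ^ (m - i)
      ≤ ∑ i ∈ Finset.range (m + 1), (1 + Y) ^ i * (Y / (1 + x)) ^ (m - i) := by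
    apply Finset.sum_le_sum
    intro i _
    apply mul_le_mul_of_nonneg_left _ (by positivity)
    apply pow_le_pow_left₀ (by positivity)
    exact div_le_div_of_nonneg_left hY (by linarith) (by linarith)
  exact div_le_div₀ (Finset.sum_nonneg fun i _ => by positivity) h1 (by linarith) (by linarith)

lemma g0_nonneg (hY : 0 ≤ Y) : 0 ≤ g0 m Y := by
  rw [← gg_zero]; exact gg_nonneg hY le_rfl

lemma gg_le (hY : 0 ≤ Y) (hy : 0 ≤ y) : gg m Y y ≤ g0 m Y * (1 / (1 + y)) := by
  rw [← gg_zero]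
  unfold gg
  rw [add_zero, div_one, mul_one_div]
  apply div_le_div_of_nonneg_right _ (by linarith)
  apply Finset.sum_le_sum
  intro i _
  apply mul_le_mul_of_nonneg_left _ (by positivity)
  apply pow_le_pow_left₀ (by positivity)
  rw [div_one]
  exact div_le_self hY (by linarith)

lemma gg_ge (hY : 0 ≤ Y) (hy : 0 ≤ y) : g0 m Y * (1 - ((m : ℝ) + 1) * (y / (1 + y)))
    ≤ gg m Y y := by
  have h1 : 0 < 1 + y := by linarith
  have hb : 1 - ((m : ℝ) + 1) * (y / (1 + y)) ≤ (1 / (1 + y)) ^ (m + 1) := by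
    have h := one_add_mul_le_pow (a := -(y / (1 + y)))
      (by have : y / (1 + y) ≤ 1 := by rw [div_le_one h1]; linarith
          linarith) (m + 1)
    have e : 1 + -(y / (1 + y)) = 1 / (1 + y) := by field_simp; ring
    rw [e] at h
    push_cast at h
    linarith
  refine (mul_le_mul_of_nonneg_left hb (g0_nonneg hY)).trans ?_
  rw [← gg_zero]
  unfold gg
  rw [add_zero, div_one, Finset.sum_mul, Finset.sum_div]
  apply Finset.sum_le_sum
  intro i hi
  have hi' := Finset.mem_range.1 hi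
  rw [div_one, div_pow Y (1 + y), mul_assoc, mul_div_assoc]
  apply mul_le_mul_of_nonneg_left _ (by positivity)
  rw [div_pow, one_pow, mul_one_div, div_div, ← pow_succ]
  apply div_le_div_of_nonneg_left (by positivity) (by positivity)
  exact pow_le_pow_right₀ (by linarith) (by omega)

lemma hasDerivAt_FF (hY : 0 ≤ Y) (hy : 0 ≤ y) : HasDerivAt (FF m Y) (y ^ m * gg m Y y) y := by
  have h1 : 0 < 1 + y := by linarith
  have h2 : 0 < 1 + y * (1 + Y) := by positivity
  have ht : 0 ≤ y * (1 + Y) := by positivity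
  have hu : 0 ≤ y * Y / (1 + y) := by positivity
  have d1 : HasDerivAt (fun y : ℝ => y * (1 + Y)) (1 + Y) y := by
    simpa using (hasDerivAt_id y).mul_const (1 + Y)
  have d2 : HasDerivAt (fun y : ℝ => y * Y / (1 + y)) (Y / (1 + y) ^ 2) y := by
    have h := ((hasDerivAt_id y).mul_const Y).div ((hasDerivAt_id y).const_add 1) h1.ne'
    refine h.congr_deriv ?_
    simp only [id]
    congr 1
    ring
  have e1 := (hasDerivAt_ee (m := m) ht).comp y d1
  have e2 := (hasDerivAt_ee (m := m) hu).comp y d2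
  refine (e1.sub e2).congr_deriv ?_
  rw [gg_eq hY hy]
  have h3 : 1 + y * Y / (1 + y) = (1 + y * (1 + Y)) / (1 + y) := by field_simp; ring
  rw [h3, mul_pow, div_pow, div_pow, mul_pow, pow_succ (1 + Y), pow_succ Y, pow_succ (1 + y)]
  field_simp
  ring

lemma FF_zero : FF m Y 0 = 0 := by unfold FF; simp [ee_zero]

lemma FF_mono (hY : 0 ≤ Y) {x y : ℝ} (hx : 0 ≤ x) (hxy : x ≤ y) : FF m Y x ≤ FF m Y y :=
  mono_of_deriv (fun x hx => hasDerivAt_FF hY hx)
    (fun x hx => mul_nonneg (by positivity) (gg_nonneg hY hx)) hx hxy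

lemma FF_nonneg (hY : 0 ≤ Y) (hy : 0 ≤ y) : 0 ≤ FF m Y y := by
  have := FF_mono (m := m) hY le_rfl hy
  rwa [FF_zero] at this

lemma FF_scale (hY : 0 ≤ Y) {l y : ℝ} (hl : 1 ≤ l) (hy : 0 ≤ y) :
    FF m Y (l * y) ≤ l ^ (m + 1) * FF m Y y := by
  have hl0 : 0 ≤ l := by linarith
  have h := mono_of_deriv (F := fun y => l ^ (m + 1) * FF m Y y - FF m Y (l * y))
    (F' := fun y => l ^ (m + 1) * (y ^ m * gg m Y y) - (l * y) ^ m * gg m Y (l * y) * l)
    (fun x hx => by
      have h1 := (hasDerivAt_FF (m := m) hY hx).const_mul (l ^ (m + 1))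
      have h2 : HasDerivAt (fun y : ℝ => l * y) l x := by
        simpa using (hasDerivAt_id x).const_mul l
      have h3 := (hasDerivAt_FF (m := m) (y := l * x) hY (by positivity)).comp x h2
      exact h1.sub h3)
    (fun x hx => by
      have e : l ^ (m + 1) * (x ^ m * gg m Y x) - (l * x) ^ m * gg m Y (l * x) * l
          = l ^ (m + 1) * x ^ m * (gg m Y x - gg m Y (l * x)) := by
        rw [mul_pow, pow_succ]; ring
      rw [e]
      have : gg m Y (l * x) ≤ gg m Y x := gg_anti hY hx (by nlinarith)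
      have h0 : 0 ≤ l ^ (m + 1) * x ^ m := by positivity
      exact mul_nonneg h0 (by linarith))
    (le_refl (0 : ℝ)) hy
  simp only [mul_zero, FF_zero, sub_zero] at h
  linarith

lemma FF_le (hY : 0 ≤ Y) (hy : 0 ≤ y) : FF m Y y ≤ g0 m Y * ee m y := by
  have h := mono_of_deriv (F := fun y => g0 m Y * ee m y - FF m Y y)
    (F' := fun y => g0 m Y * (y ^ m / (1 + y)) - y ^ m * gg m Y y)
    (fun x hx => ((hasDerivAt_ee (m := m) hx).const_mul _).sub (hasDerivAt_FF hY hx))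
    (fun x hx => by
      have h1 := mul_le_mul_of_nonneg_left (gg_le (m := m) hY hx) (by positivity : 0 ≤ x ^ m)
      have e : g0 m Y * (x ^ m / (1 + x)) = x ^ m * (g0 m Y * (1 / (1 + x))) := by ring
      rw [e]
      linarith)
    (le_refl (0 : ℝ)) hy
  simp only [ee_zero, FF_zero, mul_zero, sub_zero] at h
  linarith

lemma FF_le_pow (hY : 0 ≤ Y) (hy : 0 ≤ y) :
    FF m Y y ≤ g0 m Y * (y ^ (m + 1) / ((m : ℝ) + 1)) := by
  have h := mono_of_deriv (F := fun y => g0 m Y * (y ^ (m + 1) / ((m : ℝ) + 1)) - FF m Y y)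
    (F' := fun y => g0 m Y * y ^ m - y ^ m * gg m Y y)
    (fun x hx => by
      have h1 : HasDerivAt (fun y : ℝ => g0 m Y * (y ^ (m + 1) / ((m : ℝ) + 1)))
          (g0 m Y * x ^ m) x := by
        have h := (((hasDerivAt_id x).pow (m + 1)).div_const ((m : ℝ) + 1)).const_mul (g0 m Y)
        refine h.congr_deriv ?_
        simp only [id, Nat.cast_add, Nat.cast_one, Nat.add_sub_cancel]
        field_simp
      exact h1.sub (hasDerivAt_FF hY hx))
    (fun x hx => by
      have h1 := gg_anti (m := m) hY le_rfl hx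
      rw [gg_zero] at h1
      have h2 := mul_le_mul_of_nonneg_left h1 (by positivity : 0 ≤ x ^ m)
      linarith)
    (le_refl (0 : ℝ)) hy
  simp only [FF_zero, sub_zero] at h
  rw [zero_pow (Nat.succ_ne_zero m), zero_div, mul_zero] at h
  linarith

lemma FF_ge_pow (hY : 0 ≤ Y) (hy : 0 ≤ y) :
    g0 m Y * (y ^ (m + 1) / ((m : ℝ) + 1)) - ((m : ℝ) + 1) * g0 m Y * (y ^ (m + 2) / (1 + y))
      ≤ FF m Y y := by
  have h := mono_of_deriv (F := fun y => FF m Y y - g0 m Y * (y ^ (m + 1) / ((m : ℝ) + 1))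
      + ((m : ℝ) + 1) * g0 m Y * ee (m + 1) y)
    (F' := fun y => y ^ m * gg m Y y - g0 m Y * y ^ m
      + ((m : ℝ) + 1) * g0 m Y * (y ^ (m + 1) / (1 + y)))
    (fun x hx => by
      have h1 : HasDerivAt (fun y : ℝ => g0 m Y * (y ^ (m + 1) / ((m : ℝ) + 1)))
          (g0 m Y * x ^ m) x := by
        have h := (((hasDerivAt_id x).pow (m + 1)).div_const ((m : ℝ) + 1)).const_mul (g0 m Y)
        refine h.congr_deriv ?_
        simp only [id, Nat.cast_add, Nat.cast_one, Nat.add_sub_cancel]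
        field_simp
      exact ((hasDerivAt_FF hY hx).sub h1).add ((hasDerivAt_ee (m := m + 1) hx).const_mul _))
    (fun x hx => by
      have h1 := mul_le_mul_of_nonneg_left (gg_ge (m := m) hY hx) (by positivity : 0 ≤ x ^ m)
      have e : x ^ m * (g0 m Y * (1 - ((m : ℝ) + 1) * (x / (1 + x))))
          = g0 m Y * x ^ m - ((m : ℝ) + 1) * g0 m Y * (x ^ (m + 1) / (1 + x)) := by
        rw [pow_succ]; ring
      rw [e] at h1
      linarith)
    (le_refl (0 : ℝ)) hy
  simp only [FF_zero, ee_zero] at h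
  rw [zero_pow (Nat.succ_ne_zero m), zero_div, mul_zero, mul_zero] at h
  have h2 : ee (m + 1) y ≤ y ^ (m + 2) / (1 + y) := by
    refine le_trans ?_ (logE_le (m + 1) (by omega) hy)
    unfold ee
    calc (-1 : ℝ) ^ (m + 1) * logE (m + 1) y ≤ |(-1 : ℝ) ^ (m + 1) * logE (m + 1) y| :=
          le_abs_self _
      _ = |logE (m + 1) y| := by rw [abs_mul, abs_pow, abs_neg, abs_one, one_pow, one_mul]
  have h3 := mul_le_mul_of_nonneg_left h2
    (mul_nonneg (by positivity : (0 : ℝ) ≤ (m : ℝ) + 1) (g0_nonneg (m := m) hY))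
  linarith

lemma FF_log (hY : 0 ≤ Y) (hy : 0 ≤ y) :
    Real.log (1 + y) = ∑ k ∈ Finset.range m, (-1) ^ k / ((k : ℝ) + 1)
        * (y ^ (k + 1) * (1 + Y) ^ (k + 1) - (y / (1 + y)) ^ (k + 1) * Y ^ (k + 1))
      + (-1) ^ m * FF m Y y := by
  have h1 : 0 < 1 + y := by linarith
  have h2 : 0 < 1 + y * (1 + Y) := by positivity
  have hu : 0 < 1 + y * Y / (1 + y) := by positivity
  have hlog : Real.log (1 + y * (1 + Y)) = Real.log (1 + y * Y / (1 + y)) + Real.log (1 + y) := by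
    rw [← Real.log_mul hu.ne' h1.ne']
    congr 1
    field_simp
    ring
  have e : (-1 : ℝ) ^ m * FF m Y y = logE m (y * (1 + Y)) - logE m (y * Y / (1 + y)) := by
    unfold FF ee
    rw [mul_sub, ← mul_assoc, ← mul_assoc, ← mul_pow]
    norm_num
  rw [e]
  unfold logE
  rw [hlog]
  have e2 : ∑ k ∈ Finset.range m, (-1 : ℝ) ^ k / ((k : ℝ) + 1)
        * (y ^ (k + 1) * (1 + Y) ^ (k + 1) - (y / (1 + y)) ^ (k + 1) * Y ^ (k + 1))
      = - ∑ k ∈ Finset.range m, (-(y * (1 + Y))) ^ (k + 1) / ((k : ℝ) + 1)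
        + ∑ k ∈ Finset.range m, (-(y * Y / (1 + y))) ^ (k + 1) / ((k : ℝ) + 1) := by
    rw [← Finset.sum_neg_distrib, ← Finset.sum_add_distrib]
    apply Finset.sum_congr rfl
    intro k _
    have a1 : (-(y * (1 + Y))) ^ (k + 1) = (-1) ^ (k + 1) * (y ^ (k + 1) * (1 + Y) ^ (k + 1)) := by
      rw [neg_pow, mul_pow]
    have a2 : (-(y * Y / (1 + y))) ^ (k + 1)
        = (-1) ^ (k + 1) * ((y / (1 + y)) ^ (k + 1) * Y ^ (k + 1)) := by
      rw [neg_pow, ← mul_pow]; congr 2; ring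
    rw [a1, a2, pow_succ (-1 : ℝ) k]
    ring
  rw [e2]
  ring

lemma measurable_ee (m : ℕ) : Measurable (ee m) := by
  unfold ee logE
  apply Measurable.const_mul
  apply Measurable.add
  · exact Real.measurable_log.comp (measurable_const.add measurable_id)
  · apply Finset.measurable_sum
    intro k _
    exact (measurable_id.neg.pow_const _).div_const _

lemma measurable_FF (m : ℕ) : Measurable (fun q : ℝ × ℝ => FF m q.2 q.1) := by
  unfold FF
  apply Measurable.sub
  · exact (measurable_ee m).comp (measurable_fst.mul (measurable_const.add measurable_snd))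
  · exact (measurable_ee m).comp ((measurable_fst.mul measurable_snd).div
      (measurable_const.add measurable_fst))

end

end Pool.Agent.DH97
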