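import Pool.Agent.DH97.A2
import Pool.Agent.DH97.F

/-!
Derrida-Hilhorst amplitude, part B: the exact singular test function `ψ`.
-/

open MeasureTheory ProbabilityTheory Filter Topology Asymptotics
open Pool.Agent.H741R4.DH

namespace Pool.Agent.DH97

noncomputable section

variable {Ω : Type*} [mΩ : MeasurableSpace Ω] {P : Measure Ω} {Z : ℕ → Ω → ℝ} {α : ℝ} {m : ℕ}

/-- `ψ(y) = E[E_m(y (1 + X)) - E_m(y X / (1 + y))]`. -/
def psi (P : Measure Ω) (Z : ℕ → Ω → ℝ) (m : ℕ) (y : ℝ) : ℝ := ∫ ω, FF m (Xinf Z ω) y ∂P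

/-- `E[(1 + X)^(m+1) - X^(m+1)]`. -/
def gE (P : Measure Ω) (Z : ℕ → Ω → ℝ) (m : ℕ) : ℝ := ∫ ω, g0 m (Xinf Z ω) ∂P

lemma g0_le {Y : ℝ} (hY : 0 ≤ Y) : |g0 m Y| ≤ ((m : ℝ) + 1) * (1 + Y) ^ m := by
  rw [abs_of_nonneg (g0_nonneg hY)]
  have h := V_sub_x_le (α := ((m + 1 : ℕ) : ℝ)) (by push_cast; linarith [(Nat.cast_nonneg m : (0:ℝ) ≤ m)]) hY
  have e4 : ((m + 1 : ℕ) : ℝ) - 1 = (m : ℝ) := by push_cast; ring
  rw [e4] at h
  simp only [Real.rpow_natCast] at h
  unfold g0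
  push_cast at h
  exact h

lemma measurable_g0 (m : ℕ) : Measurable (g0 m) := by
  unfold g0
  exact ((measurable_const.add measurable_id).pow_const _).sub (measurable_id.pow_const _)

lemma int_g0 (S : Setup P Z α) (hm : (m : ℝ) < α) : Integrable (fun ω => g0 m (Xinf Z ω)) P :=
  int_of_le S (measurable_g0 m) hm (C := (m : ℝ) + 1) fun _ hx => g0_le hx

lemma gE_nonneg (S : Setup P Z α) : 0 ≤ gE P Z m := by
  apply integral_nonneg_of_ae
  filter_upwards [Xinf_nonneg S] with ω hω using g0_nonneg hω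

lemma measFF (S : Setup P Z α) (y : ℝ) : Measurable (fun ω => FF m (Xinf Z ω) y) :=
  (measurable_FF m).comp (measurable_const.prodMk (measurable_Xinf S))

lemma ee_nonneg' {y : ℝ} (hy : 0 ≤ y) : 0 ≤ ee m y := ee_nonneg hy

lemma int_FF (S : Setup P Z α) (hm : (m : ℝ) < α) {y : ℝ} (hy : 0 ≤ y) :
    Integrable (fun ω => FF m (Xinf Z ω) y) P := by
  refine Integrable.mono' ((int_g0 S hm).mul_const (ee m y)) (measFF S y).aestronglyMeasurable ?_
  filter_upwards [Xinf_nonneg S] with ω hω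
  rw [Real.norm_eq_abs, abs_of_nonneg (FF_nonneg hω hy)]
  exact FF_le hω hy

lemma measurable_psi (S : Setup P Z α) : Measurable (psi P Z m) := by
  have hprob := S.prob
  have h : Measurable (fun q : ℝ × Ω => FF m (Xinf Z q.2) q.1) :=
    (measurable_FF m).comp (measurable_fst.prodMk ((measurable_Xinf S).comp measurable_snd))
  exact (h.stronglyMeasurable.integral_prod_right' (ν := P)).measurable

lemma psi_nonneg (S : Setup P Z α) {y : ℝ} (hy : 0 ≤ y) : 0 ≤ psi P Z m y := by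
  apply integral_nonneg_of_ae
  filter_upwards [Xinf_nonneg S] with ω hω using FF_nonneg hω hy

lemma psi_le (S : Setup P Z α) (hm : (m : ℝ) < α) {y : ℝ} (hy : 0 ≤ y) :
    psi P Z m y ≤ gE P Z m * ee m y := by
  unfold psi gE
  rw [← integral_mul_const]
  refine integral_mono_ae (int_FF S hm hy) ((int_g0 S hm).mul_const _) ?_
  filter_upwards [Xinf_nonneg S] with ω hω using FF_le hω hy

lemma psi_mono (S : Setup P Z α) (hm : (m : ℝ) < α) {x y : ℝ} (hx : 0 ≤ x) (hxy : x ≤ y) :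
    psi P Z m x ≤ psi P Z m y := by
  refine integral_mono_ae (int_FF S hm hx) (int_FF S hm (hx.trans hxy)) ?_
  filter_upwards [Xinf_nonneg S] with ω hω using FF_mono hω hx hxy

lemma psi_scale (S : Setup P Z α) (hm : (m : ℝ) < α) {l y : ℝ} (hl : 1 ≤ l) (hy : 0 ≤ y) :
    psi P Z m (l * y) ≤ l ^ (m + 1) * psi P Z m y := by
  unfold psi
  rw [← integral_const_mul]
  refine integral_mono_ae (int_FF S hm (by positivity)) ((int_FF S hm hy).const_mul _) ?_
  filter_upwards [Xinf_nonneg S] with ω hω using FF_scale hω hl hy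

lemma psi_upper (S : Setup P Z α) (hm : (m : ℝ) < α) {y : ℝ} (hy : 0 ≤ y) :
    psi P Z m y ≤ gE P Z m * (y ^ (m + 1) / ((m : ℝ) + 1)) := by
  unfold psi gE
  rw [← integral_mul_const]
  refine integral_mono_ae (int_FF S hm hy) ((int_g0 S hm).mul_const _) ?_
  filter_upwards [Xinf_nonneg S] with ω hω using FF_le_pow hω hy

lemma psi_lower (S : Setup P Z α) (hm : (m : ℝ) < α) {y : ℝ} (hy : 0 ≤ y) :
    gE P Z m * (y ^ (m + 1) / ((m : ℝ) + 1))
      - ((m : ℝ) + 1) * gE P Z m * (y ^ (m + 2) / (1 + y)) ≤ psi P Z m y := by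
  have h1 := (int_g0 (m := m) S hm).mul_const (y ^ (m + 1) / ((m : ℝ) + 1))
  have h2 := ((int_g0 (m := m) S hm).const_mul ((m : ℝ) + 1)).mul_const (y ^ (m + 2) / (1 + y))
  have h : ∫ ω, (g0 m (Xinf Z ω) * (y ^ (m + 1) / ((m : ℝ) + 1))
      - ((m : ℝ) + 1) * g0 m (Xinf Z ω) * (y ^ (m + 2) / (1 + y))) ∂P ≤ psi P Z m y := by
    refine integral_mono_ae (h1.sub h2) (int_FF S hm hy) ?_
    filter_upwards [Xinf_nonneg S] with ω hω using FF_ge_pow hω hy
  rw [integral_sub h1 h2, integral_mul_const, integral_mul_const, integral_const_mul] at h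
  exact h

lemma NN_psi (S : Setup P Z α) (hm1 : 1 ≤ m) (hm : (m : ℝ) < α) : NN m (psi P Z m) := by
  refine ⟨measurable_psi S, fun y hy => psi_nonneg S hy, ⟨gE P Z m, gE_nonneg S, fun y hy => ?_⟩,
    fun x y hx hxy => psi_mono S hm hx hxy, fun l y hl hy => psi_scale S hm hl hy⟩
  refine (psi_le S hm hy).trans (mul_le_mul_of_nonneg_left ?_ (gE_nonneg S))
  refine le_trans ?_ (logE_le m hm1 hy)
  unfold ee
  calc (-1 : ℝ) ^ m * logE m y ≤ |(-1 : ℝ) ^ m * logE m y| := le_abs_self _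
      _ = |logE m y| := by rw [abs_mul, abs_pow, abs_neg, abs_one, one_pow, one_mul]

lemma cl_ee (S : Setup P Z α) (hm : (m : ℝ) < α) {a : ℝ} (ha : 0 < a) :
    Cl α (fun x => ee m (a * x)) := by
  rcases Nat.eq_zero_or_pos m with rfl | h
  · have h := cl_log (α := α) ha S.hα
    have e : (fun x => ee 0 (a * x)) = fun x => Real.log (1 + a * x) := by
      funext x; unfold ee logE; simp
    rw [e]; exact h
  · exact (NN.ee h).cl hm.le ha

lemma cl_psi (S : Setup P Z α) (hm : (m : ℝ) < α) {a : ℝ} (ha : 0 < a) :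
    Cl α (fun x => psi P Z m (a * x)) := by
  refine ((cl_ee S hm ha).const_mul (gE P Z m)).of_le
    ((measurable_psi S).comp (measurable_const.mul measurable_id)) fun x hx => ?_
  rw [abs_of_nonneg (psi_nonneg S (by positivity))]
  exact psi_le S hm (by positivity)

/-- `ν_k = E (1 + X)^k`. -/
def nu (P : Measure Ω) (Z : ℕ → Ω → ℝ) (k : ℕ) : ℝ := ∫ ω, (1 + Xinf Z ω) ^ k ∂P

lemma log_eq (S : Setup P Z α) (hm : (m : ℝ) < α) {y : ℝ} (hy : 0 ≤ y) :
    Real.log (1 + y) = ∑ k ∈ Finset.range m, (-1) ^ k / ((k : ℝ) + 1) * nu P Z (k + 1)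
        * (y ^ (k + 1) - qk P Z (k + 1) * (y / (1 + y)) ^ (k + 1))
      + (-1) ^ m * psi P Z m y := by
  have hP := S.prob
  have hk : ∀ k ∈ Finset.range m, ((k + 1 : ℕ) : ℝ) < α := by
    intro k hk
    have := Finset.mem_range.1 hk
    exact lt_of_le_of_lt (by exact_mod_cast (by omega : k + 1 ≤ m)) hm
  have hterm : ∀ k ∈ Finset.range m, Integrable (fun ω => (-1 : ℝ) ^ k / ((k : ℝ) + 1)
      * (y ^ (k + 1) * (1 + Xinf Z ω) ^ (k + 1)
        - (y / (1 + y)) ^ (k + 1) * (Xinf Z ω) ^ (k + 1))) P := by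
    intro k hkm
    exact (((int_Vn S (hk k hkm)).const_mul _).sub ((int_Xk S (hk k hkm)).const_mul _)).const_mul _
  have h1 : ∫ _ω : Ω, Real.log (1 + y) ∂P
      = ∫ ω, (∑ k ∈ Finset.range m, (-1 : ℝ) ^ k / ((k : ℝ) + 1)
        * (y ^ (k + 1) * (1 + Xinf Z ω) ^ (k + 1)
          - (y / (1 + y)) ^ (k + 1) * (Xinf Z ω) ^ (k + 1))
        + (-1) ^ m * FF m (Xinf Z ω) y) ∂P := by
    apply integral_congr_ae
    filter_upwards [Xinf_nonneg S] with ω hω using FF_log hω hy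
  rw [integral_const, probReal_univ, one_smul,
    integral_add (integrable_finset_sum _ hterm) ((int_FF S hm hy).const_mul _),
    integral_finset_sum _ hterm, integral_const_mul] at h1
  rw [h1]
  unfold psi
  congr 1
  apply Finset.sum_congr rfl
  intro k hkm
  rw [integral_const_mul, integral_sub ((int_Vn S (hk k hkm)).const_mul _)
    ((int_Xk S (hk k hkm)).const_mul _), integral_const_mul, integral_const_mul,
    mom_eq_nat S (hk k hkm)]
  unfold nu
  ring

lemma cl_kap (S : Setup P Z α) {a : ℝ} (ha : 0 < a) (k : ℕ) :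
    Cl α (fun x => (kap a x) ^ k) := by
  refine (Cl.const S.α_pos.le 1).of_le ((measurable_kap a).pow_const k) fun x hx => ?_
  rw [abs_of_nonneg (pow_nonneg (kap_nonneg ha hx) _)]
  exact pow_le_one₀ (kap_nonneg ha hx) (kap_le_one ha hx)

/-- The polynomial part. -/
def Pol (P : Measure Ω) (Z : ℕ → Ω → ℝ) (k : ℕ) (a : ℝ) : ℝ :=
  a ^ k * Lam P Z a (fun x => (W a x) ^ k) - Lam P Z a (fun x => (kap a x) ^ k)

/-- The exact representation of the Lyapunov exponent. -/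
lemma L_rep (S : Setup P Z α) (hm : (m : ℝ) < α) {a : ℝ} (ha : 0 < a) (ha1 : a ≤ 1) :
    Lf P Z a = ∑ k ∈ Finset.range m, (-1) ^ k / ((k : ℝ) + 1) * nu P Z (k + 1)
        * (qk P Z (k + 1) * Pol P Z (k + 1) a)
      + (-1) ^ m * Lam P Z a (fun x => psi P Z m (a * x)) := by
  have hk : ∀ k ∈ Finset.range m, ((k + 1 : ℕ) : ℝ) ≤ α := by
    intro k hk
    have := Finset.mem_range.1 hk
    exact (lt_of_le_of_lt (by exact_mod_cast (by omega : k + 1 ≤ m)) hm).le
  have hcl : ∀ k ∈ Finset.range m, Cl α (fun x : ℝ => (-1) ^ k / ((k : ℝ) + 1) * nu P Z (k + 1)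
        * (a ^ (k + 1) * x ^ (k + 1) - qk P Z (k + 1) * (kap a x) ^ (k + 1))) := by
    intro k hkm
    exact ((((cl_npow (hk k hkm)).const_mul _)).sub
      ((cl_kap S ha (k + 1)).const_mul _)).const_mul _
  have h1 : Lf P Z a = Lam P Z a (fun x => ∑ k ∈ Finset.range m, (-1) ^ k / ((k : ℝ) + 1)
        * nu P Z (k + 1) * (a ^ (k + 1) * x ^ (k + 1) - qk P Z (k + 1) * (kap a x) ^ (k + 1))
      + (-1) ^ m * psi P Z m (a * x)) := by
    unfold Lf
    apply S.Lam_congr ha ha1 (cl_log ha S.hα)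
      ((cl_sum S.α_pos.le _ hcl).add ((cl_psi S hm ha).const_mul _))
    intro x hx
    have h := log_eq (m := m) S hm (y := a * x) (by positivity)
    rw [h]
    congr 1
    apply Finset.sum_congr rfl
    intro k _
    rw [mul_pow]
    rfl
  rw [h1, S.Lam_add ha ha1 (cl_sum S.α_pos.le _ hcl) ((cl_psi S hm ha).const_mul _),
    S.Lam_const_mul ha ha1 (cl_psi S hm ha), S.Lam_sum ha ha1 _ hcl]
  congr 1
  apply Finset.sum_congr rfl
  intro k hkm
  have c1 : Cl α (fun x : ℝ => x ^ (k + 1)) := cl_npow (hk k hkm)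
  have c2 := cl_kap (α := α) S ha (k + 1)
  rw [S.Lam_const_mul ha ha1 ((c1.const_mul _).sub (c2.const_mul _)),
    S.Lam_sub ha ha1 (c1.const_mul _) (c2.const_mul _), S.Lam_const_mul ha ha1 c1,
    S.Lam_const_mul ha ha1 c2]
  have h2 := S.Mk_eq ha ha1 (hk k hkm)
  unfold Mk at h2
  rw [h2]
  unfold Pol
  ring

end

end Pool.Agent.DH97
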