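import Pool.Agent.DH97.P

/-!
Derrida-Hilhorst amplitude, part I: integer exponent.
-/

open MeasureTheory ProbabilityTheory Filter Topology Asymptotics
open Pool.Agent.H741R4.DH

namespace Pool.Agent.DH97

noncomputable section

variable {Ω : Type*} [mΩ : MeasurableSpace Ω] {P : Measure Ω} {Z : ℕ → Ω → ℝ} {α : ℝ} {m p : ℕ}

lemma gE_eq (P : Measure Ω) (Z : ℕ → Ω → ℝ) (m : ℕ) : gE P Z m = G0 P Z ((m + 1 : ℕ) : ℝ) := by
  unfold gE G0 g0
  simp only [Real.rpow_natCast]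

/-- The growth of `M_p`. -/
lemma Mp_lim (S : Setup P Z (p : ℝ)) :
    Tendsto (fun a => Mk P Z p a / Real.log (1 / a)) (𝓝[>] 0)
      (𝓝 (G0 P Z (p : ℝ) / mm P Z (p : ℝ))) := by
  by_cases hlog : Integrable (fun ω => (Z 0 ω) ^ (p : ℝ) * Real.log (Z 0 ω)) P
  · have h := (S.Mf_growth hlog).add ((G_lim S).div_const (mm P Z (p : ℝ)))
    rw [zero_add] at h
    refine h.congr fun a => ?_
    rw [Setup.Mk_p]
    ring
  · have h0 : mm P Z (p : ℝ) = 0 := integral_undef hlog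
    rw [h0, div_zero]
    refine (S.Mf_growth_inf hlog).congr fun a => ?_
    rw [Setup.Mk_p]

lemma cl_pk (hm : ((m + 1 : ℕ) : ℝ) ≤ α) {a : ℝ} (ha : 0 < a) :
    Cl α (fun x => (a * x) ^ (m + 1)) := by
  refine ((cl_nV hm).const_mul (a ^ (m + 1))).of_le
    ((measurable_const.mul measurable_id).pow_const _) fun x hx => ?_
  rw [abs_of_nonneg (by positivity), mul_pow]
  exact mul_le_mul_of_nonneg_left (pow_le_pow_left₀ hx (by linarith) _) (by positivity)

/-- The singular part for integer exponent. -/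
lemma sing_int (S : Setup P Z ((m + 1 : ℕ) : ℝ)) :
    (fun a => Lam P Z a (fun x => psi P Z m (a * x))
      - gE P Z m / ((m : ℝ) + 1) * (a ^ (m + 1) * Mk P Z (m + 1) a))
      =O[𝓝[>] 0] (fun a : ℝ => a ^ (m + 1)) := by
  have hm : (m : ℝ) < ((m + 1 : ℕ) : ℝ) := by push_cast; linarith
  obtain ⟨C, hC0, hC⟩ := S.Vkap_nat
  have hgE := gE_nonneg (m := m) S
  refine IsBigO.of_bound (((m : ℝ) + 1) * gE P Z m * C) ?_
  filter_upwards [Setup.ev_Ioc] with a ha
  have ha0 := ha.1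
  have c1 := cl_psi (m := m) S hm ha.1
  have c2 : Cl ((m + 1 : ℕ) : ℝ) (fun x : ℝ => x ^ (m + 1)) := cl_npow le_rfl
  have c3 : Cl ((m + 1 : ℕ) : ℝ) (fun x : ℝ => (1 + x) ^ (m + 1) * kap a x) := cl_nVkap ha.1 le_rfl
  have e : Lam P Z a (fun x => psi P Z m (a * x))
      - gE P Z m / ((m : ℝ) + 1) * (a ^ (m + 1) * Mk P Z (m + 1) a)
      = Lam P Z a (fun x => psi P Z m (a * x)
        - (gE P Z m / ((m : ℝ) + 1) * a ^ (m + 1)) * x ^ (m + 1)) := by
    rw [S.Lam_sub ha.1 ha.2 c1 (c2.const_mul _), S.Lam_const_mul ha.1 ha.2 c2]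
    unfold Mk
    ring
  rw [e, Real.norm_eq_abs, Real.norm_eq_abs, abs_of_nonneg (by positivity : 0 ≤ a ^ (m + 1))]
  have h1 := S.Lam_abs_le ha.1 ha.2 (c1.sub (c2.const_mul _))
    (c3.const_mul (((m : ℝ) + 1) * gE P Z m * a ^ (m + 1))) (fun x hx => by
      have hax : 0 ≤ a * x := by positivity
      have h1 := psi_upper (m := m) S hm hax
      have h2 := psi_lower (m := m) S hm hax
      have e1 : gE P Z m / ((m : ℝ) + 1) * a ^ (m + 1) * x ^ (m + 1)
          = gE P Z m * ((a * x) ^ (m + 1) / ((m : ℝ) + 1)) := by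
        rw [mul_pow]; ring
      have e2 : (a * x) ^ (m + 2) / (1 + a * x) = a ^ (m + 1) * (x ^ (m + 1) * kap a x) := by
        unfold kap
        rw [pow_succ, mul_pow]
        ring
      rw [e1]
      rw [e2] at h2
      have hkap := kap_nonneg ha0 hx
      have h3 : ((m : ℝ) + 1) * gE P Z m * (a ^ (m + 1) * (x ^ (m + 1) * kap a x))
          ≤ ((m : ℝ) + 1) * gE P Z m * a ^ (m + 1) * ((1 + x) ^ (m + 1) * kap a x) := by
        rw [← mul_assoc]
        apply mul_le_mul_of_nonneg_left _ (by positivity)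
        exact mul_le_mul_of_nonneg_right (pow_le_pow_left₀ hx (by linarith) _) hkap
      have h4 : 0 ≤ ((m : ℝ) + 1) * gE P Z m * a ^ (m + 1) * ((1 + x) ^ (m + 1) * kap a x) := by
        positivity
      rw [abs_le]
      constructor <;> linarith)
  rw [S.Lam_const_mul ha.1 ha.2 c3] at h1
  refine h1.trans ?_
  have h2 := mul_le_mul_of_nonneg_left (hC a ha.1 ha.2)
    (by positivity : 0 ≤ ((m : ℝ) + 1) * gE P Z m * a ^ (m + 1))
  linarith

/-- The expansion in `a` with the explicit amplitude, integer exponent. -/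
theorem main_int_a (S : Setup P Z (p : ℝ)) (hp : 1 ≤ p) :
    ∃ l : ℕ → ℝ, (∀ k, 1 ≤ k → k < p → 0 < l k) ∧
      (fun a => Lf P Z a - ∑ k ∈ Finset.Icc 1 (p - 1), (-1) ^ (k + 1) * l k * a ^ k
        - (-1) ^ (p - 1) * (G0 P Z (p : ℝ) ^ 2 / (p * mm P Z (p : ℝ)))
          * (a ^ p * Real.log (1 / a)))
        =o[𝓝[>] 0] (fun a => a ^ p * Real.log (1 / a)) := by
  obtain ⟨l, hl, C, hC, hiff, hO⟩ := S.main_a hp
  obtain ⟨m, rfl⟩ : ∃ m, p = m + 1 := ⟨p - 1, by omega⟩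
  have hm : (m : ℝ) < ((m + 1 : ℕ) : ℝ) := by push_cast; linarith
  have hm1 : (m : ℝ) + 1 ≠ 0 := by positivity
  set C' : ℝ := G0 P Z ((m + 1 : ℕ) : ℝ) ^ 2 / (((m + 1 : ℕ) : ℝ) * mm P Z ((m + 1 : ℕ) : ℝ))
    with hC'
  refine ⟨l, hl, ?_⟩
  obtain ⟨q, hq⟩ := PE_L (m := m) S hm
  set h : ℝ → ℝ := fun a => a ^ (m + 1) * Real.log (1 / a) with hh
  have hne : ∀ᶠ a in 𝓝[>] (0 : ℝ), h a ≠ 0 := by
    filter_upwards [Setup.ev_Ioc, Setup.tendsto_ell.eventually_gt_atTop 0] with a ha hla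
    exact mul_ne_zero (pow_pos ha.1 _).ne' hla.ne'
  have h1 : (fun a => Lam P Z a (fun x => psi P Z m (a * x)) - C' * h a) =o[𝓝[>] 0] h := by
    have h2 := (sing_int S).trans_isLittleO (pow_o_log (m + 1))
    have h3 : (fun a : ℝ => h a * (gE P Z m / ((m : ℝ) + 1)
        * (Mk P Z (m + 1) a / Real.log (1 / a)) - C')) =o[𝓝[>] 0] h := by
      have h4 : Tendsto (fun a => gE P Z m / ((m : ℝ) + 1)
          * (Mk P Z (m + 1) a / Real.log (1 / a)) - C') (𝓝[>] 0) (𝓝 0) := by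
        have h5 := ((Mp_lim S).const_mul (gE P Z m / ((m : ℝ) + 1))).sub_const C'
        have e : gE P Z m / ((m : ℝ) + 1)
            * (G0 P Z ((m + 1 : ℕ) : ℝ) / mm P Z ((m + 1 : ℕ) : ℝ)) - C' = 0 := by
          rw [hC', gE_eq]
          push_cast
          rw [div_mul_div_comm, sub_eq_zero]
          congr 1
          ring
        rwa [e] at h5
      have h5 := (isBigO_refl h (𝓝[>] 0)).mul_isLittleO ((isLittleO_one_iff ℝ).2 h4)
      simpa using h5
    refine (h2.add h3).congr' ?_ EventuallyEq.rfl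
    filter_upwards [Setup.tendsto_ell.eventually_gt_atTop 0] with a hla
    have := hla.ne'
    simp only [hh]
    field_simp
    ring
  have h2 : (fun a => Lf P Z a - q.eval a - ((-1) ^ m * C') * h a) =o[𝓝[>] 0] h := by
    have h3 := (hq.trans_isLittleO (pow_o_log (m + 1))).add (h1.const_mul_left ((-1) ^ m))
    refine h3.congr_left fun a => ?_
    ring
  have h3 : (fun a => Lf P Z a
      - (∑ k ∈ Finset.Icc 1 (m + 1 - 1), Polynomial.C ((-1) ^ (k + 1) * l k)
        * Polynomial.X ^ k).eval a - ((-1) ^ (m + 1 - 1) * C) * h a) =o[𝓝[>] 0] h := by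
    refine hO.congr_left fun a => ?_
    rw [Polynomial.eval_finsetSum]
    simp [hh]
  have h4 := coef_unique (fun k => dich_log k) hne h3 h2
  rw [Nat.add_sub_cancel] at h4
  refine hO.congr_left fun a => ?_
  rw [Nat.add_sub_cancel, h4]

end

end Pool.Agent.DH97
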