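import Pool.Agent.DH97.P

/-!
Derrida-Hilhorst amplitude, part K: the exact solution of the Poisson equation.
-/

open MeasureTheory ProbabilityTheory Filter Topology Asymptotics
open Pool.Agent.H741R4.DH

namespace Pool.Agent.DH97

noncomputable section

variable {Ω : Type*} [mΩ : MeasurableSpace Ω] {P : Measure Ω} {Z : ℕ → Ω → ℝ} {α δ : ℝ} {m : ℕ}

/-- `K(y) = E E_m(y (1 + X))`. -/
def Ks (P : Measure Ω) (Z : ℕ → Ω → ℝ) (m : ℕ) (y : ℝ) : ℝ := ∫ ω, ee m (y * (1 + Xinf Z ω)) ∂P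

/-- `k(v) = E E_m(v X)`. -/
def ks (P : Measure Ω) (Z : ℕ → Ω → ℝ) (m : ℕ) (v : ℝ) : ℝ := ∫ ω, ee m (v * Xinf Z ω) ∂P

lemma ee_le_div (hm1 : 1 ≤ m) {y : ℝ} (hy : 0 ≤ y) : ee m y ≤ y ^ (m + 1) / (1 + y) := by
  refine le_trans ?_ (logE_le m hm1 hy)
  unfold ee
  calc (-1 : ℝ) ^ m * logE m y ≤ |(-1 : ℝ) ^ m * logE m y| := le_abs_self _
      _ = |logE m y| := by rw [abs_mul, abs_pow, abs_neg, abs_one, one_pow, one_mul]

lemma ee_le_pow (hm1 : 1 ≤ m) {y : ℝ} (hy : 0 ≤ y) : ee m y ≤ y ^ m := by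
  refine (ee_le_div hm1 hy).trans ?_
  rw [div_le_iff₀ (by positivity), pow_succ]
  have : 0 ≤ y ^ m := by positivity
  nlinarith

lemma ee_le_pow1 (hm1 : 1 ≤ m) {y : ℝ} (hy : 0 ≤ y) : ee m y ≤ y ^ (m + 1) := by
  refine (ee_le_div hm1 hy).trans ?_
  exact div_le_self (by positivity) (by linarith)

lemma int_K (S : Setup P Z α) (hm1 : 1 ≤ m) (hm : (m : ℝ) < α) {y : ℝ} (hy : 0 ≤ y) :
    Integrable (fun ω => ee m (y * (1 + Xinf Z ω))) P := by
  refine Integrable.mono' ((int_Vn S hm).const_mul (y ^ m))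
    ((measurable_ee m).comp (measurable_const.mul
      (measurable_const.add (measurable_Xinf S)))).aestronglyMeasurable ?_
  filter_upwards [Xinf_nonneg S] with ω hω
  have h : 0 ≤ y * (1 + Xinf Z ω) := by positivity
  rw [Real.norm_eq_abs, abs_of_nonneg (ee_nonneg h), ← mul_pow]
  exact ee_le_pow hm1 h

lemma int_k (S : Setup P Z α) (hm1 : 1 ≤ m) (hm : (m : ℝ) < α) {v : ℝ} (hv : 0 ≤ v) :
    Integrable (fun ω => ee m (v * Xinf Z ω)) P := by
  refine Integrable.mono' ((int_Xk S hm).const_mul (v ^ m))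
    ((measurable_ee m).comp (measurable_const.mul (measurable_Xinf S))).aestronglyMeasurable ?_
  filter_upwards [Xinf_nonneg S] with ω hω
  have h : 0 ≤ v * Xinf Z ω := by positivity
  rw [Real.norm_eq_abs, abs_of_nonneg (ee_nonneg h), ← mul_pow]
  exact ee_le_pow hm1 h

lemma measurable_Ks (S : Setup P Z α) : Measurable (Ks P Z m) := by
  have hprob := S.prob
  have h : Measurable (fun q : ℝ × Ω => ee m (q.1 * (1 + Xinf Z q.2))) :=
    (measurable_ee m).comp (measurable_fst.mul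
      (measurable_const.add ((measurable_Xinf S).comp measurable_snd)))
  exact (h.stronglyMeasurable.integral_prod_right' (ν := P)).measurable

lemma measurable_ks (S : Setup P Z α) : Measurable (ks P Z m) := by
  have hprob := S.prob
  have h : Measurable (fun q : ℝ × Ω => ee m (q.1 * Xinf Z q.2)) :=
    (measurable_ee m).comp (measurable_fst.mul ((measurable_Xinf S).comp measurable_snd))
  exact (h.stronglyMeasurable.integral_prod_right' (ν := P)).measurable

lemma Ks_nonneg (S : Setup P Z α) {y : ℝ} (hy : 0 ≤ y) : 0 ≤ Ks P Z m y := by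
  apply integral_nonneg_of_ae
  filter_upwards [Xinf_nonneg S] with ω hω using ee_nonneg (by positivity)

lemma ks_nonneg (S : Setup P Z α) {y : ℝ} (hy : 0 ≤ y) : 0 ≤ ks P Z m y := by
  apply integral_nonneg_of_ae
  filter_upwards [Xinf_nonneg S] with ω hω using ee_nonneg (by positivity)

lemma Ks_mono (S : Setup P Z α) (hm1 : 1 ≤ m) (hm : (m : ℝ) < α) {x y : ℝ} (hx : 0 ≤ x)
    (hxy : x ≤ y) : Ks P Z m x ≤ Ks P Z m y := by
  refine integral_mono_ae (int_K S hm1 hm hx) (int_K S hm1 hm (hx.trans hxy)) ?_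
  filter_upwards [Xinf_nonneg S] with ω hω
  exact ee_mono (by positivity) (mul_le_mul_of_nonneg_right hxy (by positivity))

lemma Ks_scale (S : Setup P Z α) (hm1 : 1 ≤ m) (hm : (m : ℝ) < α) {l y : ℝ} (hl : 1 ≤ l)
    (hy : 0 ≤ y) : Ks P Z m (l * y) ≤ l ^ (m + 1) * Ks P Z m y := by
  unfold Ks
  rw [← integral_const_mul]
  refine integral_mono_ae (int_K S hm1 hm (by positivity)) ((int_K S hm1 hm hy).const_mul _) ?_
  filter_upwards [Xinf_nonneg S] with ω hω
  have h := ee_scale (m := m) hl (by positivity : 0 ≤ y * (1 + Xinf Z ω))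
  rwa [← mul_assoc] at h

lemma Ks_le (S : Setup P Z α) (hm1 : 1 ≤ m) (hm : (m : ℝ) < α) {y : ℝ} (hy : 0 ≤ y) :
    Ks P Z m y ≤ nu P Z m * y ^ m := by
  unfold Ks nu
  rw [← integral_mul_const]
  refine integral_mono_ae (int_K S hm1 hm hy) ((int_Vn S hm).mul_const _) ?_
  filter_upwards [Xinf_nonneg S] with ω hω
  have h := ee_le_pow hm1 (by positivity : 0 ≤ y * (1 + Xinf Z ω))
  rw [mul_pow] at h
  exact h.trans (le_of_eq (mul_comm _ _))

lemma nu_nonneg (S : Setup P Z α) : 0 ≤ nu P Z m := by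
  apply integral_nonneg_of_ae
  filter_upwards [Xinf_nonneg S] with ω hω
  exact pow_nonneg (by linarith) _

lemma ks_le (S : Setup P Z α) (hm1 : 1 ≤ m) (hm : (m : ℝ) < α) {y : ℝ} (hy : 0 ≤ y) :
    ks P Z m y ≤ nu P Z m * y ^ m := by
  refine le_trans ?_ (Ks_le S hm1 hm hy)
  refine integral_mono_ae (int_k S hm1 hm hy) (int_K S hm1 hm hy) ?_
  filter_upwards [Xinf_nonneg S] with ω hω
  exact ee_mono (by positivity) (mul_le_mul_of_nonneg_left (by linarith) hy)

lemma cont_ee : ContinuousOn (ee m) (Set.Ici 0) := fun x hx =>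
  (hasDerivAt_ee (m := m) hx).continuousAt.continuousWithinAt

lemma mo_ee (S : Setup P Z α) (hm : (m : ℝ) < α) {v : ℝ} (hv : 0 < v) :
    Mo α (fun x => ee m (v * x)) := by
  refine ⟨cl_ee S hm hv, ?_, fun x y hx hxy => ?_, fun x hx => ee_nonneg (by positivity)⟩
  · refine cont_ee.comp (by fun_prop) ?_
    intro x hx
    have : (0 : ℝ) ≤ x := hx
    change (0 : ℝ) ≤ v * x
    positivity
  · exact ee_mono (by positivity) (mul_le_mul_of_nonneg_left hxy hv.le)

lemma Lam_ee_le (S : Setup P Z α) (hm1 : 1 ≤ m) (hm : (m : ℝ) < α) {v : ℝ} (hv : 0 < v) :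
    ∃ C, ∀ a, 0 < a → a ≤ 1 → Lam P Z a (fun x => ee m (v * x)) ≤ C := by
  obtain ⟨C, hC0, hC⟩ := S.Vm_bound hm
  refine ⟨v ^ m * C, fun a ha ha1 => ?_⟩
  have h := S.Lam_mono ha ha1 (cl_ee S hm hv) ((cl_nV hm.le).const_mul (v ^ m)) fun x hx => by
    have h1 := ee_le_pow hm1 (by positivity : 0 ≤ v * x)
    rw [mul_pow] at h1
    exact h1.trans (mul_le_mul_of_nonneg_left (pow_le_pow_left₀ hx (by linarith) m) (by positivity))
  rw [S.Lam_const_mul ha ha1 (cl_nV hm.le)] at h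
  exact h.trans (mul_le_mul_of_nonneg_left (hC a ha ha1) (by positivity))

/-- `k = Av K`. -/
lemma ks_eq (S : Setup P Z α) (hm1 : 1 ≤ m) (hm : (m : ℝ) < α) {v : ℝ} (hv : 0 ≤ v) :
    ks P Z m v = Av P Z (Ks P Z m) v := by
  have hP := S.prob
  rcases hv.eq_or_lt with rfl | hv0
  · unfold ks Av Ks
    simp [ee_zero]
  obtain ⟨C, hC⟩ := Lam_ee_le S hm1 hm hv0
  have h := (perp_eq S (mo_ee S hm hv0) hC).2
  unfold ks
  rw [h]
  unfold Av Ks
  have hi : Integrable (fun q : Ω × Ω => ee m (v * (Z 0 q.2 * (1 + Xinf Z q.1)))) (P.prod P) := by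
    have hZ : Integrable (fun ω => (Z 0 ω) ^ m) P := by
      have := S.int_rpow (Nat.cast_nonneg m) hm.le
      simpa only [Real.rpow_natCast] using this
    have hmeas : Measurable (fun q : Ω × Ω => ee m (v * (Z 0 q.2 * (1 + Xinf Z q.1)))) :=
      (measurable_ee m).comp (measurable_const.mul (((S.meas 0).comp measurable_snd).mul
        (measurable_const.add ((measurable_Xinf S).comp measurable_fst))))
    refine Integrable.mono' (((int_Vn S hm).mul_prod hZ).const_mul (v ^ m))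
      hmeas.aestronglyMeasurable ?_
    have h1 : ∀ᵐ q : Ω × Ω ∂(P.prod P), 0 ≤ Xinf Z q.1 :=
      Measure.quasiMeasurePreserving_fst.ae (Xinf_nonneg S)
    have h2 : ∀ᵐ q : Ω × Ω ∂(P.prod P), 0 < Z 0 q.2 :=
      Measure.quasiMeasurePreserving_snd.ae S.pos
    filter_upwards [h1, h2] with q hq1 hq2
    have h3 : 0 ≤ v * (Z 0 q.2 * (1 + Xinf Z q.1)) := by positivity
    rw [Real.norm_eq_abs, abs_of_nonneg (ee_nonneg h3)]
    refine (ee_le_pow hm1 h3).trans (le_of_eq ?_)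
    rw [mul_pow, mul_pow]
    ring
  have hsw := integral_integral_swap (f := fun ω ω' => ee m (v * (Z 0 ω' * (1 + Xinf Z ω)))) hi
  rw [hsw]
  apply integral_congr_ae
  refine Eventually.of_forall fun ω' => ?_
  apply integral_congr_ae
  refine Eventually.of_forall fun ω => ?_
  simp only
  congr 1
  ring

/-- The Poisson equation. -/
lemma Ks_eq (S : Setup P Z α) (hm1 : 1 ≤ m) (hm : (m : ℝ) < α) {y : ℝ} (hy : 0 ≤ y) :
    Ks P Z m y = psi P Z m y + Av P Z (Ks P Z m) (y / (1 + y)) := by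
  have hκ : 0 ≤ y / (1 + y) := by positivity
  rw [← ks_eq S hm1 hm hκ]
  unfold psi ks Ks
  rw [← integral_add (int_FF S hm hy) (int_k S hm1 hm hκ)]
  apply integral_congr_ae
  refine Eventually.of_forall fun ω => ?_
  simp only
  unfold FF
  have : y * Xinf Z ω / (1 + y) = y / (1 + y) * Xinf Z ω := by ring
  rw [this]
  ring

/-- Comparison with the minimal solution. -/
lemma Ks_bound (S : Setup P Z α) (hm1 : 1 ≤ m) (hmα : (m : ℝ) < α) (hδ1 : δ ≤ α - m)
    (hδ2 : δ ≤ (m : ℝ) + 1 - α) (hδ : 0 < δ) :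
    ∃ B, 0 ≤ B ∧ ∀ y, 0 ≤ y → Ks P Z m y ≤ B * hh α δ y := by
  have hm0 : (1 : ℝ) ≤ m := by exact_mod_cast hm1
  have hδα : δ < α := by linarith
  obtain ⟨Φ, B, hB0, hΦm, hΦ0, hΦB, hΦmono, hΦs, hΦe⟩ :=
    S.poisson hm1 hδ1 hδ2 hδ (NN_psi S hm1 hmα)
  refine ⟨B, hB0, fun y hy => le_trans ?_ (hΦB y hy)⟩
  set q := qk P Z m with hq
  have hq0 : 0 ≤ q := S.qk_nonneg m
  have hq1 : q < 1 := S.qk_lt_one hm1 hmα
  have hZ : Integrable (fun ω => (Z 0 ω) ^ m) P := by
    have := S.int_rpow (Nat.cast_nonneg m) hmα.le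
    simpa only [Real.rpow_natCast] using this
  have hΦi : ∀ v, 0 ≤ v → Integrable (fun ω => Φ (Z 0 ω * v)) P := fun v hv =>
    S.int_dom hΦm hδα hδ hΦ0 hΦB hB0 hv
  have hKi : ∀ v, 0 ≤ v → Integrable (fun ω => Ks P Z m (Z 0 ω * v)) P := by
    intro v hv
    refine Integrable.mono' ((hZ.mul_const (v ^ m)).const_mul (nu P Z m))
      ((measurable_Ks S).comp ((S.meas 0).mul_const v)).aestronglyMeasurable ?_
    filter_upwards [S.pos] with ω hω
    have h : 0 ≤ Z 0 ω * v := by positivity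
    rw [Real.norm_eq_abs, abs_of_nonneg (Ks_nonneg S h), ← mul_pow]
    exact Ks_le S hm1 hmα h
  have key : ∀ n : ℕ, ∀ y, 0 ≤ y → Ks P Z m y - Φ y ≤ q ^ n * (nu P Z m * y ^ m) := by
    intro n
    induction n with
    | zero =>
      intro y hy
      have h1 := Ks_le S hm1 hmα hy
      have h2 := hΦ0 y hy
      rw [pow_zero, one_mul]
      linarith
    | succ n ih =>
      intro y hy
      have hκ : 0 ≤ y / (1 + y) := by positivity
      have hκ2 : y / (1 + y) ≤ y := div_le_self hy (by linarith)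
      rw [Ks_eq S hm1 hmα hy, hΦe y hy]
      have h1 : Av P Z (Ks P Z m) (y / (1 + y)) - Av P Z Φ (y / (1 + y))
          ≤ ∫ ω, q ^ n * nu P Z m * (y / (1 + y)) ^ m * (Z 0 ω) ^ m ∂P := by
        unfold Av
        rw [← integral_sub (hKi _ hκ) (hΦi _ hκ)]
        refine integral_mono_ae ((hKi _ hκ).sub (hΦi _ hκ)) (hZ.const_mul _) ?_
        filter_upwards [S.pos] with ω hω
        have h2 := ih (Z 0 ω * (y / (1 + y))) (by positivity)
        rw [mul_pow] at h2
        refine h2.trans (le_of_eq ?_)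
        ring
      rw [integral_const_mul] at h1
      have h3 : (∫ ω, (Z 0 ω) ^ m ∂P) = q := rfl
      rw [h3] at h1
      have h4 : (y / (1 + y)) ^ m ≤ y ^ m := pow_le_pow_left₀ hκ hκ2 m
      have h5 : q ^ n * nu P Z m * (y / (1 + y)) ^ m * q ≤ q ^ (n + 1) * (nu P Z m * y ^ m) := by
        have h6 : 0 ≤ q ^ (n + 1) * nu P Z m := mul_nonneg (pow_nonneg hq0 _) (nu_nonneg S)
        have h7 := mul_le_mul_of_nonneg_left h4 h6
        rw [pow_succ] at h7 ⊢
        linarith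
      linarith
  have hlim : Tendsto (fun n : ℕ => q ^ n * (nu P Z m * y ^ m)) atTop (𝓝 0) := by
    have h := (tendsto_pow_atTop_nhds_zero_of_lt_one hq0 hq1).mul_const (nu P Z m * y ^ m)
    rwa [zero_mul] at h
  have := ge_of_tendsto' hlim fun n => key n y hy
  linarith

end

end Pool.Agent.DH97
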