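import Pool.Agent.DH97.K

/-!
Derrida-Hilhorst amplitude, part M: the Mellin transform of the truncated logarithm.
-/

open MeasureTheory ProbabilityTheory Filter Topology Asymptotics Set
open Pool.Agent.H741R4.DH

namespace Pool.Agent.DH97

noncomputable section

/-- `∫_0^∞ v^(θ-1)/(1+v) dv = π / sin(π θ)`. -/
lemma beta_int {θ : ℝ} (h0 : 0 < θ) (h1 : θ < 1) :
    IntegrableOn (fun v : ℝ => v ^ (θ - 1) / (1 + v)) (Ioi 0) ∧
    ∫ v in Ioi (0 : ℝ), v ^ (θ - 1) / (1 + v) = Real.pi / Real.sin (Real.pi * θ) := by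
  set μ : Measure ℝ := volume.restrict (Ioi (0 : ℝ)) with hμ
  set F : ℝ → ℝ → ℝ := fun t v => Real.exp (-t) * (v ^ (θ - 1) * Real.exp (-(t * v))) with hF
  have hFm : Measurable (Function.uncurry F) := by
    simp only [hF]
    apply Measurable.mul
    · exact Real.measurable_exp.comp measurable_fst.neg
    · apply Measurable.mul
      · exact measurable_snd.pow_const _
      · exact Real.measurable_exp.comp (measurable_fst.mul measurable_snd).neg
  have hΓ : 0 < Real.Gamma θ := Real.Gamma_pos_of_pos h0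
  have hin : ∀ t : ℝ, 0 < t → ∫ v, F t v ∂μ = Real.Gamma θ * (Real.exp (-t) * t ^ ((1 - θ) - 1)) := by
    intro t ht
    simp only [hF]
    rw [integral_const_mul, hμ, Real.integral_rpow_mul_exp_neg_mul_Ioi h0 ht, one_div,
      Real.inv_rpow ht.le, ← Real.rpow_neg ht.le]
    have : (1 - θ) - 1 = -θ := by ring
    rw [this]
    ring
  have hinI : ∀ t : ℝ, 0 < t → Integrable (F t) μ := by
    intro t ht
    apply Integrable.of_integral_ne_zero
    rw [hin t ht]
    have := Real.rpow_pos_of_pos ht ((1 - θ) - 1)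
    positivity
  have hnn : ∀ t, ∀ᵐ v ∂μ, 0 ≤ F t v := by
    intro t
    rw [hμ, ae_restrict_iff' measurableSet_Ioi]
    refine Eventually.of_forall fun v hv => ?_
    have hv : (0 : ℝ) < v := hv
    simp only [hF]
    positivity
  have hFi : Integrable (Function.uncurry F) (μ.prod μ) := by
    rw [integrable_prod_iff hFm.aestronglyMeasurable]
    constructor
    · rw [hμ, ae_restrict_iff' measurableSet_Ioi]
      exact Eventually.of_forall fun t ht => hinI t ht
    · have h2 : Integrable (fun t => Real.Gamma θ * (Real.exp (-t) * t ^ ((1 - θ) - 1))) μ :=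
        (Real.GammaIntegral_convergent (by linarith : 0 < 1 - θ)).const_mul _
      refine h2.congr ?_
      rw [hμ, EventuallyEq, ae_restrict_iff' measurableSet_Ioi, ← hμ]
      refine Eventually.of_forall fun t ht => ?_
      rw [← hin t ht]
      apply integral_congr_ae
      filter_upwards [hnn t] with v hv
      rw [Real.norm_eq_abs]
      exact (abs_of_nonneg hv).symm
  have hv : ∀ v : ℝ, 0 < v → ∫ t, F t v ∂μ = v ^ (θ - 1) / (1 + v) := by
    intro v hv
    have h2 := Real.integral_rpow_mul_exp_neg_mul_Ioi (a := 1) (r := 1 + v) one_pos (by linarith)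
    rw [Real.rpow_one, Real.Gamma_one, mul_one] at h2
    have h3 : ∀ t, F t v = v ^ (θ - 1) * (t ^ ((1 : ℝ) - 1) * Real.exp (-((1 + v) * t))) := by
      intro t
      simp only [hF]
      have : Real.exp (-((1 + v) * t)) = Real.exp (-t) * Real.exp (-(t * v)) := by
        rw [← Real.exp_add]; congr 1; ring
      rw [this, sub_self, Real.rpow_zero]
      ring
    simp only [h3]
    rw [integral_const_mul, hμ, h2]
    ring
  have hsw := integral_integral_swap (f := F) hFi
  have e1 : ∫ t, ∫ v, F t v ∂μ ∂μ = Real.pi / Real.sin (Real.pi * θ) := by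
    have h2 : ∫ t, ∫ v, F t v ∂μ ∂μ
        = ∫ t, Real.Gamma θ * (Real.exp (-t) * t ^ ((1 - θ) - 1)) ∂μ := by
      apply integral_congr_ae
      rw [hμ, EventuallyEq, ae_restrict_iff' measurableSet_Ioi, ← hμ]
      exact Eventually.of_forall fun t ht => hin t ht
    rw [h2, integral_const_mul, hμ, ← Real.Gamma_eq_integral (by linarith : 0 < 1 - θ),
      Real.Gamma_mul_Gamma_one_sub]
  have e2 : ∫ v, ∫ t, F t v ∂μ ∂μ = ∫ v, v ^ (θ - 1) / (1 + v) ∂μ := by
    apply integral_congr_ae
    rw [hμ, EventuallyEq, ae_restrict_iff' measurableSet_Ioi, ← hμ]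
    exact Eventually.of_forall fun v hv' => hv v hv'
  constructor
  · have h2 : Integrable (fun v => ∫ t, F t v ∂μ) μ := hFi.integral_prod_right
    refine h2.congr ?_
    rw [hμ, EventuallyEq, ae_restrict_iff' measurableSet_Ioi, ← hμ]
    exact Eventually.of_forall fun v hv' => hv v hv'
  · rw [← e2, ← hsw, e1]

/-- The Mellin constant. -/
def kapC (m : ℕ) (s : ℝ) : ℝ := 1 / s * (Real.pi / Real.sin (Real.pi * ((m : ℝ) + 1 - s)))

variable {m : ℕ} {s : ℝ}

lemma int_kern (hm1 : 1 ≤ m) (hs : (m : ℝ) < s) (hs2 : s < (m : ℝ) + 1) :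
    IntegrableOn (fun v : ℝ => v ^ (-s - 1) * ee m v) (Ioi 0) := by
  have hb := (beta_int (θ := (m : ℝ) + 1 - s) (by linarith) (by linarith)).1
  refine Integrable.mono' hb
    ((measurable_id.pow_const _).mul (measurable_ee m)).aestronglyMeasurable ?_
  rw [ae_restrict_iff' measurableSet_Ioi]
  refine Eventually.of_forall fun v hv => ?_
  have hv : (0 : ℝ) < v := hv
  have h1 := Real.rpow_pos_of_pos hv (-s - 1)
  rw [Real.norm_eq_abs, abs_of_nonneg (mul_nonneg h1.le (ee_nonneg hv.le))]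
  refine (mul_le_mul_of_nonneg_left (ee_le_div hm1 hv.le) h1.le).trans (le_of_eq ?_)
  have e : v ^ ((m : ℝ) + 1 - s - 1) = v ^ (-s - 1) * v ^ (m + 1) := by
    rw [← Real.rpow_natCast v (m + 1), ← Real.rpow_add hv]
    congr 1
    push_cast
    ring
  rw [e]
  ring

/-- `∫_0^∞ v^(-s-1) E_m(v) dv = π / (s sin(π (m + 1 - s)))`. -/
lemma mellin_ee (hm1 : 1 ≤ m) (hs : (m : ℝ) < s) (hs2 : s < (m : ℝ) + 1) :
    ∫ v in Ioi (0 : ℝ), v ^ (-s - 1) * ee m v = kapC m s := by
  have hm0 : (1 : ℝ) ≤ m := by exact_mod_cast hm1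
  have hs0 : 0 < s := by linarith
  have hb := beta_int (θ := (m : ℝ) + 1 - s) (by linarith) (by linarith)
  have hk := int_kern hm1 hs hs2
  set f : ℝ → ℝ := fun v => -(v ^ (-s) * ee m v) / s with hf
  have hderiv : ∀ v ∈ Ioi (0 : ℝ), HasDerivAt f
      (v ^ (-s - 1) * ee m v - 1 / s * (v ^ ((m : ℝ) + 1 - s - 1) / (1 + v))) v := by
    intro v hv
    have hv : (0 : ℝ) < v := hv
    have h1 : HasDerivAt (fun v : ℝ => v ^ (-s)) (-s * v ^ (-s - 1)) v :=
      Real.hasDerivAt_rpow_const (Or.inl hv.ne')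
    have h2 := ((h1.mul (hasDerivAt_ee (m := m) hv.le)).neg).div_const s
    refine h2.congr_deriv ?_
    have e : v ^ ((m : ℝ) + 1 - s - 1) = v ^ (-s) * v ^ m := by
      rw [← Real.rpow_natCast v m, ← Real.rpow_add hv]
      congr 1
      ring
    rw [e]
    field_simp
    ring
  have hb0 : ∀ v, 0 < v → |f v| ≤ v ^ ((m : ℝ) + 1 - s) / s := by
    intro v hv
    have h1 := Real.rpow_pos_of_pos hv (-s)
    simp only [hf]
    rw [abs_div, abs_neg, abs_of_nonneg (mul_nonneg h1.le (ee_nonneg hv.le)), abs_of_pos hs0]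
    apply div_le_div_of_nonneg_right _ hs0.le
    refine (mul_le_mul_of_nonneg_left (ee_le_pow1 hm1 hv.le) h1.le).trans (le_of_eq ?_)
    rw [← Real.rpow_natCast v (m + 1), ← Real.rpow_add hv]
    congr 1
    push_cast
    ring
  have hb1 : ∀ v, 0 < v → |f v| ≤ v ^ (-(s - m)) / s := by
    intro v hv
    have h1 := Real.rpow_pos_of_pos hv (-s)
    simp only [hf]
    rw [abs_div, abs_neg, abs_of_nonneg (mul_nonneg h1.le (ee_nonneg hv.le)), abs_of_pos hs0]
    apply div_le_div_of_nonneg_right _ hs0.le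
    refine (mul_le_mul_of_nonneg_left (ee_le_pow hm1 hv.le) h1.le).trans (le_of_eq ?_)
    rw [← Real.rpow_natCast v m, ← Real.rpow_add hv]
    congr 1
    ring
  have hf0 : f 0 = 0 := by simp [hf, ee_zero]
  have hcont : ContinuousWithinAt f (Ici 0) 0 := by
    unfold ContinuousWithinAt
    rw [hf0, tendsto_zero_iff_norm_tendsto_zero]
    have h1 : Tendsto (fun v : ℝ => v ^ ((m : ℝ) + 1 - s) / s) (𝓝[≥] 0) (𝓝 0) := by
      have h2 : Tendsto (fun v : ℝ => v ^ ((m : ℝ) + 1 - s)) (𝓝 0) (𝓝 ((0 : ℝ) ^ ((m : ℝ) + 1 - s))) :=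
        (Real.continuousAt_rpow_const 0 _ (Or.inr (by linarith))).tendsto
      rw [Real.zero_rpow (by linarith)] at h2
      have h3 := (h2.mono_left (nhdsWithin_le_nhds (s := Ici 0))).div_const s
      rwa [zero_div] at h3
    refine squeeze_zero' (Eventually.of_forall fun v => norm_nonneg _) ?_ h1
    filter_upwards [self_mem_nhdsWithin] with v hv
    have hv : (0 : ℝ) ≤ v := hv
    rcases hv.eq_or_lt with rfl | hv0
    · rw [hf0, norm_zero, Real.zero_rpow (by linarith), zero_div]
    · exact hb0 v hv0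
  have htop : Tendsto f atTop (𝓝 0) := by
    rw [tendsto_zero_iff_norm_tendsto_zero]
    have h1 : Tendsto (fun v : ℝ => v ^ (-(s - m)) / s) atTop (𝓝 0) := by
      have h3 := (tendsto_rpow_neg_atTop (by linarith : 0 < s - m)).div_const s
      rwa [zero_div] at h3
    refine squeeze_zero' (Eventually.of_forall fun v => norm_nonneg _) ?_ h1
    filter_upwards [eventually_gt_atTop 0] with v hv
    exact hb1 v hv
  have h := integral_Ioi_of_hasDerivAt_of_tendsto hcont hderiv
    (hk.sub (hb.1.const_mul (1 / s))) htop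
  rw [hf0, sub_zero] at h
  have h2 : ∫ v in Ioi (0 : ℝ), (v ^ (-s - 1) * ee m v
      - 1 / s * (v ^ ((m : ℝ) + 1 - s - 1) / (1 + v)))
      = (∫ v in Ioi (0 : ℝ), v ^ (-s - 1) * ee m v)
        - ∫ v in Ioi (0 : ℝ), 1 / s * (v ^ ((m : ℝ) + 1 - s - 1) / (1 + v)) :=
    integral_sub hk (hb.1.const_mul (1 / s))
  rw [h2, integral_const_mul, hb.2] at h
  unfold kapC
  linarith

/-- Scaled version. -/
lemma mellin_scaled (hm1 : 1 ≤ m) (hs : (m : ℝ) < s) (hs2 : s < (m : ℝ) + 1) {x : ℝ}
    (hx : 0 ≤ x) : IntegrableOn (fun v : ℝ => v ^ (-s - 1) * ee m (v * x)) (Ioi 0) ∧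
    ∫ v in Ioi (0 : ℝ), v ^ (-s - 1) * ee m (v * x) = kapC m s * x ^ s := by
  have hm0 : (1 : ℝ) ≤ m := by exact_mod_cast hm1
  have hs0 : 0 < s := by linarith
  rcases hx.eq_or_lt with rfl | hx0
  · simp only [mul_zero, ee_zero]
    rw [Real.zero_rpow hs0.ne', mul_zero]
    exact ⟨integrableOn_zero, integral_zero _ _⟩
  · set g : ℝ → ℝ := fun w => w ^ (-s - 1) * ee m w with hg
    have hgi : IntegrableOn g (Ioi 0) := int_kern hm1 hs hs2
    have hgv : ∫ w in Ioi (0 : ℝ), g w = kapC m s := mellin_ee hm1 hs hs2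
    have hxs := Real.rpow_pos_of_pos hx0 (s + 1)
    have e : ∀ v : ℝ, 0 < v → v ^ (-s - 1) * ee m (v * x) = x ^ (s + 1) * g (v * x) := by
      intro v hv
      simp only [hg]
      rw [Real.mul_rpow hv.le hx0.le]
      have : x ^ (s + 1) * x ^ (-s - 1) = 1 := by
        rw [← Real.rpow_add hx0]
        have : s + 1 + (-s - 1) = 0 := by ring
        rw [this, Real.rpow_zero]
      calc v ^ (-s - 1) * ee m (v * x)
          = (x ^ (s + 1) * x ^ (-s - 1)) * (v ^ (-s - 1) * ee m (v * x)) := by rw [this, one_mul]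
        _ = _ := by ring
    have hgi2 : IntegrableOn (fun v => g (v * x)) (Ioi 0) := by
      rw [integrableOn_Ioi_comp_mul_right_iff g 0 hx0, zero_mul]
      exact hgi
    have hgv2 : ∫ v in Ioi (0 : ℝ), g (v * x) = x⁻¹ * kapC m s := by
      rw [integral_comp_mul_right_Ioi g 0 hx0, zero_mul, hgv, smul_eq_mul]
    constructor
    · refine (hgi2.const_mul (x ^ (s + 1))).congr ?_
      rw [EventuallyEq, ae_restrict_iff' measurableSet_Ioi]
      exact Eventually.of_forall fun v hv => (e v hv).symm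
    · have h1 : ∫ v in Ioi (0 : ℝ), v ^ (-s - 1) * ee m (v * x)
          = ∫ v in Ioi (0 : ℝ), x ^ (s + 1) * g (v * x) :=
        setIntegral_congr_fun measurableSet_Ioi fun v hv => e v hv
      rw [h1, integral_const_mul, hgv2, Real.rpow_add_one hx0.ne']
      field_simp

variable {Ω : Type*} [mΩ : MeasurableSpace Ω] {P : Measure Ω} {Z : ℕ → Ω → ℝ} {α : ℝ}

/-- The Mellin transform of `k`. -/
lemma mellin_ks (S : Setup P Z α) (hm1 : 1 ≤ m) (hs : (m : ℝ) < s) (hsα : s < α)
    (hs2 : s < (m : ℝ) + 1) :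
    IntegrableOn (fun v : ℝ => v ^ (-s - 1) * ks P Z m v) (Ioi 0) ∧
    ∫ v in Ioi (0 : ℝ), v ^ (-s - 1) * ks P Z m v = kapC m s * ∫ ω, (Xinf Z ω) ^ s ∂P := by
  have hP := S.prob
  have hm0 : (1 : ℝ) ≤ m := by exact_mod_cast hm1
  have hs0 : 0 < s := by linarith
  set μ : Measure ℝ := volume.restrict (Ioi (0 : ℝ)) with hμ
  set F : Ω → ℝ → ℝ := fun ω v => v ^ (-s - 1) * ee m (v * Xinf Z ω) with hF
  have hFm : Measurable (Function.uncurry F) := by
    simp only [hF]
    apply Measurable.mul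
    · exact measurable_snd.pow_const _
    · exact (measurable_ee m).comp (measurable_snd.mul ((measurable_Xinf S).comp measurable_fst))
  have hXi := (mom_eq S hs0 hsα).1
  have hFi : Integrable (Function.uncurry F) (P.prod μ) := by
    rw [integrable_prod_iff hFm.aestronglyMeasurable]
    constructor
    · filter_upwards [Xinf_nonneg S] with ω hω
      exact (mellin_scaled hm1 hs hs2 hω).1
    · refine (hXi.const_mul (kapC m s)).congr ?_
      filter_upwards [Xinf_nonneg S] with ω hω
      rw [← (mellin_scaled hm1 hs hs2 hω).2]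
      apply integral_congr_ae
      rw [EventuallyEq, ae_restrict_iff' measurableSet_Ioi]
      refine Eventually.of_forall fun v hv => ?_
      have hv : (0 : ℝ) < v := hv
      rw [Real.norm_eq_abs]
      refine (abs_of_nonneg ?_).symm
      exact mul_nonneg (Real.rpow_nonneg hv.le _) (ee_nonneg (by positivity))
  have hk : ∀ v, ∫ ω, F ω v ∂P = v ^ (-s - 1) * ks P Z m v := by
    intro v
    simp only [hF]
    rw [integral_const_mul]
    rfl
  have hsw := integral_integral_swap (f := F) hFi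
  simp only [hk] at hsw
  constructor
  · have h2 : Integrable (fun v => ∫ ω, F ω v ∂P) μ := hFi.integral_prod_right
    simp only [hk] at h2
    exact h2
  · rw [← hsw, ← integral_const_mul]
    apply integral_congr_ae
    filter_upwards [Xinf_nonneg S] with ω hω
    exact (mellin_scaled hm1 hs hs2 hω).2

end

end Pool.Agent.DH97
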