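import Pool.Graph.R_seed8.H741R4.DH19

/-!
Derrida-Hilhorst amplitude, part S: asymptotics of the singular functional, for a given solution
of the Poisson equation (the argument of `Setup.Sg_limit`, with the limit identified).
-/

open MeasureTheory ProbabilityTheory Filter Topology Asymptotics
open Pool.Agent.H741R4.DH Pool.Agent.H741R4.DH.Setup

namespace Pool.Agent.DH97

noncomputable section

variable {Ω : Type*} [mΩ : MeasurableSpace Ω] {P : Measure Ω} {Z : ℕ → Ω → ℝ} {α δ : ℝ} {m : ℕ}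

/-- The singular functional converges after scaling, with the limit identified. -/
theorem Sg_lim (S : Setup P Z α) (hm1 : 1 ≤ m) (hmα : (m : ℝ) < α) (hαm : α < (m : ℝ) + 1)
    (hδ1 : δ ≤ α - m) (hδ2 : δ ≤ (m : ℝ) + 1 - α) (hδ : 0 < δ)
    {ψ : ℝ → ℝ} (hψ : NN m ψ)
    {Φ : ℝ → ℝ} {B : ℝ} (hB0 : 0 ≤ B) (hΦm : Measurable Φ) (hΦ0 : ∀ y, 0 ≤ y → 0 ≤ Φ y)
    (hΦB : ∀ y, 0 ≤ y → Φ y ≤ B * hh α δ y)
    (hΦmono : ∀ x y, 0 ≤ x → x ≤ y → Φ x ≤ Φ y)
    (hΦs : ∀ l y, 1 ≤ l → 0 ≤ y → Φ (l * y) ≤ l ^ (m + 1) * Φ y)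
    (hΦe : ∀ y, 0 ≤ y → Φ y = ψ y + Av P Z Φ (y / (1 + y)))
    {c : ℝ} (hc : Tendsto (fun v => Av P Z Φ v / v ^ α) (𝓝[>] 0) (𝓝 c))
    {G₀ : ℝ} (hG₀ : Tendsto (G P Z α) (𝓝[>] 0) (𝓝 G₀)) :
    Tendsto (fun a => Sg P Z ψ a / a ^ α) (𝓝[>] 0) (𝓝 (c * G₀)) := by
  have hm0 : (1 : ℝ) ≤ m := by exact_mod_cast hm1
  have hδα : δ < α := by linarith
  have hα := S.α_pos
  have hα1 := S.hα
  have hP := S.prob
  -- facts on Ψ = Av Φ
  have hint : ∀ v, 0 ≤ v → Integrable (fun ω => Φ (Z 0 ω * v)) P := fun v hv =>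
    S.int_dom hΦm hδα hδ hΦ0 hΦB hB0 hv
  set Ψ : ℝ → ℝ := Av P Z Φ with hΨ
  have hΨm : Measurable Ψ := S.measurable_Av hΦm
  have hΨ0 : ∀ v, 0 ≤ v → 0 ≤ Ψ v := fun v hv => S.Av_nonneg hv hΦ0
  have hΨ1 : ∀ v, 0 ≤ v → Ψ v ≤ B * v ^ α := by
    intro v hv
    have h1 : Av P Z Φ v ≤ ∫ ω, B * ((Z 0 ω) ^ α * v ^ α) ∂P := by
      refine integral_mono_ae (hint v hv) ((S.int_α.mul_const _).const_mul B) ?_
      filter_upwards [S.pos] with ω hω
      have hzv : 0 ≤ Z 0 ω * v := by positivity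
      rw [← Real.mul_rpow hω.le hv]
      exact (hΦB _ hzv).trans (mul_le_mul_of_nonneg_left (hh_le hδα hδ hzv) hB0)
    rwa [integral_const_mul, integral_mul_const, S.one, one_mul] at h1
  have hΨmono : ∀ u v, 0 ≤ u → u ≤ v → Ψ u ≤ Ψ v := fun u v hu huv =>
    S.Av_mono_v hu huv (hint u hu) (hint v (hu.trans huv)) hΦmono
  have hΨs : ∀ l v, 1 ≤ l → 0 ≤ v → Ψ (l * v) ≤ l ^ (m + 1) * Ψ v := by
    intro l v hl hv
    have h3 : Av P Z Φ (l * v) ≤ ∫ ω, l ^ (m + 1) * Φ (Z 0 ω * v) ∂P := by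
      refine integral_mono_ae (hint _ (by positivity)) ((hint _ hv).const_mul _) ?_
      filter_upwards [S.pos] with ω hω
      have h4 := hΦs l (Z 0 ω * v) hl (by positivity)
      have e2 : l * (Z 0 ω * v) = Z 0 ω * (l * v) := by ring
      rwa [e2] at h4
    rwa [integral_const_mul] at h3
  -- classes
  have hclΦ : ∀ a, 0 < a → Cl α (fun x => Φ (a * x)) := by
    intro a ha
    refine ((cl_pow (α := α) hα.le le_rfl).const_mul (B * a ^ α)).of_le
      (hΦm.comp (measurable_const.mul measurable_id)) fun x hx => ?_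
    have hax : 0 ≤ a * x := by positivity
    rw [abs_of_nonneg (hΦ0 _ hax), mul_assoc, ← Real.mul_rpow ha.le hx]
    exact (hΦB _ hax).trans (mul_le_mul_of_nonneg_left (hh_le hδα hδ hax) hB0)
  have hclW : ∀ a, 0 < a → Cl α (fun x => Ψ (a * W a x)) := by
    intro a ha
    refine ((cl_W (α := α) ha hα.le le_rfl).const_mul (B * a ^ α)).of_le
      (hΨm.comp (measurable_const.mul (measurable_W a))) fun x hx => ?_
    have hW := (W_pos ha hx).le
    rw [abs_of_nonneg (hΨ0 _ (by positivity)), mul_assoc, ← Real.mul_rpow ha.le hW]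
    exact hΨ1 _ (by positivity)
  have hκm : ∀ a : ℝ, Measurable (fun x : ℝ => a * x / (1 + a * x)) := fun a =>
    (measurable_const.mul measurable_id).div
      (measurable_const.add (measurable_const.mul measurable_id))
  have hclK : ∀ a, 0 < a → Cl α (fun x => Ψ (a * x / (1 + a * x))) := by
    intro a ha
    refine ((cl_pow (α := α) hα.le le_rfl).const_mul (B * a ^ α)).of_le
      (hΨm.comp (hκm a)) fun x hx => ?_
    have hax : 0 ≤ a * x := by positivity
    have h1 : a * x / (1 + a * x) ≤ a * x := div_le_self hax (by linarith)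
    have h2 : 0 ≤ a * x / (1 + a * x) := by positivity
    rw [abs_of_nonneg (hΨ0 _ h2), mul_assoc, ← Real.mul_rpow ha.le hx]
    exact (hΨ1 _ h2).trans (mul_le_mul_of_nonneg_left (Real.rpow_le_rpow h2 h1 hα.le) hB0)
  have hclG : Cl α (fun x => (1 + x) ^ α - x ^ α) := (cl_V le_rfl).sub (cl_pow hα.le le_rfl)
  -- the representation
  have hrep : ∀ a, 0 < a → a ≤ 1 → Sg P Z ψ a
      = Lam P Z a (fun x => Ψ (a * W a x) - Ψ (a * x / (1 + a * x))) := by
    intro a ha ha1
    have h1 : Sg P Z ψ a = Lam P Z a (fun x => Φ (a * x) - Ψ (a * x / (1 + a * x))) := by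
      unfold Sg
      apply S.Lam_congr ha ha1 (hψ.cl hmα.le ha) ((hclΦ a ha).sub (hclK a ha))
      intro x hx
      rw [hΦe (a * x) (by positivity)]
      ring
    rw [h1, S.Lam_sub ha ha1 (hclΦ a ha) (hclK a ha), S.Lam_inv ha ha1 (hclΦ a ha),
      S.Lam_sub ha ha1 (hclW a ha) (hclK a ha)]
    congr 2
    funext x
    rw [hΨ]
    unfold Av
    congr 1
    funext ω
    congr 1
    ring
  -- a crude bound for the difference
  set C₂ : ℝ := (2 ^ (m + 1) - 1) * B + B * 2 ^ α + |c| * α with hC₂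
  have h2m : (0 : ℝ) ≤ 2 ^ (m + 1) - 1 := by
    have : (1 : ℝ) ≤ 2 ^ (m + 1) := one_le_pow₀ (by norm_num)
    linarith
  have hC₂0 : 0 ≤ C₂ := by positivity
  have hdiff0 : ∀ a x, 0 < a → 0 ≤ x → a * x / (1 + a * x) ≤ a * W a x := by
    intro a x ha hx
    unfold W
    rw [mul_div_assoc']
    apply div_le_div_of_nonneg_right _ (by positivity)
    nlinarith
  have hcrude : ∀ a x, 0 < a → 0 ≤ x →
      |Ψ (a * W a x) - Ψ (a * x / (1 + a * x)) - c * (a ^ α * ((1 + x) ^ α - x ^ α))|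
        ≤ C₂ * a ^ α * (1 + x) ^ (α - 1) := by
    intro a x ha hx
    have hW := (W_pos ha hx).le
    have haα := Real.rpow_pos_of_pos ha α
    have hV1 : 0 < (1 + x) ^ (α - 1) := Real.rpow_pos_of_pos (by linarith) _
    have hκ0 : 0 ≤ a * x / (1 + a * x) := by positivity
    have h0 := hΨmono _ _ hκ0 (hdiff0 a x ha hx)
    have hG0 : 0 ≤ (1 + x) ^ α - x ^ α := by
      have := one_le_V_sub_x hα1 hx; linarith
    have hG1 := V_sub_x_le hα1 hx
    have h1 : Ψ (a * W a x) - Ψ (a * x / (1 + a * x))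
        ≤ ((2 ^ (m + 1) - 1) * B + B * 2 ^ α) * (a ^ α * (1 + x) ^ (α - 1)) := by
      have hp : 0 ≤ a ^ α * (1 + x) ^ (α - 1) := by positivity
      rcases le_total x 1 with h | h
      · have h2 : Ψ (a * W a x) ≤ B * (a * (1 + x)) ^ α := by
          refine (hΨ1 _ (by positivity)).trans (mul_le_mul_of_nonneg_left ?_ hB0)
          exact Real.rpow_le_rpow (by positivity)
            (mul_le_mul_of_nonneg_left (W_le ha hx) ha.le) hα.le
        have h3 : (a * (1 + x)) ^ α ≤ 2 ^ α * (a ^ α * (1 + x) ^ (α - 1)) := by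
          rw [Real.mul_rpow ha.le (by linarith)]
          have e : (1 + x) ^ α = (1 + x) ^ (α - 1) * (1 + x) := by
            rw [Real.rpow_sub_one (by linarith)]; field_simp
          have h4 : 1 + x ≤ 2 ^ α := by
            calc 1 + x ≤ 2 := by linarith
              _ = (2 : ℝ) ^ (1 : ℝ) := (Real.rpow_one 2).symm
              _ ≤ 2 ^ α := Real.rpow_le_rpow_of_exponent_le (by norm_num) hα1
          rw [e]
          have := mul_le_mul_of_nonneg_left h4 hp
          linarith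
        have h4 := mul_le_mul_of_nonneg_left h3 hB0
        have h5 := hΨ0 _ hκ0
        have h6 : 0 ≤ (2 ^ (m + 1) - 1) * B * (a ^ α * (1 + x) ^ (α - 1)) := by positivity
        linarith
      · have hx0 : 0 < x := by linarith
        have hs0 : 0 ≤ x⁻¹ := by positivity
        have hs1 : x⁻¹ ≤ 1 := inv_le_one_of_one_le₀ h
        have e1 : a * W a x = (1 + x⁻¹) * (a * x / (1 + a * x)) := by
          unfold W
          have : 1 + a * x ≠ 0 := by positivity
          field_simp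
          ring
        have h2 := hΨs (1 + x⁻¹) (a * x / (1 + a * x)) (by linarith) hκ0
        rw [← e1] at h2
        have h3 := pow_sub_one_le (m + 1) hs0 hs1
        have h4 : Ψ (a * x / (1 + a * x)) ≤ B * (a ^ α * x ^ α) := by
          rw [← Real.mul_rpow ha.le hx]
          refine (hΨ1 _ hκ0).trans (mul_le_mul_of_nonneg_left ?_ hB0)
          exact Real.rpow_le_rpow hκ0 (div_le_self (by positivity) (by nlinarith)) hα.le
        have h5 := hΨ0 _ hκ0
        have h6 : Ψ (a * W a x) - Ψ (a * x / (1 + a * x))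
            ≤ ((2 ^ (m + 1) - 1) * x⁻¹) * (B * (a ^ α * x ^ α)) := by
          calc Ψ (a * W a x) - Ψ (a * x / (1 + a * x))
              ≤ ((1 + x⁻¹) ^ (m + 1) - 1) * Ψ (a * x / (1 + a * x)) := by linarith
            _ ≤ ((2 ^ (m + 1) - 1) * x⁻¹) * Ψ (a * x / (1 + a * x)) :=
                mul_le_mul_of_nonneg_right h3 h5
            _ ≤ _ := mul_le_mul_of_nonneg_left h4 (by positivity)
        have e2 : x⁻¹ * x ^ α = x ^ (α - 1) := by
          rw [Real.rpow_sub_one hx0.ne', div_eq_mul_inv, mul_comm]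
        have h7 : x ^ (α - 1) ≤ (1 + x) ^ (α - 1) :=
          Real.rpow_le_rpow hx (by linarith) (by linarith)
        have e3 : ((2 ^ (m + 1) - 1) * x⁻¹) * (B * (a ^ α * x ^ α))
            = (2 ^ (m + 1) - 1) * B * a ^ α * x ^ (α - 1) := by rw [← e2]; ring
        rw [e3] at h6
        have h8 : (2 ^ (m + 1) - 1) * B * a ^ α * x ^ (α - 1)
            ≤ (2 ^ (m + 1) - 1) * B * a ^ α * (1 + x) ^ (α - 1) :=
          mul_le_mul_of_nonneg_left h7 (by positivity)
        have h9 : 0 ≤ B * 2 ^ α * (a ^ α * (1 + x) ^ (α - 1)) := by positivity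
        linarith
    have h2 : |c * (a ^ α * ((1 + x) ^ α - x ^ α))| ≤ |c| * α * (a ^ α * (1 + x) ^ (α - 1)) := by
      rw [abs_mul, abs_of_nonneg (mul_nonneg haα.le hG0)]
      have h3 := mul_le_mul_of_nonneg_left hG1 (mul_nonneg (abs_nonneg c) haα.le)
      linarith
    have h3 := abs_sub (Ψ (a * W a x) - Ψ (a * x / (1 + a * x)))
      (c * (a ^ α * ((1 + x) ^ α - x ^ α)))
    have h4 : |Ψ (a * W a x) - Ψ (a * x / (1 + a * x))|
        = Ψ (a * W a x) - Ψ (a * x / (1 + a * x)) := abs_of_nonneg (by linarith)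
    rw [h4] at h3
    refine h3.trans ?_
    rw [hC₂]
    linarith
  obtain ⟨CV, hCV0, hCV⟩ := S.V_bound (s := α - 1 / 2) (by linarith) (by linarith)
  -- main estimate
  have hmain : Tendsto (fun a => Sg P Z ψ a / a ^ α - c * G P Z α a) (𝓝[>] 0) (𝓝 0) := by
    rw [Metric.tendsto_nhds]
    intro ζ hζ
    -- choose K
    obtain ⟨K, hK1, hK⟩ : ∃ K : ℝ, 1 ≤ K ∧ C₂ * CV * (1 + K) ^ (-(1 / 2) : ℝ) < ζ / 4 := by
      have h1 : Tendsto (fun K : ℝ => C₂ * CV * (1 + K) ^ (-(1 / 2) : ℝ)) atTop (𝓝 0) := by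
        have h2 : Tendsto (fun K : ℝ => (1 + K) ^ (-(1 / 2) : ℝ)) atTop (𝓝 0) :=
          (tendsto_rpow_neg_atTop (by norm_num : (0 : ℝ) < 1 / 2)).comp
            (tendsto_atTop_add_const_left _ 1 tendsto_id)
        have h3 := h2.const_mul (C₂ * CV)
        rwa [mul_zero] at h3
      obtain ⟨K, h2, h3⟩ := ((h1.eventually_lt_const (by positivity : 0 < ζ / 4)).and
        (eventually_ge_atTop 1)).exists
      exact ⟨K, h3, h2⟩
    have hVK : 0 < (1 + K) ^ α := Real.rpow_pos_of_pos (by linarith) _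
    have hVK1 : 0 < (1 + K) ^ (α - 1) := Real.rpow_pos_of_pos (by linarith) _
    -- choose η
    set η : ℝ := ζ / 4 / (2 * (1 + K) ^ α) with hη
    have hη0 : 0 < η := by positivity
    have hηK : 2 * η * (1 + K) ^ α = ζ / 4 := by rw [hη]; field_simp
    have hev : ∀ᶠ v in 𝓝[>] (0 : ℝ), |Ψ v / v ^ α - c| < η := by
      have := (Metric.tendsto_nhds.1 hc) η hη0
      simpa only [Real.dist_eq] using this
    obtain ⟨v₀, hv₀, hv₀2⟩ := mem_nhdsGT_iff_exists_Ioo_subset.1 hev
    have hv₀ : 0 < v₀ := hv₀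
    have hΨc : ∀ v, 0 ≤ v → v < v₀ → |Ψ v - c * v ^ α| ≤ η * v ^ α := by
      intro v hv hvv
      rcases hv.eq_or_lt with rfl | hv0
      · have h1 := hΨ1 0 le_rfl
        have h2 := hΨ0 0 le_rfl
        rw [Real.zero_rpow hα.ne', mul_zero] at h1
        rw [Real.zero_rpow hα.ne', mul_zero, mul_zero, sub_zero, abs_of_nonneg h2]
        exact h1
      · have h1 : |Ψ v / v ^ α - c| < η := hv₀2 ⟨hv0, hvv⟩
        have hvα := Real.rpow_pos_of_pos hv0 α
        have e : Ψ v - c * v ^ α = (Ψ v / v ^ α - c) * v ^ α := by field_simp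
        rw [e, abs_mul, abs_of_pos hvα]
        exact mul_le_mul_of_nonneg_right h1.le hvα.le
    have hsmall : ∀ᶠ a in 𝓝[>] (0 : ℝ), |c| * α * α * (1 + K) ^ (α - 1) * K * a < ζ / 4 := by
      have h1 : Tendsto (fun a : ℝ => |c| * α * α * (1 + K) ^ (α - 1) * K * a) (𝓝[>] 0) (𝓝 0) := by
        have h2 : Tendsto (fun a : ℝ => a) (𝓝[>] 0) (𝓝 0) :=
          tendsto_id.mono_left nhdsWithin_le_nhds
        have := h2.const_mul (|c| * α * α * (1 + K) ^ (α - 1) * K)
        rwa [mul_zero] at this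
      exact h1.eventually_lt_const (by positivity)
    have hsmall2 : ∀ᶠ a in 𝓝[>] (0 : ℝ), a * (1 + K) < v₀ := by
      have h1 : Tendsto (fun a : ℝ => a * (1 + K)) (𝓝[>] 0) (𝓝 0) := by
        have h2 : Tendsto (fun a : ℝ => a) (𝓝[>] 0) (𝓝 0) :=
          tendsto_id.mono_left nhdsWithin_le_nhds
        have := h2.mul_const (1 + K)
        rwa [zero_mul] at this
      exact h1.eventually_lt_const hv₀
    filter_upwards [ev_Ioc, hsmall, hsmall2] with a ha hs hs2
    have ha0 := ha.1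
    have haα := Real.rpow_pos_of_pos ha0 α
    have hcl1 := (hclW a ha0).sub (hclK a ha0)
    have hcl2 := hclG.const_mul (c * a ^ α)
    have hcl3 := (Cl.const (α := α) hα.le (a ^ α * (ζ / 4 + ζ / 4)))
    have hcl4 : Cl α (fun x : ℝ => (1 + x) ^ (α - 1 / 2)) := cl_V (by linarith)
    have hpt : ∀ x : ℝ, 0 ≤ x → |(Ψ (a * W a x) - Ψ (a * x / (1 + a * x)))
        - (c * a ^ α) * ((1 + x) ^ α - x ^ α)|
        ≤ a ^ α * (ζ / 4 + ζ / 4)
          + (a ^ α * (C₂ * (1 + K) ^ (-(1 / 2) : ℝ))) * (1 + x) ^ (α - 1 / 2) := by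
      intro x hx
      have hxh : 0 < (1 + x) ^ (α - 1 / 2) := Real.rpow_pos_of_pos (by linarith) _
      have hKh : 0 < (1 + K) ^ (-(1 / 2) : ℝ) := Real.rpow_pos_of_pos (by linarith) _
      rcases le_total x K with h | h
      · -- small x
        have hWV := W_le ha0 hx
        have hW := (W_pos ha0 hx).le
        have hv1 : a * W a x < v₀ := by
          have : a * W a x ≤ a * (1 + K) :=
            mul_le_mul_of_nonneg_left (hWV.trans (by linarith)) ha0.le
          linarith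
        have hκ0 : 0 ≤ a * x / (1 + a * x) := by positivity
        have hv2 : a * x / (1 + a * x) < v₀ := lt_of_le_of_lt (hdiff0 a x ha0 hx) hv1
        have h1 := hΨc _ (by positivity) hv1
        have h2 := hΨc _ hκ0 hv2
        have hH : 0 < 1 + a * x := by positivity
        have hHα : 0 < (1 + a * x) ^ (-α) := Real.rpow_pos_of_pos hH _
        have e1 : (a * W a x) ^ α = a ^ α * (1 + x) ^ α * (1 + a * x) ^ (-α) := by
          unfold W
          rw [Real.mul_rpow ha0.le (by positivity), Real.div_rpow (by linarith) hH.le,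
            Real.rpow_neg hH.le]
          ring
        have e2 : (a * x / (1 + a * x)) ^ α = a ^ α * x ^ α * (1 + a * x) ^ (-α) := by
          rw [Real.div_rpow (by positivity) hH.le, Real.mul_rpow ha0.le hx, Real.rpow_neg hH.le]
          ring
        have hle1 : (a * W a x) ^ α ≤ a ^ α * (1 + K) ^ α := by
          rw [← Real.mul_rpow ha0.le (by linarith)]
          exact Real.rpow_le_rpow (by positivity)
            (mul_le_mul_of_nonneg_left (hWV.trans (by linarith)) ha0.le) hα.le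
        have hle2 : (a * x / (1 + a * x)) ^ α ≤ a ^ α * (1 + K) ^ α :=
          (Real.rpow_le_rpow hκ0 (hdiff0 a x ha0 hx) hα.le).trans hle1
        have hB1 : 0 ≤ 1 - (1 + a * x) ^ (-α) := by
          have : (1 + a * x) ^ (-α) ≤ 1 :=
            Real.rpow_le_one_of_one_le_of_nonpos (by nlinarith [mul_nonneg ha0.le hx])
              (by linarith)
          linarith
        have hB2 : 1 - (1 + a * x) ^ (-α) ≤ α * (a * K) := by
          have h3 := one_add_mul_self_le_rpow_one_add (s := a * x)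
            (by nlinarith [mul_nonneg ha0.le hx]) hα1
          have h5 : 1 + α * -(kap a x) ≤ (1 + -(kap a x)) ^ α :=
            one_add_mul_self_le_rpow_one_add (by have := kap_le_one ha0 hx; linarith) hα1
          have h6 : 1 + -(kap a x) = (1 + a * x)⁻¹ := by
            unfold kap; field_simp; ring
          rw [h6, Real.inv_rpow hH.le, ← Real.rpow_neg hH.le] at h5
          have h7 : kap a x ≤ a * K := by
            unfold kap
            refine (div_le_self (by positivity) (by nlinarith [mul_nonneg ha0.le hx])).trans ?_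
            exact mul_le_mul_of_nonneg_left h ha0.le
          have := mul_le_mul_of_nonneg_left h7 hα.le
          linarith
        have hG0 : 0 ≤ (1 + x) ^ α - x ^ α := by
          have := one_le_V_sub_x hα1 hx; linarith
        have hG1 : (1 + x) ^ α - x ^ α ≤ α * (1 + K) ^ (α - 1) := by
          refine (V_sub_x_le hα1 hx).trans (mul_le_mul_of_nonneg_left ?_ hα.le)
          exact Real.rpow_le_rpow (by linarith) (by linarith) (by linarith)
        have e3 : (Ψ (a * W a x) - Ψ (a * x / (1 + a * x)))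
            - (c * a ^ α) * ((1 + x) ^ α - x ^ α)
            = (Ψ (a * W a x) - c * (a * W a x) ^ α)
              - (Ψ (a * x / (1 + a * x)) - c * (a * x / (1 + a * x)) ^ α)
              - c * a ^ α * (((1 + x) ^ α - x ^ α) * (1 - (1 + a * x) ^ (-α))) := by
          rw [e1, e2]; ring
        rw [e3]
        have h3 : |c * a ^ α * (((1 + x) ^ α - x ^ α) * (1 - (1 + a * x) ^ (-α)))|
            ≤ a ^ α * (ζ / 4) := by
          rw [abs_mul, abs_mul, abs_of_pos haα, abs_of_nonneg (mul_nonneg hG0 hB1)]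
          have h4 : ((1 + x) ^ α - x ^ α) * (1 - (1 + a * x) ^ (-α))
              ≤ (α * (1 + K) ^ (α - 1)) * (α * (a * K)) :=
            mul_le_mul hG1 hB2 hB1 (by positivity)
          have h5 := mul_le_mul_of_nonneg_left h4 (mul_nonneg (abs_nonneg c) haα.le)
          have h6 := mul_le_mul_of_nonneg_left hs.le haα.le
          linarith
        have h4 : |Ψ (a * W a x) - c * (a * W a x) ^ α| ≤ η * (a ^ α * (1 + K) ^ α) :=
          h1.trans (mul_le_mul_of_nonneg_left hle1 hη0.le)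
        have h5 : |Ψ (a * x / (1 + a * x)) - c * (a * x / (1 + a * x)) ^ α|
            ≤ η * (a ^ α * (1 + K) ^ α) := h2.trans (mul_le_mul_of_nonneg_left hle2 hη0.le)
        have h6 : η * (a ^ α * (1 + K) ^ α) + η * (a ^ α * (1 + K) ^ α) = a ^ α * (ζ / 4) := by
          rw [← hηK]; ring
        have h7 : 0 ≤ (a ^ α * (C₂ * (1 + K) ^ (-(1 / 2) : ℝ))) * (1 + x) ^ (α - 1 / 2) := by
          positivity
        have h8 := abs_sub ((Ψ (a * W a x) - c * (a * W a x) ^ α)
              - (Ψ (a * x / (1 + a * x)) - c * (a * x / (1 + a * x)) ^ α))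
              (c * a ^ α * (((1 + x) ^ α - x ^ α) * (1 - (1 + a * x) ^ (-α))))
        have h9 := abs_sub (Ψ (a * W a x) - c * (a * W a x) ^ α)
              (Ψ (a * x / (1 + a * x)) - c * (a * x / (1 + a * x)) ^ α)
        linarith
      · -- large x
        have h1 := hcrude a x ha0 hx
        have e1 : c * (a ^ α * ((1 + x) ^ α - x ^ α)) = (c * a ^ α) * ((1 + x) ^ α - x ^ α) := by
          ring
        rw [e1] at h1
        refine h1.trans ?_
        have e2 : (1 + x) ^ (α - 1) = (1 + x) ^ (α - 1 / 2) * (1 + x) ^ (-(1 / 2) : ℝ) := by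
          rw [← Real.rpow_add (by linarith)]; congr 1; ring
        have h2 : (1 + x) ^ (-(1 / 2) : ℝ) ≤ (1 + K) ^ (-(1 / 2) : ℝ) :=
          Real.rpow_le_rpow_of_nonpos (by linarith) (by linarith) (by norm_num)
        rw [e2]
        have h3 := mul_le_mul_of_nonneg_left h2
          (by positivity : 0 ≤ C₂ * a ^ α * (1 + x) ^ (α - 1 / 2))
        have h4 : 0 ≤ a ^ α * (ζ / 4 + ζ / 4) := by positivity
        linarith
    have h1 := S.Lam_abs_le ha0 ha.2 (hcl1.sub hcl2) (hcl3.add (hcl4.const_mul _)) hpt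
    rw [S.Lam_add ha0 ha.2 hcl3 (hcl4.const_mul _), S.Lam_const, S.Lam_const_mul ha0 ha.2 hcl4,
      S.Lam_sub ha0 ha.2 hcl1 hcl2, S.Lam_const_mul ha0 ha.2 hclG, ← hrep a ha0 ha.2] at h1
    have h2 : a ^ α * (C₂ * (1 + K) ^ (-(1 / 2) : ℝ)) * Lam P Z a (fun x => (1 + x) ^ (α - 1 / 2))
        ≤ a ^ α * (ζ / 4) := by
      have hKh : 0 < (1 + K) ^ (-(1 / 2) : ℝ) := Real.rpow_pos_of_pos (by linarith) _
      have h3 := mul_le_mul_of_nonneg_left (hCV a ha0 ha.2)
        (by positivity : 0 ≤ a ^ α * (C₂ * (1 + K) ^ (-(1 / 2) : ℝ)))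
      have h4 := mul_le_mul_of_nonneg_left hK.le haα.le
      linarith
    rw [Real.dist_0_eq_abs]
    have e : Sg P Z ψ a / a ^ α - c * G P Z α a
        = (Sg P Z ψ a - c * a ^ α * G P Z α a) / a ^ α := by field_simp
    rw [e, abs_div, abs_of_pos haα, div_lt_iff₀ haα]
    have h3 : |Sg P Z ψ a - c * a ^ α * G P Z α a| ≤ a ^ α * (ζ / 4 + ζ / 4) + a ^ α * (ζ / 4) := by
      refine le_trans ?_ (h1.trans (by linarith))
      exact le_of_eq rfl
    have h4 : 0 < ζ * a ^ α := by positivity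
    linarith
  have h := hmain.add (hG₀.const_mul c)
  rw [zero_add] at h
  refine h.congr fun a => ?_
  ring

end

end Pool.Agent.DH97
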