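import Pool.Agent.DH97.A2

/-!
Derrida-Hilhorst amplitude, part T: an Abelian theorem and the singularity of the moments.
-/

open MeasureTheory ProbabilityTheory Filter Topology Asymptotics Set
open Pool.Agent.H741R4.DH

namespace Pool.Agent.DH97

noncomputable section

/-- Abelian theorem. -/
lemma abel {g : ℝ → ℝ} {m α c D : ℝ} (hmα : m < α) (hD : 0 ≤ D)
    (h0 : ∀ v, 0 < v → 0 ≤ g v) (hb : ∀ v, 0 < v → g v ≤ D * v ^ m)
    (hc : Tendsto (fun v => g v / v ^ α) (𝓝[>] 0) (𝓝 c))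
    (hi : ∀ s, m < s → s < α → IntegrableOn (fun v : ℝ => v ^ (-s - 1) * g v) (Ioi 0)) :
    Tendsto (fun s => (α - s) * ∫ v in Ioi (0 : ℝ), v ^ (-s - 1) * g v) (𝓝[<] α) (𝓝 c) := by
  rw [Metric.tendsto_nhds]
  intro η hη
  have hev : ∀ᶠ v in 𝓝[>] (0 : ℝ), |g v / v ^ α - c| < η / 2 := by
    have := (Metric.tendsto_nhds.1 hc) (η / 2) (by positivity)
    simpa only [Real.dist_eq] using this
  obtain ⟨v₀, hv₀, hv₀2⟩ := mem_nhdsGT_iff_exists_Ioo_subset.1 hev
  set r : ℝ := v₀ / 2 with hr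
  have hv₀ : 0 < v₀ := hv₀
  have hr0 : 0 < r := by rw [hr]; linarith
  have hrv : r < v₀ := by rw [hr]; linarith
  have hclose : ∀ v, 0 < v → v ≤ r → |g v - c * v ^ α| ≤ η / 2 * v ^ α := by
    intro v hv hvr
    have h1 : |g v / v ^ α - c| < η / 2 := hv₀2 ⟨hv, by linarith⟩
    have hvα := Real.rpow_pos_of_pos hv α
    have e : g v - c * v ^ α = (g v / v ^ α - c) * v ^ α := by field_simp
    rw [e, abs_mul, abs_of_pos hvα]
    exact mul_le_mul_of_nonneg_right h1.le hvα.le
  -- limits of the elementary terms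
  have hsub : Tendsto (fun s : ℝ => α - s) (𝓝[<] α) (𝓝 0) := by
    have h : Tendsto (fun s : ℝ => α - s) (𝓝 α) (𝓝 (α - α)) := tendsto_const_nhds.sub tendsto_id
    rw [sub_self] at h
    exact h.mono_left nhdsWithin_le_nhds
  have hrp : Tendsto (fun s : ℝ => r ^ (α - s)) (𝓝[<] α) (𝓝 1) := by
    have h : Tendsto (fun t : ℝ => r ^ t) (𝓝 0) (𝓝 (r ^ (0 : ℝ))) :=
      (Real.continuousAt_const_rpow hr0.ne').tendsto
    rw [Real.rpow_zero] at h
    exact h.comp hsub
  have hid : Tendsto (fun s : ℝ => s) (𝓝[<] α) (𝓝 α) := tendsto_id.mono_left nhdsWithin_le_nhds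
  have hrm : Tendsto (fun s : ℝ => r ^ (m - s)) (𝓝[<] α) (𝓝 (r ^ (m - α))) := by
    have h : Tendsto (fun t : ℝ => r ^ t) (𝓝 (m - α)) (𝓝 (r ^ (m - α))) :=
      (Real.continuousAt_const_rpow hr0.ne').tendsto
    exact h.comp (hid.const_sub m)
  have hlim : Tendsto (fun s : ℝ => |c| * |r ^ (α - s) - 1| + η / 2 * r ^ (α - s)
      + (α - s) * (D * (r ^ (m - s) / (s - m)))) (𝓝[<] α) (𝓝 (η / 2)) := by
    have h1 : Tendsto (fun s : ℝ => |c| * |r ^ (α - s) - 1|) (𝓝[<] α) (𝓝 0) := by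
      have h := ((hrp.sub_const 1).abs).const_mul |c|
      simpa using h
    have h2 : Tendsto (fun s : ℝ => η / 2 * r ^ (α - s)) (𝓝[<] α) (𝓝 (η / 2)) := by
      have h := hrp.const_mul (η / 2)
      rwa [mul_one] at h
    have h3 : Tendsto (fun s : ℝ => (α - s) * (D * (r ^ (m - s) / (s - m)))) (𝓝[<] α) (𝓝 0) := by
      have h := hsub.mul ((hrm.div (hid.sub_const m) (by linarith)).const_mul D)
      rwa [zero_mul] at h
    have h := (h1.add h2).add h3
    rwa [zero_add, add_zero] at h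
  filter_upwards [hlim.eventually_lt_const (by linarith : η / 2 < η), Ioo_mem_nhdsLT hmα]
    with s hs hsI
  have hms : m < s := hsI.1
  have hsα : s < α := hsI.2
  have hint := hi s hms hsα
  have hI1 : IntegrableOn (fun v : ℝ => v ^ (-s - 1) * g v) (Ioc 0 r) :=
    hint.mono_set Ioc_subset_Ioi_self
  have hI2 : IntegrableOn (fun v : ℝ => v ^ (-s - 1) * g v) (Ioi r) :=
    hint.mono_set (Ioi_subset_Ioi hr0.le)
  have hsplit : ∫ v in Ioi (0 : ℝ), v ^ (-s - 1) * g v
      = (∫ v in Ioc (0 : ℝ) r, v ^ (-s - 1) * g v) + ∫ v in Ioi r, v ^ (-s - 1) * g v := by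
    rw [← Ioc_union_Ioi_eq_Ioi hr0.le]
    exact setIntegral_union (Ioc_disjoint_Ioi le_rfl) measurableSet_Ioi hI1 hI2
  -- the power integral
  have hpi : IntegrableOn (fun v : ℝ => v ^ (α - s - 1)) (Ioc 0 r) := by
    have h := intervalIntegral.intervalIntegrable_rpow' (a := 0) (b := r) (r := α - s - 1)
      (by linarith)
    exact (intervalIntegrable_iff_integrableOn_Ioc_of_le hr0.le).1 h
  have hpv : ∫ v in Ioc (0 : ℝ) r, v ^ (α - s - 1) = r ^ (α - s) / (α - s) := by
    rw [← intervalIntegral.integral_of_le hr0.le, integral_rpow (Or.inl (by linarith))]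
    have e : α - s - 1 + 1 = α - s := by ring
    rw [e, Real.zero_rpow (by linarith), sub_zero]
  have h1 : |(∫ v in Ioc (0 : ℝ) r, v ^ (-s - 1) * g v) - c * (r ^ (α - s) / (α - s))|
      ≤ η / 2 * (r ^ (α - s) / (α - s)) := by
    rw [← hpv, ← integral_const_mul, ← integral_const_mul, ← integral_sub hI1 (hpi.const_mul c)]
    rw [← Real.norm_eq_abs]
    refine norm_integral_le_of_norm_le (hpi.const_mul _) ?_
    rw [ae_restrict_iff' measurableSet_Ioc]
    refine Eventually.of_forall fun v hv => ?_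
    have hv0 : 0 < v := hv.1
    have hvp := Real.rpow_pos_of_pos hv0 (-s - 1)
    have e : v ^ (α - s - 1) = v ^ (-s - 1) * v ^ α := by
      rw [← Real.rpow_add hv0]; congr 1; ring
    rw [Real.norm_eq_abs, e]
    have e2 : v ^ (-s - 1) * g v - c * (v ^ (-s - 1) * v ^ α)
        = v ^ (-s - 1) * (g v - c * v ^ α) := by ring
    rw [e2, abs_mul, abs_of_pos hvp]
    have h2 := mul_le_mul_of_nonneg_left (hclose v hv0 hv.2) hvp.le
    linarith
  have h2 : (∫ v in Ioi r, v ^ (-s - 1) * g v) ≤ D * (r ^ (m - s) / (s - m)) := by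
    have hp2 : IntegrableOn (fun v : ℝ => v ^ (m - s - 1)) (Ioi r) :=
      integrableOn_Ioi_rpow_of_lt (by linarith) hr0
    have hpv2 : ∫ v in Ioi r, v ^ (m - s - 1) = r ^ (m - s) / (s - m) := by
      rw [integral_Ioi_rpow_of_lt (by linarith) hr0]
      have e : m - s - 1 + 1 = m - s := by ring
      rw [e, neg_div, ← div_neg, neg_sub]
    rw [← hpv2, ← integral_const_mul]
    refine setIntegral_mono_on hI2 (hp2.const_mul D) measurableSet_Ioi fun v hv => ?_
    have hv0 : 0 < v := lt_trans hr0 hv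
    have hvp := Real.rpow_pos_of_pos hv0 (-s - 1)
    have e : v ^ (m - s - 1) = v ^ (-s - 1) * v ^ m := by
      rw [← Real.rpow_add hv0]; congr 1; ring
    rw [e]
    have h3 := mul_le_mul_of_nonneg_left (hb v hv0) hvp.le
    linarith
  have h3 : 0 ≤ ∫ v in Ioi r, v ^ (-s - 1) * g v := by
    refine setIntegral_nonneg measurableSet_Ioi fun v hv => ?_
    have hv0 : 0 < v := lt_trans hr0 hv
    exact mul_nonneg (Real.rpow_nonneg hv0.le _) (h0 v hv0)
  rw [Real.dist_eq, hsplit]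
  refine lt_of_le_of_lt ?_ hs
  have hαs : 0 < α - s := by linarith
  set A := ∫ v in Ioc (0 : ℝ) r, v ^ (-s - 1) * g v with hA
  set T := ∫ v in Ioi r, v ^ (-s - 1) * g v with hT
  have e : (α - s) * (A + T) - c = (α - s) * (A - c * (r ^ (α - s) / (α - s)))
      + c * (r ^ (α - s) - 1) + (α - s) * T := by
    field_simp
    ring
  have h4 : |(α - s) * (A - c * (r ^ (α - s) / (α - s)))| ≤ η / 2 * r ^ (α - s) := by
    rw [abs_mul, abs_of_pos hαs]
    have h5 := mul_le_mul_of_nonneg_left h1 hαs.le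
    have e3 : (α - s) * (η / 2 * (r ^ (α - s) / (α - s))) = η / 2 * r ^ (α - s) := by
      field_simp
    rw [e3] at h5
    exact h5
  have h5 : |(α - s) * T| ≤ (α - s) * (D * (r ^ (m - s) / (s - m))) := by
    rw [abs_of_nonneg (mul_nonneg hαs.le h3)]
    exact mul_le_mul_of_nonneg_left h2 hαs.le
  rw [e]
  have h6 : |c * (r ^ (α - s) - 1)| = |c| * |r ^ (α - s) - 1| := abs_mul _ _
  have h7 := abs_add_three ((α - s) * (A - c * (r ^ (α - s) / (α - s))))
    (c * (r ^ (α - s) - 1)) ((α - s) * T)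
  linarith

variable {Ω : Type*} [mΩ : MeasurableSpace Ω] {P : Measure Ω} {Z : ℕ → Ω → ℝ} {α : ℝ}

lemma z_slope {z s α : ℝ} (hz : 0 < z) (hs : s < α) :
    z ^ s * Real.log z ≤ (z ^ α - z ^ s) / (α - s) ∧
      (z ^ α - z ^ s) / (α - s) ≤ z ^ α * Real.log z := by
  have hαs : 0 < α - s := by linarith
  have hzs := Real.rpow_pos_of_pos hz s
  have hzα := Real.rpow_pos_of_pos hz α
  have e1 : z ^ α = z ^ s * Real.exp ((α - s) * Real.log z) := by
    rw [mul_comm (α - s), ← Real.rpow_def_of_pos hz, ← Real.rpow_add hz]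
    congr 1; ring
  have e2 : z ^ s = z ^ α * Real.exp (-((α - s) * Real.log z)) := by
    rw [e1, mul_assoc, ← Real.exp_add]
    simp
  have h1 := Real.add_one_le_exp ((α - s) * Real.log z)
  have h2 := Real.add_one_le_exp (-((α - s) * Real.log z))
  constructor
  · rw [le_div_iff₀ hαs]
    have h3 := mul_le_mul_of_nonneg_left h1 hzs.le
    rw [← e1] at h3
    linarith
  · rw [div_le_iff₀ hαs]
    have h3 := mul_le_mul_of_nonneg_left h2 hzα.le
    rw [← e2] at h3
    linarith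

lemma z_log_ge {z s : ℝ} (hz : 0 < z) (hs : 1 / 2 ≤ s) : -2 ≤ z ^ s * Real.log z := by
  rcases le_total z 1 with h | h
  · have h1 : z ^ s ≤ z ^ (1 / 2 : ℝ) := Real.rpow_le_rpow_of_exponent_ge hz h hs
    have h2 : Real.log z ≤ 0 := Real.log_nonpos hz.le h
    have h3 := Real.log_le_rpow_div (inv_pos.2 hz).le (by norm_num : (0 : ℝ) < 1 / 2)
    rw [Real.log_inv, Real.inv_rpow hz.le] at h3
    have hzp := Real.rpow_pos_of_pos hz (1 / 2)
    have h4 : z ^ (1 / 2 : ℝ) * (-Real.log z) ≤ z ^ (1 / 2 : ℝ) * ((z ^ (1 / 2 : ℝ))⁻¹ / (1 / 2)) :=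
      mul_le_mul_of_nonneg_left h3 hzp.le
    have h5 : z ^ (1 / 2 : ℝ) * ((z ^ (1 / 2 : ℝ))⁻¹ / (1 / 2)) = 2 := by field_simp
    have h6 : z ^ (1 / 2 : ℝ) * Real.log z ≤ z ^ s * Real.log z := mul_le_mul_of_nonpos_right h1 h2
    linarith
  · have : 0 ≤ z ^ s * Real.log z := mul_nonneg (Real.rpow_nonneg hz.le _) (Real.log_nonneg h)
    linarith

/-- The derivative of the moment function at `α`. -/
lemma q_slope (S : Setup P Z α)
    (hlog : Integrable (fun ω => (Z 0 ω) ^ α * Real.log (Z 0 ω)) P) :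
    Tendsto (fun s => (1 - ∫ ω, (Z 0 ω) ^ s ∂P) / (α - s)) (𝓝[<] α) (𝓝 (mm P Z α)) := by
  have hP := S.prob
  have hα1 := S.hα
  have h1 : Tendsto (fun s => ∫ ω, ((Z 0 ω) ^ α - (Z 0 ω) ^ s) / (α - s) ∂P) (𝓝[<] α)
      (𝓝 (mm P Z α)) := by
    unfold mm
    refine tendsto_integral_filter_of_dominated_convergence
      (fun ω => |(Z 0 ω) ^ α * Real.log (Z 0 ω)| + 2)
      (Eventually.of_forall fun s => ((((S.meas 0).pow_const α).sub
        ((S.meas 0).pow_const s)).div_const _).aestronglyMeasurable)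
      ?_ (hlog.abs.add (integrable_const _)) ?_
    · filter_upwards [Ioo_mem_nhdsLT (by linarith : (1 / 2 : ℝ) < α)] with s hs
      filter_upwards [S.pos] with ω hω
      obtain ⟨h2, h3⟩ := z_slope hω hs.2
      have h4 := z_log_ge hω hs.1.le
      have h5 := le_abs_self ((Z 0 ω) ^ α * Real.log (Z 0 ω))
      have h6 := abs_nonneg ((Z 0 ω) ^ α * Real.log (Z 0 ω))
      rw [Real.norm_eq_abs, abs_le]
      constructor <;> linarith
    · filter_upwards [S.pos] with ω hω
      have hd : HasDerivAt (fun s : ℝ => (Z 0 ω) ^ s) ((Z 0 ω) ^ α * Real.log (Z 0 ω)) α := by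
        have h := (Real.hasStrictDerivAt_const_rpow hω α).hasDerivAt
        exact h
      have h2 := (hasDerivAt_iff_tendsto_slope.1 hd).mono_left
        (nhdsWithin_mono α (fun x (hx : x < α) => (ne_of_lt hx : x ≠ α)))
      refine h2.congr' ?_
      filter_upwards [self_mem_nhdsWithin] with s hs
      have hs : s < α := hs
      rw [slope_def_field]
      have e1 : s - α ≠ 0 := by linarith
      have e2 : α - s ≠ 0 := by linarith
      rw [div_eq_div_iff e1 e2]
      ring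
  refine h1.congr' ?_
  filter_upwards [Ioo_mem_nhdsLT S.α_pos] with s hs
  rw [integral_div, integral_sub S.int_α (S.int_rpow hs.1.le hs.2.le), S.one]

lemma q_lim (S : Setup P Z α) : Tendsto (fun s => ∫ ω, (Z 0 ω) ^ s ∂P) (𝓝[<] α) (𝓝 1) := by
  have hP := S.prob
  rw [← S.one]
  refine tendsto_integral_filter_of_dominated_convergence
    (fun ω => 1 + (Z 0 ω) ^ α)
    (Eventually.of_forall fun s => ((S.meas 0).pow_const s).aestronglyMeasurable)
    ?_ ((integrable_const _).add S.int_α) ?_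
  · filter_upwards [Ioo_mem_nhdsLT S.α_pos] with s hs
    filter_upwards [S.pos] with ω hω
    rw [Real.norm_eq_abs, abs_of_nonneg (Real.rpow_nonneg hω.le _)]
    rcases le_total (Z 0 ω) 1 with h | h
    · have := Real.rpow_le_one hω.le h hs.1.le
      have := Real.rpow_nonneg hω.le α
      linarith
    · have := Real.rpow_le_rpow_of_exponent_le h hs.2.le
      linarith
  · filter_upwards [S.pos] with ω hω
    exact ((Real.continuousAt_const_rpow hω.ne').tendsto).mono_left nhdsWithin_le_nhds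

lemma g_lim (S : Setup P Z α) (hα : 1 < α) :
    Tendsto (fun s => ∫ ω, ((1 + Xinf Z ω) ^ s - (Xinf Z ω) ^ s) ∂P) (𝓝[<] α)
      (𝓝 (G0 P Z α)) := by
  have hP := S.prob
  unfold G0
  refine tendsto_integral_filter_of_dominated_convergence
    (fun ω => α * (1 + Xinf Z ω) ^ (α - 1))
    (Eventually.of_forall fun s => ((((measurable_Xinf S).const_add 1).pow_const s).sub
        ((measurable_Xinf S).pow_const s)).aestronglyMeasurable)
    ?_ ((int_V S (by linarith) (by linarith)).const_mul α) ?_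
  · filter_upwards [Ioo_mem_nhdsLT hα] with s hs
    filter_upwards [Xinf_nonneg S] with ω hω
    have h1 := one_le_V_sub_x hs.1.le hω
    rw [Real.norm_eq_abs, abs_of_nonneg (by linarith)]
    refine (V_sub_x_le hs.1.le hω).trans ?_
    apply mul_le_mul hs.2.le _ (Real.rpow_nonneg (by linarith) _) (by linarith)
    exact Real.rpow_le_rpow_of_exponent_le (by linarith) (by linarith [hs.2])
  · filter_upwards [Xinf_nonneg S] with ω hω
    have hid : Tendsto (fun s : ℝ => s) (𝓝[<] α) (𝓝 α) :=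
      tendsto_id.mono_left nhdsWithin_le_nhds
    have h1 : Tendsto (fun s : ℝ => (1 + Xinf Z ω) ^ s) (𝓝[<] α) (𝓝 ((1 + Xinf Z ω) ^ α)) :=
      ((Real.continuousAt_const_rpow (by linarith)).tendsto).mono_left nhdsWithin_le_nhds
    have h2 : Tendsto (fun s : ℝ => (Xinf Z ω) ^ s) (𝓝[<] α) (𝓝 ((Xinf Z ω) ^ α)) := by
      rcases hω.eq_or_lt with h | h
      · rw [← h, Real.zero_rpow (by linarith)]
        refine tendsto_const_nhds.congr' ?_
        filter_upwards [Ioo_mem_nhdsLT hα] with s hs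
        rw [Real.zero_rpow (by linarith [hs.1])]
      · exact ((Real.continuousAt_const_rpow h.ne').tendsto).mono_left nhdsWithin_le_nhds
    exact h1.sub h2

/-- The pole of the moments of the perpetuity at `α`. -/
lemma mom_pole (S : Setup P Z α) (hα : 1 < α)
    (hlog : Integrable (fun ω => (Z 0 ω) ^ α * Real.log (Z 0 ω)) P) :
    Tendsto (fun s => (α - s) * ∫ ω, (Xinf Z ω) ^ s ∂P) (𝓝[<] α)
      (𝓝 (G0 P Z α / mm P Z α)) := by
  have hm : 0 < mm P Z α := S.m_pos hlog
  have h := ((q_lim S).mul (g_lim S hα)).div (q_slope S hlog) hm.ne'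
  rw [one_mul] at h
  refine h.congr' ?_
  filter_upwards [Ioo_mem_nhdsLT hα] with s hs
  have hs0 : 0 < s := by linarith [hs.1]
  obtain ⟨hi, he⟩ := mom_eq S hs0 hs.2
  have hq := S.q_lt_one hs0 hs.2
  have hV := int_V S hs0.le hs.2
  rw [Pi.div_apply, integral_sub hV hi]
  set q := ∫ ω, (Z 0 ω) ^ s ∂P
  set A := ∫ ω, (Xinf Z ω) ^ s ∂P
  set V := ∫ ω, (1 + Xinf Z ω) ^ s ∂P
  have h1 : (1 - q) ≠ 0 := by linarith
  have h2 : α - s ≠ 0 := by linarith [hs.2]
  rw [div_div_eq_mul_div, div_eq_iff h1]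
  rw [he]
  ring

end

end Pool.Agent.DH97
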