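import Pool.Agent.DH97.M
import Pool.Agent.DH97.T
import Pool.Agent.DH97.S
import Pool.Agent.DH97.I

/-!
Derrida-Hilhorst amplitude, part N: non-integer exponent.
-/

open MeasureTheory ProbabilityTheory Filter Topology Asymptotics
open Pool.Agent.H741R4.DH

namespace Pool.Agent.DH97

noncomputable section

variable {Ω : Type*} [mΩ : MeasurableSpace Ω] {P : Measure Ω} {Z : ℕ → Ω → ℝ} {α δ : ℝ} {m : ℕ}

lemma sin_pos' (hmα : (m : ℝ) < α) (hαm : α < (m : ℝ) + 1) :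
    0 < Real.sin (Real.pi * ((m : ℝ) + 1 - α)) := by
  apply Real.sin_pos_of_pos_of_lt_pi
  · exact mul_pos Real.pi_pos (by linarith)
  · have := Real.pi_pos
    nlinarith

lemma kapC_eq (hmα : (m : ℝ) < α) (hαm : α < (m : ℝ) + 1) :
    kapC m α = Real.pi / (α * |Real.sin (Real.pi * α)|) := by
  have h := sin_pos' hmα hαm
  have e : Real.sin (Real.pi * ((m : ℝ) + 1 - α)) = |Real.sin (Real.pi * α)| := by
    rw [← abs_of_pos h]
    have e1 : Real.pi * ((m : ℝ) + 1 - α) = ((m + 1 : ℕ) : ℝ) * Real.pi - Real.pi * α := by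
      push_cast; ring
    rw [e1, Real.sin_nat_mul_pi_sub, abs_neg, abs_mul, abs_pow, abs_neg, abs_one, one_pow, one_mul]
  unfold kapC
  rw [e, div_mul_div_comm, one_mul]

lemma kapC_cont (hmα : (m : ℝ) < α) (hαm : α < (m : ℝ) + 1) :
    Tendsto (kapC m) (𝓝[<] α) (𝓝 (kapC m α)) := by
  have hα0 : α ≠ 0 := by
    have : (0 : ℝ) ≤ m := Nat.cast_nonneg m
    linarith
  have h := (sin_pos' hmα hαm).ne'
  have hc : ContinuousAt (kapC m) α := by
    unfold kapC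
    apply ContinuousAt.mul
    · exact continuousAt_const.div continuousAt_id hα0
    · have h1 : ContinuousAt (fun s : ℝ => Real.sin (Real.pi * ((m : ℝ) + 1 - s))) α := by
        fun_prop
      exact continuousAt_const.div h1 h
  exact hc.tendsto.mono_left nhdsWithin_le_nhds

/-- Identification of the limit at zero. -/
lemma c_value (S : Setup P Z α) (hm1 : 1 ≤ m) (hmα : (m : ℝ) < α) (hαm : α < (m : ℝ) + 1)
    (hlog : Integrable (fun ω => (Z 0 ω) ^ α * Real.log (Z 0 ω)) P) {c : ℝ}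
    (hc : Tendsto (fun v => Av P Z (Ks P Z m) v / v ^ α) (𝓝[>] 0) (𝓝 c)) :
    c = kapC m α * (G0 P Z α / mm P Z α) := by
  have hm0 : (1 : ℝ) ≤ m := by exact_mod_cast hm1
  have hc' : Tendsto (fun v => ks P Z m v / v ^ α) (𝓝[>] 0) (𝓝 c) := by
    refine hc.congr' ?_
    filter_upwards [self_mem_nhdsWithin] with v hv
    have hv : (0 : ℝ) < v := hv
    rw [ks_eq S hm1 hmα hv.le]
  have h1 := abel (g := ks P Z m) (m := (m : ℝ)) (α := α) (c := c) (D := nu P Z m) hmα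
    (nu_nonneg S) (fun v hv => ks_nonneg S hv.le)
    (fun v hv => by
      rw [Real.rpow_natCast]
      exact ks_le S hm1 hmα hv.le) hc'
    (fun s hs hsα => (mellin_ks S hm1 hs hsα (by linarith)).1)
  have h2 := (kapC_cont hmα hαm).mul (mom_pole S (by linarith) hlog)
  refine tendsto_nhds_unique h1 (h2.congr' ?_)
  filter_upwards [Ioo_mem_nhdsLT hmα] with s hs
  rw [(mellin_ks S hm1 hs.1 hs.2 (by linarith [hs.2])).2]
  ring

/-- The exact singular functional. -/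
lemma Sg_exact (S : Setup P Z α) (hm1 : 1 ≤ m) (hmα : (m : ℝ) < α) (hαm : α < (m : ℝ) + 1)
    (hna : ¬ ∃ c : ℝ, 0 < c ∧ ∀ᵐ ω ∂P, ∃ n : ℤ, c * Real.log (Z 0 ω) = n) :
    Tendsto (fun a => Sg P Z (psi P Z m) a / a ^ α) (𝓝[>] 0)
      (𝓝 (kapC m α * (G0 P Z α / mm P Z α) * G0 P Z α)) := by
  have hm0 : (1 : ℝ) ≤ m := by exact_mod_cast hm1
  set δ : ℝ := min (α - m) ((m : ℝ) + 1 - α) with hδdef
  have hδ1 : δ ≤ α - m := min_le_left _ _
  have hδ2 : δ ≤ (m : ℝ) + 1 - α := min_le_right _ _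
  have hδ : 0 < δ := lt_min (by linarith) (by linarith)
  have hψ := NN_psi (m := m) S hm1 hmα
  obtain ⟨B, hB0, hB⟩ := Ks_bound S hm1 hmα hδ1 hδ2 hδ
  have hKm := measurable_Ks (m := m) S
  have hK0 : ∀ y, 0 ≤ y → 0 ≤ Ks P Z m y := fun y hy => Ks_nonneg S hy
  have hKmono : ∀ x y, 0 ≤ x → x ≤ y → Ks P Z m x ≤ Ks P Z m y :=
    fun x y hx hxy => Ks_mono S hm1 hmα hx hxy
  have hKs : ∀ l y, 1 ≤ l → 0 ≤ y → Ks P Z m (l * y) ≤ l ^ (m + 1) * Ks P Z m y :=
    fun l y hl hy => Ks_scale S hm1 hmα hl hy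
  have hKe : ∀ y, 0 ≤ y → Ks P Z m y = psi P Z m y + Av P Z (Ks P Z m) (y / (1 + y)) :=
    fun y hy => Ks_eq S hm1 hmα hy
  obtain ⟨c, hc0, hc⟩ := S.phi_limit hm1 hδ1 hδ2 hδ hψ hna hB0 hKm hK0 hB hKmono hKs hKe
  have h := Sg_lim S hm1 hmα hαm hδ1 hδ2 hδ hψ hB0 hKm hK0 hB hKmono hKs hKe hc (G_lim S)
  have hcv : c = kapC m α * (G0 P Z α / mm P Z α) := by
    by_cases hlog : Integrable (fun ω => (Z 0 ω) ^ α * Real.log (Z 0 ω)) P
    · exact c_value S hm1 hmα hαm hlog hc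
    · have h0 : mm P Z α = 0 := integral_undef hlog
      rw [hc0 hlog, h0, div_zero, mul_zero]
  rw [hcv] at h
  exact h

/-- The expansion in `a` with the explicit amplitude, non-integer exponent. -/
theorem main_non_a (S : Setup P Z α) (hm1 : 1 ≤ m) (hmα : (m : ℝ) < α) (hαm : α < (m : ℝ) + 1)
    (hna : ¬ ∃ c : ℝ, 0 < c ∧ ∀ᵐ ω ∂P, ∃ n : ℤ, c * Real.log (Z 0 ω) = n) :
    ∃ l : ℕ → ℝ, (∀ k, 1 ≤ k → k ≤ m → 0 < l k) ∧
      (fun a => Lf P Z a - ∑ k ∈ Finset.Icc 1 m, (-1) ^ (k + 1) * l k * a ^ k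
        - (-1) ^ m * (Real.pi * G0 P Z α ^ 2 / (α * |Real.sin (Real.pi * α)| * mm P Z α))
          * a ^ α) =o[𝓝[>] 0] (fun a => a ^ α) := by
  obtain ⟨l, hl, C, hC, hiff, hO⟩ := S.main_an hm1 hmα hαm hna
  refine ⟨l, hl, ?_⟩
  set C' : ℝ := kapC m α * (G0 P Z α / mm P Z α) * G0 P Z α with hC'
  have hCe : Real.pi * G0 P Z α ^ 2 / (α * |Real.sin (Real.pi * α)| * mm P Z α) = C' := by
    rw [hC', kapC_eq hmα hαm, div_mul_div_comm, div_mul_eq_mul_div]
    congr 1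
    ring
  rw [hCe]
  obtain ⟨q, hq⟩ := PE_L (m := m) S hmα
  set h : ℝ → ℝ := fun a => a ^ α with hh
  have hne : ∀ᶠ a in 𝓝[>] (0 : ℝ), h a ≠ 0 := by
    filter_upwards [Setup.ev_Ioc] with a ha
    exact (Real.rpow_pos_of_pos ha.1 _).ne'
  have hnk : ∀ k : ℕ, (k : ℝ) ≠ α := by
    intro k hk
    rw [← hk] at hmα hαm
    have h1 : m < k := by exact_mod_cast hmα
    have h2 : k < m + 1 := by exact_mod_cast hαm
    omega
  have h1 : (fun a => Lam P Z a (fun x => psi P Z m (a * x)) - C' * h a) =o[𝓝[>] 0] h := by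
    have h4 : Tendsto (fun a => Sg P Z (psi P Z m) a / a ^ α - C') (𝓝[>] 0) (𝓝 0) := by
      have h5 := (Sg_exact S hm1 hmα hαm hna).sub_const C'
      rwa [sub_self] at h5
    have h5 := (isBigO_refl h (𝓝[>] 0)).mul_isLittleO ((isLittleO_one_iff ℝ).2 h4)
    refine h5.congr' ?_ (Eventually.of_forall fun a => mul_one _)
    filter_upwards [hne] with a ha
    change h a * (Lam P Z a (fun x => psi P Z m (a * x)) / h a - C') = _
    field_simp
  have hpow : (fun a : ℝ => a ^ (m + 1)) =o[𝓝[>] 0] h := by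
    have h2 : Tendsto (fun a : ℝ => a ^ ((m : ℝ) + 1 - α)) (𝓝[>] 0) (𝓝 0) :=
      Setup.tendsto_rpow_zero (by linarith)
    have h3 := (isBigO_refl (fun a : ℝ => a ^ α) (𝓝[>] 0)).mul_isLittleO
      ((isLittleO_one_iff ℝ).2 h2)
    refine h3.congr' ?_ (Eventually.of_forall fun a => mul_one _)
    filter_upwards [Setup.ev_Ioc] with a ha
    rw [← Real.rpow_add ha.1, ← Real.rpow_natCast]
    congr 1
    push_cast
    ring
  have h2 : (fun a => Lf P Z a - q.eval a - ((-1) ^ m * C') * h a) =o[𝓝[>] 0] h := by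
    have h3 := (hq.trans_isLittleO hpow).add (h1.const_mul_left ((-1) ^ m))
    refine h3.congr_left fun a => ?_
    ring
  have h3 : (fun a => Lf P Z a
      - (∑ k ∈ Finset.Icc 1 m, Polynomial.C ((-1) ^ (k + 1) * l k)
        * Polynomial.X ^ k).eval a - ((-1) ^ m * C) * h a) =o[𝓝[>] 0] h := by
    refine hO.congr_left fun a => ?_
    rw [Polynomial.eval_finsetSum]
    simp [hh]
  have h4 := coef_unique (fun k => dich_rpow hnk k) hne h3 h2
  refine hO.congr_left fun a => ?_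
  rw [h4]

end

end Pool.Agent.DH97
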