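import Pool.Agent.DH97.B

/-!
Derrida-Hilhorst amplitude, part P: expansions with polynomials and uniqueness.
-/

open MeasureTheory ProbabilityTheory Filter Topology Asymptotics
open Pool.Agent.H741R4.DH

namespace Pool.Agent.DH97

noncomputable section

/-- Expansion up to order `N`. -/
def PE (N : ℕ) (F : ℝ → ℝ) : Prop :=
  ∃ p : Polynomial ℝ, (fun a => F a - p.eval a) =O[𝓝[>] 0] (fun a : ℝ => a ^ N)

lemma eval_O1 (p : Polynomial ℝ) : (fun a => p.eval a) =O[𝓝[>] (0 : ℝ)] (fun _ => (1 : ℝ)) := by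
  have h : Tendsto (fun a => p.eval a) (𝓝[>] (0 : ℝ)) (𝓝 (p.eval 0)) :=
    (p.continuous.tendsto 0).mono_left nhdsWithin_le_nhds
  exact h.isBigO_one ℝ

lemma pow_O1 (N : ℕ) : (fun a : ℝ => a ^ N) =O[𝓝[>] (0 : ℝ)] (fun _ => (1 : ℝ)) := by
  have h := isBigO_pow_le (Nat.zero_le N)
  simpa using h

lemma PE.of_bigO {N : ℕ} {F : ℝ → ℝ} (h : F =O[𝓝[>] 0] (fun a : ℝ => a ^ N)) : PE N F :=
  ⟨0, by simpa using h⟩

lemma PE.congr {N : ℕ} {F G : ℝ → ℝ} (h : PE N F) (hFG : F =ᶠ[𝓝[>] 0] G) : PE N G := by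
  obtain ⟨p, hp⟩ := h
  refine ⟨p, hp.congr' ?_ EventuallyEq.rfl⟩
  filter_upwards [hFG] with a ha
  rw [ha]

lemma PE.of_AE {N : ℕ} {F : ℝ → ℝ} (h : AE N F) : PE N F := by
  obtain ⟨μ, _, hO⟩ := h
  refine ⟨∑ n ∈ Finset.range N, Polynomial.C (μ n) * (-Polynomial.X) ^ n, hO.congr_left ?_⟩
  intro a
  rw [Polynomial.eval_finsetSum]
  simp

lemma PE.add {N : ℕ} {F G : ℝ → ℝ} (hF : PE N F) (hG : PE N G) : PE N (fun a => F a + G a) := by
  obtain ⟨p, hp⟩ := hF
  obtain ⟨q, hq⟩ := hG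
  refine ⟨p + q, (hp.add hq).congr_left fun a => ?_⟩
  rw [Polynomial.eval_add]; ring

lemma PE.smul {N : ℕ} {F : ℝ → ℝ} (hF : PE N F) (c : ℝ) : PE N (fun a => c * F a) := by
  obtain ⟨p, hp⟩ := hF
  refine ⟨Polynomial.C c * p, (hp.const_mul_left c).congr_left fun a => ?_⟩
  rw [Polynomial.eval_mul, Polynomial.eval_C]; ring

lemma PE.zero (N : ℕ) : PE N (fun _ => 0) := PE.of_bigO (isBigO_zero _ _)

lemma PE.sum {ι : Type*} (s : Finset ι) {N : ℕ} {F : ι → ℝ → ℝ} (h : ∀ i ∈ s, PE N (F i)) :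
    PE N (fun a => ∑ i ∈ s, F i a) := by
  classical
  induction s using Finset.induction_on with
  | empty => simpa using PE.zero N
  | insert i s hi ih =>
    have h1 := (h i (Finset.mem_insert_self i s)).add
      (ih fun j hj => h j (Finset.mem_insert_of_mem hj))
    refine h1.congr (Eventually.of_forall fun a => ?_)
    simp only [Finset.sum_insert hi]

lemma PE.mul {N : ℕ} {F G : ℝ → ℝ} (hF : PE N F) (hG : PE N G) : PE N (fun a => F a * G a) := by
  obtain ⟨p, hp⟩ := hF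
  obtain ⟨q, hq⟩ := hG
  have hG1 : G =O[𝓝[>] 0] (fun _ : ℝ => (1 : ℝ)) := by
    have h := (hq.trans (pow_O1 N)).add (eval_O1 q)
    refine h.congr_left fun a => ?_
    ring
  refine ⟨p * q, ?_⟩
  have h1 := hp.mul hG1
  have h2 := (eval_O1 p).mul hq
  simp only [mul_one, one_mul] at h1 h2
  refine (h1.add h2).congr_left fun a => ?_
  rw [Polynomial.eval_mul]; ring

lemma PE.shift {N : ℕ} {F : ℝ → ℝ} (hF : PE N F) (j : ℕ) : PE (N + j) (fun a => a ^ j * F a) := by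
  obtain ⟨p, hp⟩ := hF
  refine ⟨Polynomial.X ^ j * p, ?_⟩
  have h := (isBigO_refl (fun a : ℝ => a ^ j) (𝓝[>] 0)).mul hp
  refine (h.congr_left fun a => ?_).congr_right fun a => ?_
  · rw [Polynomial.eval_mul, Polynomial.eval_pow, Polynomial.eval_X]; ring
  · rw [← pow_add, add_comm]

lemma PE.mono {N N' : ℕ} {F : ℝ → ℝ} (hF : PE N F) (h : N' ≤ N) : PE N' F := by
  obtain ⟨p, hp⟩ := hF
  exact ⟨p, hp.trans (isBigO_pow_le h)⟩

lemma ev_lt_half : ∀ᶠ a : ℝ in 𝓝[>] 0, 0 < a ∧ a ≤ 1 / 2 := by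
  filter_upwards [Ioc_mem_nhdsGT (by norm_num : (0 : ℝ) < 1 / 2)] with a ha using ⟨ha.1, ha.2⟩

lemma PE.inv (N : ℕ) : PE N (fun a : ℝ => (1 - a)⁻¹) := by
  refine ⟨∑ n ∈ Finset.range N, Polynomial.X ^ n, IsBigO.of_bound 2 ?_⟩
  filter_upwards [ev_lt_half] with a ha
  have h1 : (0 : ℝ) < 1 - a := by linarith [ha.2]
  rw [Polynomial.eval_finsetSum]
  simp only [Polynomial.eval_pow, Polynomial.eval_X]
  have h2 : (1 - a)⁻¹ - ∑ n ∈ Finset.range N, a ^ n = a ^ N * (1 - a)⁻¹ := by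
    have h := geom_sum_mul_neg a N
    have h3 : ∑ n ∈ Finset.range N, a ^ n = (1 - a ^ N) * (1 - a)⁻¹ := by
      rw [← h, mul_assoc, mul_inv_cancel₀ h1.ne', mul_one]
    rw [h3]; ring
  rw [h2, norm_mul, mul_comm]
  apply mul_le_mul_of_nonneg_right _ (norm_nonneg _)
  rw [Real.norm_eq_abs, abs_of_pos (by positivity), inv_le_comm₀ h1 (by norm_num)]
  linarith [ha.2]

lemma PE.one (N : ℕ) : PE N (fun _ : ℝ => (1 : ℝ)) :=
  ⟨1, by simpa using (isBigO_zero (fun a : ℝ => a ^ N) _)⟩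

lemma PE.inv_pow (N j : ℕ) : PE N (fun a : ℝ => ((1 - a)⁻¹) ^ j) := by
  induction j with
  | zero => simpa using PE.one N
  | succ j ih =>
    have h := ih.mul (PE.inv N)
    refine h.congr (Eventually.of_forall fun a => ?_)
    simp only
    rw [pow_succ]

variable {Ω : Type*} [mΩ : MeasurableSpace Ω] {P : Measure Ω} {Z : ℕ → Ω → ℝ} {α : ℝ} {m : ℕ}

/-- `w_i = Λ(W^i)`. -/
def wW (P : Measure Ω) (Z : ℕ → Ω → ℝ) (i : ℕ) (a : ℝ) : ℝ := Lam P Z a (fun x => (W a x) ^ i)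

lemma PE_wW (S : Setup P Z α) (hm : (m : ℝ) < α) {N i : ℕ} (hi : i + N ≤ m) :
    PE N (wW P Z i) := by
  have hiα : (i : ℝ) ≤ α := (lt_of_le_of_lt (by exact_mod_cast (by omega : i ≤ m)) hm).le
  have h := (PE.of_AE (S.exp1n hm N i hi)).smul (qk P Z i)⁻¹
  refine h.congr ?_
  filter_upwards [Setup.ev_Ioc] with a ha
  rw [S.Mk_eq ha.1 ha.2 hiα, ← mul_assoc, inv_mul_cancel₀ (S.qk_pos hiα).ne', one_mul]
  rfl

lemma Pol_eq (S : Setup P Z α) {k : ℕ} (hk : (k : ℝ) ≤ α) {a : ℝ} (ha : 0 < a) (ha1 : a ≤ 1 / 2) :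
    Pol P Z k a = -(a ^ (k + 1) * ((∑ i ∈ Finset.range k, ((1 - a)⁻¹) ^ (i + 1)) * wW P Z k a))
      - a ^ k * (((1 - a)⁻¹) ^ k * ∑ i ∈ Finset.range k,
        ((-1) ^ (k - i) * (k.choose i : ℝ)) * wW P Z i a) := by
  have h1a : (0 : ℝ) < 1 - a := by linarith
  have ha1' : a ≤ 1 := by linarith
  have hcl : ∀ i ∈ Finset.range (k + 1), Cl α (fun x : ℝ => (W a x) ^ i) := by
    intro i hi
    have := Finset.mem_range.1 hi
    exact cl_nW ha (le_trans (by exact_mod_cast (by omega : i ≤ k)) hk)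
  have h1 : Lam P Z a (fun x => (kap a x) ^ k)
      = (a * (1 - a)⁻¹) ^ k * ∑ i ∈ Finset.range (k + 1),
        ((-1) ^ (k - i) * (k.choose i : ℝ)) * wW P Z i a := by
    have h2 : Lam P Z a (fun x => (kap a x) ^ k)
        = Lam P Z a (fun x => (a * (1 - a)⁻¹) ^ k * ∑ i ∈ Finset.range (k + 1),
          ((-1) ^ (k - i) * (k.choose i : ℝ)) * (W a x) ^ i) := by
      have hclS := cl_sum S.α_pos.le (Finset.range (k + 1))
        (fun i hi => (hcl i hi).const_mul ((-1) ^ (k - i) * (k.choose i : ℝ)))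
      apply S.Lam_congr ha ha1' (cl_kap S ha k) (hclS.const_mul _)
      intro x hx
      have hH := H_pos ha hx
      have e1 : kap a x = (a * (1 - a)⁻¹) * (W a x + (-1)) := by
        unfold kap W
        field_simp
        ring
      rw [e1, mul_pow, add_pow]
      congr 1
      apply Finset.sum_congr rfl
      intro i _
      ring
    have hclS := cl_sum S.α_pos.le (Finset.range (k + 1))
        (fun i hi => (hcl i hi).const_mul ((-1) ^ (k - i) * (k.choose i : ℝ)))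
    rw [h2, S.Lam_const_mul ha ha1' hclS,
      S.Lam_sum ha ha1' _ (fun i hi => (hcl i hi).const_mul _)]
    congr 1
    apply Finset.sum_congr rfl
    intro i hi
    rw [S.Lam_const_mul ha ha1' (hcl i hi)]
    rfl
  unfold Pol
  rw [h1, Finset.sum_range_succ, Nat.sub_self, pow_zero, Nat.choose_self, Nat.cast_one, one_mul,
    one_mul, mul_pow]
  have h3 : (1 - a)⁻¹ ^ k - 1 = a * ∑ i ∈ Finset.range k, ((1 - a)⁻¹) ^ (i + 1) := by
    have h := geom_sum_mul ((1 - a)⁻¹) k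
    rw [← h]
    have e : (1 - a)⁻¹ - 1 = a * (1 - a)⁻¹ := by field_simp; ring
    rw [e, Finset.mul_sum, Finset.sum_mul]
    apply Finset.sum_congr rfl
    intro i _
    rw [pow_succ]; ring
  have h4 : (1 - a)⁻¹ ^ k = 1 + a * ∑ i ∈ Finset.range k, ((1 - a)⁻¹) ^ (i + 1) := by linarith
  set Q := ∑ i ∈ Finset.range k, ((1 - a)⁻¹) ^ (i + 1) with hQ
  set R := ∑ i ∈ Finset.range k, ((-1) ^ (k - i) * (k.choose i : ℝ)) * wW P Z i a with hR
  change a ^ k * wW P Z k a - _ = _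
  have h5 : a ^ k * (1 - a)⁻¹ ^ k * wW P Z k a = a ^ k * wW P Z k a + a ^ (k + 1) * (Q * wW P Z k a) := by
    rw [h4]; ring
  rw [mul_add, h5]
  ring

lemma PE_Pol (S : Setup P Z α) (hm : (m : ℝ) < α) {k : ℕ} (hk : k ≤ m) :
    PE (m + 1) (Pol P Z k) := by
  have hkα : (k : ℝ) ≤ α := (lt_of_le_of_lt (by exact_mod_cast hk) hm).le
  have h1 : PE (m - k + (k + 1)) (fun a => a ^ (k + 1)
      * ((∑ i ∈ Finset.range k, ((1 - a)⁻¹) ^ (i + 1)) * wW P Z k a)) :=
    ((PE.sum _ fun i _ => PE.inv_pow (m - k) (i + 1)).mul (PE_wW S hm (by omega))).shift (k + 1)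
  have h2 : PE (m - k + 1 + k) (fun a => a ^ k * (((1 - a)⁻¹) ^ k * ∑ i ∈ Finset.range k,
        ((-1) ^ (k - i) * (k.choose i : ℝ)) * wW P Z i a)) := by
    refine ((PE.inv_pow (m - k + 1) k).mul (PE.sum _ fun i hi => ?_)).shift k
    have := Finset.mem_range.1 hi
    exact (PE_wW S hm (by omega)).smul _
  have e1 : m - k + (k + 1) = m + 1 := by omega
  have e2 : m - k + 1 + k = m + 1 := by omega
  rw [e1] at h1
  rw [e2] at h2
  refine ((h1.smul (-1)).add (h2.smul (-1))).congr ?_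
  filter_upwards [ev_lt_half] with a ha
  rw [Pol_eq S hkα ha.1 ha.2]
  ring

/-- The exponent up to the exact singular part. -/
lemma PE_L (S : Setup P Z α) (hm : (m : ℝ) < α) :
    PE (m + 1) (fun a => Lf P Z a - (-1) ^ m * Lam P Z a (fun x => psi P Z m (a * x))) := by
  have h : PE (m + 1) (fun a => ∑ k ∈ Finset.range m, ((-1) ^ k / ((k : ℝ) + 1) * nu P Z (k + 1)
        * qk P Z (k + 1)) * Pol P Z (k + 1) a) :=
    PE.sum _ fun k hk => (PE_Pol S hm (by have := Finset.mem_range.1 hk; omega)).smul _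
  refine h.congr ?_
  filter_upwards [Setup.ev_Ioc] with a ha
  rw [L_rep S hm ha.1 ha.2]
  simp only [mul_assoc]
  ring

/-! ### uniqueness -/

lemma poly_dich (p : Polynomial ℝ) {h : ℝ → ℝ}
    (hd : ∀ k : ℕ, (fun a : ℝ => a ^ k) =O[𝓝[>] 0] h → (fun a : ℝ => a ^ k) =o[𝓝[>] 0] h)
    (hp : (fun a => p.eval a) =O[𝓝[>] 0] h) : (fun a => p.eval a) =o[𝓝[>] 0] h := by
  rcases eq_or_ne p 0 with rfl | hp0
  · simp
  obtain ⟨q, hq, hqd⟩ := Polynomial.exists_eq_pow_rootMultiplicity_mul_and_not_dvd p hp0 0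
  set k := Polynomial.rootMultiplicity 0 p with hk
  rw [Polynomial.C_0, sub_zero] at hq hqd
  have hq0 : q.eval 0 ≠ 0 := by
    intro h0
    apply hqd
    rw [Polynomial.X_dvd_iff, Polynomial.coeff_zero_eq_eval_zero]
    exact h0
  have hqt : Tendsto (fun a => q.eval a) (𝓝[>] (0 : ℝ)) (𝓝 (q.eval 0)) :=
    (q.continuous.tendsto 0).mono_left nhdsWithin_le_nhds
  have he : ∀ a, p.eval a = a ^ k * q.eval a := by
    intro a
    conv_lhs => rw [hq]
    rw [Polynomial.eval_mul, Polynomial.eval_pow, Polynomial.eval_X]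
  have h1 : (fun a : ℝ => a ^ k) =O[𝓝[>] 0] h := by
    have h2 : (fun a : ℝ => (q.eval a)⁻¹) =O[𝓝[>] (0 : ℝ)] (fun _ => (1 : ℝ)) :=
      (hqt.inv₀ hq0).isBigO_one ℝ
    have h3 := hp.mul h2
    simp only [mul_one] at h3
    refine h3.congr' ?_ EventuallyEq.rfl
    filter_upwards [hqt.eventually_ne hq0] with a ha
    rw [he a]
    field_simp
  have h2 := (hd k h1).mul_isBigO (eval_O1 q)
  simp only [mul_one] at h2
  refine h2.congr_left fun a => (he a).symm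

lemma coef_unique {L h : ℝ → ℝ} {p q : Polynomial ℝ} {C C' : ℝ}
    (hd : ∀ k : ℕ, (fun a : ℝ => a ^ k) =O[𝓝[>] 0] h → (fun a : ℝ => a ^ k) =o[𝓝[>] 0] h)
    (hne : ∀ᶠ a in 𝓝[>] (0 : ℝ), h a ≠ 0)
    (h1 : (fun a => L a - p.eval a - C * h a) =o[𝓝[>] 0] h)
    (h2 : (fun a => L a - q.eval a - C' * h a) =o[𝓝[>] 0] h) : C = C' := by
  have h3 : (fun a => (p - q).eval a + (C - C') * h a) =o[𝓝[>] 0] h := by
    refine (h2.sub h1).congr_left fun a => ?_
    rw [Polynomial.eval_sub]; ring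
  have h4 : (fun a => (p - q).eval a) =O[𝓝[>] 0] h := by
    have h5 := h3.isBigO.sub ((isBigO_refl h (𝓝[>] 0)).const_mul_left (C - C'))
    refine h5.congr_left fun a => ?_
    ring
  have h5 := poly_dich (p - q) hd h4
  have h6 : (fun a => (C - C') * h a) =o[𝓝[>] 0] h := by
    refine (h3.sub h5).congr_left fun a => ?_
    ring
  by_contra hne'
  have h7 : h =o[𝓝[>] 0] h := by
    have h8 := h6.const_mul_left (C - C')⁻¹
    refine h8.congr_left fun a => ?_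
    rw [← mul_assoc, inv_mul_cancel₀ (sub_ne_zero.2 hne'), one_mul]
  refine isLittleO_irrefl' ?_ h7
  exact (hne.mono fun a ha => norm_ne_zero_iff.2 ha).frequently

lemma dich_rpow {α : ℝ} (hα : ∀ k : ℕ, (k : ℝ) ≠ α) (k : ℕ)
    (h : (fun a : ℝ => a ^ k) =O[𝓝[>] 0] (fun a : ℝ => a ^ α)) :
    (fun a : ℝ => a ^ k) =o[𝓝[>] 0] (fun a : ℝ => a ^ α) := by
  have key : ∀ s t : ℝ, s < t → (fun a : ℝ => a ^ t) =o[𝓝[>] 0] (fun a : ℝ => a ^ s) := by
    intro s t hst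
    have h1 : Tendsto (fun a : ℝ => a ^ (t - s)) (𝓝[>] 0) (𝓝 0) :=
      Setup.tendsto_rpow_zero (by linarith)
    have h2 := (isBigO_refl (fun a : ℝ => a ^ s) (𝓝[>] 0)).mul_isLittleO
      ((isLittleO_one_iff ℝ).2 h1)
    refine h2.congr' ?_ ?_
    · filter_upwards [Setup.ev_Ioc] with a ha
      rw [← Real.rpow_add ha.1]
      congr 1
      ring
    · exact Eventually.of_forall fun a => mul_one _
  have e : ∀ a : ℝ, a ^ k = a ^ (k : ℝ) := fun a => (Real.rpow_natCast a k).symm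
  simp only [e] at h ⊢
  rcases lt_or_gt_of_ne (hα k) with h1 | h1
  · exfalso
    have h2 := h.trans_isLittleO (key _ _ h1)
    refine isLittleO_irrefl' ?_ h2
    refine Eventually.frequently ?_
    filter_upwards [Setup.ev_Ioc] with a ha
    exact norm_ne_zero_iff.2 (Real.rpow_pos_of_pos ha.1 _).ne'
  · exact key _ _ h1

lemma pow_o_log (n : ℕ) :
    (fun a : ℝ => a ^ n) =o[𝓝[>] 0] (fun a => a ^ n * Real.log (1 / a)) := by
  have h2 : (fun _ : ℝ => (1 : ℝ)) =o[𝓝[>] 0] (fun a => Real.log (1 / a)) := by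
    rw [isLittleO_one_left_iff]
    exact tendsto_norm_atTop_atTop.comp Setup.tendsto_ell
  have h3 := (isBigO_refl (fun a : ℝ => a ^ n) (𝓝[>] 0)).mul_isLittleO h2
  simpa using h3

lemma dich_log {n : ℕ} (k : ℕ)
    (h : (fun a : ℝ => a ^ k) =O[𝓝[>] 0] (fun a : ℝ => a ^ n * Real.log (1 / a))) :
    (fun a : ℝ => a ^ k) =o[𝓝[>] 0] (fun a : ℝ => a ^ n * Real.log (1 / a)) := by
  rcases lt_or_ge k n with h1 | h1
  · exfalso
    have h2 : Tendsto (fun a : ℝ => a * Real.log (1 / a)) (𝓝[>] 0) (𝓝 0) := by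
      have h3 := tendsto_log_mul_rpow_nhdsGT_zero (r := 1) one_pos
      have h4 := h3.neg
      rw [neg_zero] at h4
      refine h4.congr fun a => ?_
      rw [Real.rpow_one, one_div, Real.log_inv]; ring
    have h3 : (fun a : ℝ => a ^ n * Real.log (1 / a)) =o[𝓝[>] 0] (fun a : ℝ => a ^ k) := by
      have h4 := (isBigO_pow_le (by omega : k ≤ n - 1)).mul_isLittleO
        ((isLittleO_one_iff ℝ).2 h2)
      refine h4.congr' ?_ ?_
      · refine Eventually.of_forall fun a => ?_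
        have : a ^ n = a ^ (n - 1) * a := by rw [← pow_succ]; congr 1; omega
        simp only
        rw [this]; ring
      · exact Eventually.of_forall fun a => mul_one _
    refine isLittleO_irrefl' ?_ (h.trans_isLittleO h3)
    refine Eventually.frequently ?_
    filter_upwards [Setup.ev_Ioc] with a ha
    exact norm_ne_zero_iff.2 (pow_pos ha.1 _).ne'
  · exact (isBigO_pow_le h1).trans_isLittleO (pow_o_log n)

end

end Pool.Agent.DH97
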