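import Pool.Agent.DH97.N

/-!
Derrida-Hilhorst amplitude, part R: the expansions in `ε`.
-/

open MeasureTheory ProbabilityTheory Filter Topology Asymptotics
open Pool.Agent.H741R4.DH

namespace Pool.Agent.DH97

noncomputable section

variable {Ω : Type*} [mΩ : MeasurableSpace Ω] {P : Measure Ω} {Z : ℕ → Ω → ℝ} {α : ℝ} {m p : ℕ}

lemma sq_tendsto : Tendsto (fun ε : ℝ => ε ^ 2) (𝓝[>] 0) (𝓝[>] 0) := by
  apply tendsto_nhdsWithin_iff.2
  constructor
  · exact tendsto_pow_zero 1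
  · filter_upwards [self_mem_nhdsWithin] with ε hε
    exact pow_pos (Set.mem_Ioi.1 hε) 2

lemma sq_rpow' {ε : ℝ} (hε : 0 < ε) (α : ℝ) : (ε ^ 2) ^ α = ε ^ (2 * α) := by
  rw [← Real.rpow_natCast, ← Real.rpow_mul hε.le]
  norm_num

/-- The perpetuity converges almost surely. -/
lemma summ (S : Setup P Z α) :
    ∀ᵐ ω ∂P, Summable fun j : ℕ => ∏ k ∈ Finset.range (j + 1), Z k ω := by
  filter_upwards [S.pos_all, PS_tendsto S] with ω hω h
  have h0 : ∀ j, 0 ≤ ∏ k ∈ Finset.range (j + 1), Z k ω := fun j =>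
    Finset.prod_nonneg fun k _ => (hω k).le
  exact summable_of_sum_range_le h0 (c := Xinf Z ω) fun n => (PS_mono hω).ge_of_tendsto h n

/-- Non-integer exponent, expansion in `ε`. -/
theorem main_non_eps (S : Setup P Z α) (hm1 : 1 ≤ m) (hmα : (m : ℝ) < α) (hαm : α < (m : ℝ) + 1)
    (hna : ¬ ∃ c : ℝ, 0 < c ∧ ∀ᵐ ω ∂P, ∃ n : ℤ, c * Real.log (Z 0 ω) = n) :
    ∃ l : ℕ → ℝ, (∀ k, 1 ≤ k → k ≤ m → 0 < l k) ∧
      (fun ε : ℝ => Lf P Z (ε ^ 2) - ∑ k ∈ Finset.Icc 1 m, (-1) ^ (k + 1) * l k * ε ^ (2 * k)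
        - (-1) ^ m * (Real.pi * G0 P Z α ^ 2 / (α * |Real.sin (Real.pi * α)| * mm P Z α))
          * ε ^ (2 * α)) =o[𝓝[>] 0] (fun ε => ε ^ (2 * α)) := by
  obtain ⟨l, hl, h⟩ := main_non_a S hm1 hmα hαm hna
  refine ⟨l, hl, ?_⟩
  have h1 := h.comp_tendsto sq_tendsto
  refine h1.congr' ?_ ?_
  · filter_upwards [self_mem_nhdsWithin] with ε hε
    have hε : 0 < ε := hε
    simp only [Function.comp, sq_rpow' hε, ← pow_mul]
  · filter_upwards [self_mem_nhdsWithin] with ε hε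
    have hε : 0 < ε := hε
    simp only [Function.comp, sq_rpow' hε]

/-- Integer exponent, expansion in `ε`. -/
theorem main_int_eps (S : Setup P Z (p : ℝ)) (hp : 1 ≤ p) :
    ∃ l : ℕ → ℝ, (∀ k, 1 ≤ k → k < p → 0 < l k) ∧
      (fun ε : ℝ => Lf P Z (ε ^ 2) - ∑ k ∈ Finset.Icc 1 (p - 1), (-1) ^ (k + 1) * l k * ε ^ (2 * k)
        - (-1) ^ (p - 1) * (2 * G0 P Z (p : ℝ) ^ 2 / (p * mm P Z (p : ℝ)))
          * ε ^ (2 * p) * Real.log (1 / ε))
        =o[𝓝[>] 0] (fun ε => ε ^ (2 * p) * Real.log (1 / ε)) := by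
  obtain ⟨l, hl, h⟩ := main_int_a S hp
  refine ⟨l, hl, ?_⟩
  have h1 := h.comp_tendsto sq_tendsto
  set C : ℝ := G0 P Z (p : ℝ) ^ 2 / (p * mm P Z (p : ℝ)) with hC
  have e0 : 2 * G0 P Z (p : ℝ) ^ 2 / (p * mm P Z (p : ℝ)) = 2 * C := by rw [hC]; ring
  rw [e0]
  have h2 : (fun ε : ℝ => Lf P Z (ε ^ 2)
        - ∑ k ∈ Finset.Icc 1 (p - 1), (-1) ^ (k + 1) * l k * ε ^ (2 * k)
        - (-1) ^ (p - 1) * (2 * C) * ε ^ (2 * p) * Real.log (1 / ε))
        =o[𝓝[>] 0] (fun ε => 2 * (ε ^ (2 * p) * Real.log (1 / ε))) := by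
    refine h1.congr' ?_ ?_
    · filter_upwards [self_mem_nhdsWithin] with ε hε
      have hε : 0 < ε := hε
      have e : Real.log (1 / ε ^ 2) = 2 * Real.log (1 / ε) := by
        rw [one_div, one_div, Real.log_inv, Real.log_inv, Real.log_pow]; push_cast; ring
      simp only [Function.comp, e, ← pow_mul]
      ring
    · filter_upwards [self_mem_nhdsWithin] with ε hε
      have hε : 0 < ε := hε
      have e : Real.log (1 / ε ^ 2) = 2 * Real.log (1 / ε) := by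
        rw [one_div, one_div, Real.log_inv, Real.log_inv, Real.log_pow]; push_cast; ring
      simp only [Function.comp, e, ← pow_mul]
      ring
  exact h2.of_const_mul_right

/-- Binomial expansion of the moments of `1 + X`. -/
lemma nu_eq (S : Setup P Z α) {j : ℕ} (hj : (j : ℝ) < α) :
    nu P Z j = ∑ i ∈ Finset.range (j + 1), (j.choose i : ℝ) * ∫ ω, (Xinf Z ω) ^ i ∂P := by
  have hi : ∀ i ∈ Finset.range (j + 1), Integrable (fun ω => (j.choose i : ℝ) * (Xinf Z ω) ^ i) P := by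
    intro i hi
    have := Finset.mem_range.1 hi
    exact (int_Xk S (lt_of_le_of_lt (by exact_mod_cast (by omega : i ≤ j)) hj)).const_mul _
  have h : nu P Z j = ∫ ω, (∑ i ∈ Finset.range (j + 1), (j.choose i : ℝ) * (Xinf Z ω) ^ i) ∂P := by
    unfold nu
    congr 1
    funext ω
    rw [add_comm, add_pow]
    apply Finset.sum_congr rfl
    intro i _
    rw [one_pow]; ring
  rw [h, integral_finsetSum _ hi]
  apply Finset.sum_congr rfl
  intro i _
  rw [integral_const_mul]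

/-- The recursion of the moments of the perpetuity. -/
lemma mu_rec (S : Setup P Z α) {j : ℕ} (hj1 : 1 ≤ j) (hj : (j : ℝ) < α) :
    ∫ ω, (Xinf Z ω) ^ j ∂P = (∫ ω, (Z 0 ω) ^ j ∂P) / (1 - ∫ ω, (Z 0 ω) ^ j ∂P)
      * ∑ i ∈ Finset.range j, (j.choose i : ℝ) * ∫ ω, (Xinf Z ω) ^ i ∂P := by
  have h1 := mom_eq_nat S hj
  have h2 := nu_eq S hj
  unfold nu at h2
  rw [h2, Finset.sum_range_succ, Nat.choose_self, Nat.cast_one, one_mul] at h1
  have hq : qk P Z j < 1 := S.qk_lt_one hj1 hj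
  have h3 : (∫ ω, (Z 0 ω) ^ j ∂P) = qk P Z j := rfl
  rw [h3]
  have h4 : 1 - qk P Z j ≠ 0 := by linarith
  rw [div_mul_eq_mul_div, eq_div_iff h4]
  linarith

/-- `G_0` for integer exponent in terms of the moments. -/
lemma G0_int (S : Setup P Z (p : ℝ)) (hp : 1 ≤ p) :
    G0 P Z (p : ℝ) = ∑ i ∈ Finset.range p, (p.choose i : ℝ) * ∫ ω, (Xinf Z ω) ^ i ∂P := by
  have hi : ∀ i ∈ Finset.range p, Integrable (fun ω => (p.choose i : ℝ) * (Xinf Z ω) ^ i) P := by
    intro i hi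
    have := Finset.mem_range.1 hi
    exact (int_Xk S (by exact_mod_cast this)).const_mul _
  have h : G0 P Z (p : ℝ) = ∫ ω, (∑ i ∈ Finset.range p, (p.choose i : ℝ) * (Xinf Z ω) ^ i) ∂P := by
    unfold G0
    congr 1
    funext ω
    rw [Real.rpow_natCast, Real.rpow_natCast, add_comm, add_pow, Finset.sum_range_succ,
      Nat.choose_self, Nat.sub_self]
    simp only [one_pow, mul_one, Nat.cast_one, add_sub_cancel_right]
    apply Finset.sum_congr rfl
    intro i _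
    ring
  rw [h, integral_finsetSum _ hi]
  apply Finset.sum_congr rfl
  intro i _
  rw [integral_const_mul]

end

end Pool.Agent.DH97
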